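import Pool.Agent.H661.Luzin.Process

/-!
# Fair-coin measure on `ℕ → Bool`
-/

open MeasureTheory Set
open scoped ENNReal

namespace Pool.Agent.H661.Luzin

/-- the fair measure on `Bool` -/
noncomputable def fair : Measure Bool := (2⁻¹ : ℝ≥0∞) • (Measure.dirac true + Measure.dirac false)

instance : IsProbabilityMeasure fair := ⟨by
  simp only [fair, Measure.smul_apply, Measure.add_apply, measure_univ, smul_eq_mul]
  rw [one_add_one_eq_two, ENNReal.inv_mul_cancel (by norm_num) (by norm_num)]⟩

theorem fair_singleton (b : Bool) : fair {b} = 2⁻¹ := by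
  cases b <;> simp [fair]

/-- the fair-coin measure on infinite binary sequences -/
noncomputable def coin : Measure Seq := Measure.infinitePi (fun _ => fair)

instance : IsProbabilityMeasure coin := by unfold coin; infer_instance

instance : coin.OuterRegular := inferInstance

theorem coin_box (s : Finset ℕ) (u : Seq) : coin {z | ∀ t ∈ s, z t = u t} = 2⁻¹ ^ s.card := by
  have h1 : {z : Seq | ∀ t ∈ s, z t = u t} = Set.pi (s : Set ℕ) (fun t => {u t}) := by
    ext z; simp
  rw [h1, coin, Measure.infinitePi_pi _ (fun i _ => MeasurableSet.singleton _)]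
  simp [fair_singleton]

theorem measurable_of_dep {α : Type*} [MeasurableSpace α] (N : ℕ) (f : Seq → α)
    (h : ∀ z w : Seq, (∀ t < N, z t = w t) → f z = f w) : Measurable f := by
  let ext : (Fin N → Bool) → Seq := fun u t => if h : t < N then u ⟨t, h⟩ else false
  let res : Seq → (Fin N → Bool) := fun z i => z i
  have h1 : f = (f ∘ ext) ∘ res := by
    funext z
    apply h
    intro t ht
    simp only [ext, res, ht, dif_pos]
  rw [h1]
  apply Measurable.comp
  · exact measurable_of_finite _
  · exact measurable_pi_lambda _ (fun i => measurable_pi_apply _)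

theorem measurableSet_of_dep (N : ℕ) (A : Set Seq)
    (h : ∀ z w : Seq, (∀ t < N, z t = w t) → z ∈ A → w ∈ A) : MeasurableSet A := by
  have h1 : Measurable (fun z : Seq => (z ∈ A : Prop)) := by
    apply measurable_of_dep N
    intro z w hzw
    apply propext
    exact ⟨h z w hzw, h w z (fun t ht => (hzw t ht).symm)⟩
  exact measurableSet_setOfPred.mpr h1

theorem measurableSet_mt (N v : ℕ) : MeasurableSet {z | mt N v z} :=
  measurableSet_of_dep N _ (fun _ _ hzw h => (mt_congr hzw).mp h)

theorem coin_perm (e : ℕ ≃ ℕ) : MeasurePreserving (fun (z : Seq) (j : ℕ) => z (e j)) coin coin := by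
  have hm : Measurable (fun (z : Seq) (j : ℕ) => z (e j)) :=
    measurable_pi_lambda _ (fun j => measurable_pi_apply _)
  refine ⟨hm, ?_⟩
  unfold coin
  apply Measure.eq_infinitePi
  intro s t ht
  rw [Measure.map_apply hm (MeasurableSet.pi s.countable_toSet (fun i _ => ht i))]
  have h1 : (fun (z : Seq) (j : ℕ) => z (e j)) ⁻¹' (Set.pi (s : Set ℕ) t) =
      Set.pi ((s.map e.toEmbedding : Finset ℕ) : Set ℕ) (fun i => t (e.symm i)) := by
    ext z
    simp only [mem_preimage, Set.mem_pi, Finset.mem_coe, Finset.mem_map, Equiv.coe_toEmbedding]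
    constructor
    · rintro h i ⟨a, ha, rfl⟩
      rw [e.symm_apply_apply]
      exact h a ha
    · intro h i hi
      have := h (e i) ⟨i, hi, rfl⟩
      rwa [e.symm_apply_apply] at this
  rw [h1, Measure.infinitePi_pi _ (fun i _ => ht _), Finset.prod_map]
  apply Finset.prod_congr rfl
  intro i _
  rw [Equiv.coe_toEmbedding, e.symm_apply_apply]

/-- interleaving of two sequences -/
def mrg (y r : Seq) : Seq := fun t => if t % 2 = 0 then y (t / 2) else r (t / 2)

@[simp] theorem mrg_even (y r : Seq) (n : ℕ) : mrg y r (2 * n) = y n := by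
  have h1 : 2 * n % 2 = 0 := by omega
  have h2 : 2 * n / 2 = n := by omega
  simp only [mrg, h1, h2, if_true]

@[simp] theorem mrg_odd (y r : Seq) (n : ℕ) : mrg y r (2 * n + 1) = r n := by
  have h1 : (2 * n + 1) % 2 ≠ 0 := by omega
  have h2 : (2 * n + 1) / 2 = n := by omega
  simp only [mrg, h1, h2, if_false]

theorem mrg_self (z : Seq) : mrg (fun n => z (2 * n)) (fun n => z (2 * n + 1)) = z := by
  funext t
  rcases Nat.even_or_odd' t with ⟨n, rfl | rfl⟩
  · rw [mrg_even]
  · rw [mrg_odd]

theorem measurable_mrg : Measurable (fun q : Seq × Seq => mrg q.1 q.2) := by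
  apply measurable_pi_lambda
  intro t
  unfold mrg
  split_ifs
  · exact (measurable_pi_apply _).comp measurable_fst
  · exact (measurable_pi_apply _).comp measurable_snd

theorem coin_mrg : MeasurePreserving (fun q : Seq × Seq => mrg q.1 q.2) (coin.prod coin) coin := by
  refine ⟨measurable_mrg, ?_⟩
  conv_rhs => unfold coin
  apply Measure.eq_infinitePi
  intro s t ht
  rw [Measure.map_apply measurable_mrg (MeasurableSet.pi s.countable_toSet (fun i _ => ht i))]
  set se : Finset ℕ := (s.filter (fun i => i % 2 = 0)).image (fun i => i / 2) with hse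
  set so : Finset ℕ := (s.filter (fun i => ¬ i % 2 = 0)).image (fun i => i / 2) with hso
  have h1 : (fun q : Seq × Seq => mrg q.1 q.2) ⁻¹' (Set.pi (s : Set ℕ) t) =
      (Set.pi (se : Set ℕ) (fun n => t (2 * n))) ×ˢ (Set.pi (so : Set ℕ) (fun n => t (2 * n + 1))) := by
    ext ⟨y, r⟩
    simp only [mem_preimage, Set.mem_pi, Finset.mem_coe, mem_prod, hse, hso, Finset.mem_image,
      Finset.mem_filter]
    constructor
    · intro h
      constructor
      · rintro n ⟨i, ⟨h1, h2⟩, rfl⟩
        have := h i h1
        have e : 2 * (i / 2) = i := by omega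
        rw [e]
        rw [← e, mrg_even, e] at this
        exact this
      · rintro n ⟨i, ⟨h1, h2⟩, rfl⟩
        have := h i h1
        have e : 2 * (i / 2) + 1 = i := by omega
        rw [e]
        rw [← e, mrg_odd, e] at this
        exact this
    · rintro ⟨h1, h2⟩ i hi
      rcases Nat.even_or_odd' i with ⟨n, rfl | rfl⟩
      · rw [mrg_even]
        exact h1 n ⟨2 * n, ⟨hi, by omega⟩, by omega⟩
      · rw [mrg_odd]
        exact h2 n ⟨2 * n + 1, ⟨hi, by omega⟩, by omega⟩
  rw [h1, Measure.prod_prod, coin, Measure.infinitePi_pi _ (fun i _ => ht _),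
    Measure.infinitePi_pi _ (fun i _ => ht _)]
  rw [hse, hso, Finset.prod_image, Finset.prod_image,
    ← Finset.prod_filter_mul_prod_filter_not s (fun i => i % 2 = 0)]
  · congr 1
    · apply Finset.prod_congr rfl
      intro i hi
      have := (Finset.mem_filter.mp hi).2
      have e : 2 * (i / 2) = i := by omega
      rw [e]
    · apply Finset.prod_congr rfl
      intro i hi
      have := (Finset.mem_filter.mp hi).2
      have e : 2 * (i / 2) + 1 = i := by omega
      rw [e]
  · intro i hi j hj hij
    have h1 := (Finset.mem_filter.mp hi).2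
    have h2 := (Finset.mem_filter.mp hj).2
    simp only at hij
    omega
  · intro i hi j hj hij
    have h1 := (Finset.mem_filter.mp hi).2
    have h2 := (Finset.mem_filter.mp hj).2
    simp only at hij
    omega

/-- If a set of sequences is determined, in the odd part, by the first `m` odd bits, then its
projection to the even part has measure at most `2 ^ m` times its measure. -/
theorem proj_bound {C : Set Seq} (hC : MeasurableSet C) (m : ℕ)
    (h : ∀ y r r' : Seq, mrg y r ∈ C → (∀ n < m, r' n = r n) → mrg y r' ∈ C) :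
    coin {y | ∃ r, mrg y r ∈ C} ≤ 2 ^ m * coin C := by
  have hC' : MeasurableSet ((fun q : Seq × Seq => mrg q.1 q.2) ⁻¹' C) := measurable_mrg hC
  have h1 : coin C = ∫⁻ y, coin {r | mrg y r ∈ C} ∂coin := by
    rw [← coin_mrg.measure_preimage hC.nullMeasurableSet, Measure.prod_apply hC']
    rfl
  have h2 : {y | ∃ r, mrg y r ∈ C} ⊆ {y | (2⁻¹ : ℝ≥0∞) ^ m ≤ coin {r | mrg y r ∈ C}} := by
    rintro y ⟨r, hr⟩
    have h3 : {r' : Seq | ∀ t ∈ Finset.range m, r' t = r t} ⊆ {r | mrg y r ∈ C} := by
      intro r' hr'
      exact h y r r' hr (fun n hn => hr' n (Finset.mem_range.mpr hn))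
    have h4 := measure_mono (μ := coin) h3
    rw [coin_box, Finset.card_range] at h4
    exact h4
  have h3 := mul_meas_ge_le_lintegral (μ := coin)
    (measurable_measure_prodMk_left (ν := coin) hC') ((2⁻¹ : ℝ≥0∞) ^ m)
  have h5 : (2⁻¹ : ℝ≥0∞) ^ m * coin {y | ∃ r, mrg y r ∈ C} ≤ coin C := by
    rw [h1]
    exact (mul_le_mul_right (measure_mono h2) _).trans h3
  calc coin {y | ∃ r, mrg y r ∈ C} = 2 ^ m * ((2⁻¹ : ℝ≥0∞) ^ m * coin {y | ∃ r, mrg y r ∈ C}) := by
        rw [← mul_assoc, ← mul_pow, ENNReal.mul_inv_cancel (by norm_num) (by norm_num), one_pow,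
          one_mul]
    _ ≤ 2 ^ m * coin C := mul_le_mul_right h5 _

/-- open sets of sequences contain a cylinder around each point -/
theorem exists_cyl_of_isOpen {U : Set Seq} (hU : IsOpen U) {x : Seq} (hx : x ∈ U) :
    ∃ N, ∀ v : Seq, (∀ t < N, v t = x t) → v ∈ U := by
  obtain ⟨I, u, h1, h2⟩ := isOpen_pi_iff.mp hU x hx
  refine ⟨I.sup id + 1, fun v hv => h2 ?_⟩
  intro i hi
  have : i ≤ I.sup id := Finset.le_sup (f := id) hi
  rw [hv i (by omega)]
  exact (h1 i hi).2

end Pool.Agent.H661.Luzin
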