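import Pool.Agent.H661.Luzin.Prim

/-!
# The function is computable
-/

open Set

namespace Pool.Agent.H661.Luzin

/-- numerator of the distance to an interval -/
def dN (N v a B : ℕ) : ℕ :=
  max (An N v * B - a * 2 ^ (2 * N + 1)) (a * 2 ^ (2 * N + 1) - (An N v + 2 ^ N + 1) * B)

/-- numerator of the tent function -/
def tN (N v a B : ℕ) : ℕ := 2 * B - dN N v a B

theorem cast_tsub (m n : ℕ) : ((m - n : ℕ) : ℝ) = max 0 ((m : ℝ) - n) := by
  rcases le_total m n with h | h
  · rw [Nat.sub_eq_zero_of_le h, max_eq_left]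
    · simp
    · have : (m : ℝ) ≤ n := by exact_mod_cast h
      linarith
  · rw [Nat.cast_sub h, max_eq_right]
    have : (n : ℝ) ≤ m := by exact_mod_cast h
    linarith

theorem max_max_distrib_left' (a b c : ℝ) : max a (max b c) = max (max a b) (max a c) := by
  apply le_antisymm
  · exact max_le (le_max_of_le_left (le_max_left _ _))
      (max_le (le_max_of_le_left (le_max_right _ _)) (le_max_of_le_right (le_max_right _ _)))
  · exact max_le (max_le_max le_rfl (le_max_left _ _)) (max_le_max le_rfl (le_max_right _ _))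

theorem max_zero_div {x c : ℝ} (hc : 0 < c) : max 0 (x / c) = max 0 x / c := by
  rw [← max_div_div_right hc.le 0 x]
  simp

theorem dst_eq (N v a B : ℕ) (hB : 0 < B) :
    dst N (pad v) ((a : ℝ) / B) = (dN N v a B : ℝ) / (2 ^ (2 * N + 1) * B) := by
  have hB' : (0 : ℝ) < B := by exact_mod_cast hB
  have hP : (0 : ℝ) < 2 ^ (2 * N + 1) := by positivity
  unfold dst dN
  rw [lft_eq_An, LL_eq]
  push_cast [Nat.cast_max, cast_tsub]
  have e1 : (An N v : ℝ) / 2 ^ (2 * N + 1) - a / B =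
      ((An N v : ℝ) * B - a * 2 ^ (2 * N + 1)) / (2 ^ (2 * N + 1) * B) := by
    field_simp
  have e2 : (a : ℝ) / B - ((An N v : ℝ) / 2 ^ (2 * N + 1) + (2 ^ N + 1) / 2 ^ (2 * N + 1)) =
      (a * 2 ^ (2 * N + 1) - ((An N v : ℝ) + 2 ^ N + 1) * B) / (2 ^ (2 * N + 1) * B) := by
    field_simp
    ring
  rw [e1, e2]
  have hc : (0 : ℝ) < 2 ^ (2 * N + 1) * B := by positivity
  rw [max_div_div_right hc.le, max_zero_div hc]
  congr 1
  exact max_max_distrib_left' _ _ _

theorem tent_eq (N v a B : ℕ) (hB : 0 < B) :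
    tent N (pad v) ((a : ℝ) / B) = (tN N v a B : ℝ) / (2 * B) := by
  have hB' : (0 : ℝ) < B := by exact_mod_cast hB
  unfold tent tN
  rw [dst_eq N v a B hB, cast_tsub, ← max_zero_div (by positivity)]
  congr 1
  push_cast
  rw [show (4 : ℝ) ^ N = 2 ^ (2 * N) by rw [pow_mul]; norm_num, pow_succ]
  field_simp

/-- natural number version of `mx` -/
def mxN (l : List ℕ) (g : ℕ → ℕ) : ℕ := l.foldr (fun v acc => max (g v) acc) 0

theorem mx_eq (l : List ℕ) (g : ℕ → ℝ) (g' : ℕ → ℕ) (c : ℝ) (hc : 0 < c)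
    (h : ∀ v ∈ l, g v = (g' v : ℝ) / c) : mx l g = (mxN l g' : ℝ) / c := by
  induction l with
  | nil => simp [mx, mxN]
  | cons a l ih =>
    rw [mx_cons, ih (fun v hv => h v (by simp [hv])), h a (by simp)]
    unfold mxN
    rw [List.foldr_cons, max_div_div_right hc.le, Nat.cast_max]

/-- numerator of the bit function -/
def yN (n a B : ℕ) : ℕ :=
  mxN (List.range (2 ^ nb n)) (fun v => if US.F (pad v) n = true then tN (nb n) v a B else 0)

theorem YY_eq (n a B : ℕ) (hB : 0 < B) : US.YY n ((a : ℝ) / B) = (yN n a B : ℝ) / (2 * B) := by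
  have hB' : (0 : ℝ) < B := by exact_mod_cast hB
  unfold Sys.YY yN
  apply mx_eq _ _ _ _ (by positivity)
  intro v _
  split_ifs
  · exact tent_eq _ _ _ _ hB
  · simp

/-- numerators of the weights -/
def wN (M n : ℕ) : ℕ := 2 ^ (2 * M - n - 1) + 3 * 2 ^ (2 * M - 2 * n - 2)

theorem ww_eq_wN {M n : ℕ} (h : n < M) : ww n = (wN M n : ℝ) / 2 ^ (2 * M + 1) := by
  rw [ww_eq, eq_div_iff (by positivity)]
  unfold wN
  push_cast
  rw [add_mul]
  congr 1
  · rw [show 2 * M + 1 = (2 * M - n - 1) + (n + 2) by omega, pow_add, one_div_pow, pow_add]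
    field_simp
    norm_num
  · rw [show 2 * M + 1 = (2 * M - 2 * n - 2) + (2 * n + 3) by omega, pow_add, one_div_pow,
      pow_add, pow_mul]
    field_simp
    norm_num

/-- numerator of the approximation -/
def fN (M a B : ℕ) : ℕ := ((List.range M).map (fun n => wN M n * yN n a B)).sum

theorem psum_eq (M a B : ℕ) (hB : 0 < B) :
    ∑ n ∈ Finset.range M, ww n * US.YY n ((a : ℝ) / B) =
      (fN M a B : ℝ) / (2 ^ (2 * M + 2) * B) := by
  have hB' : (0 : ℝ) < B := by exact_mod_cast hB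
  unfold fN
  rw [eq_div_iff (by positivity), Finset.sum_mul, Nat.cast_list_sum, List.map_map]
  rw [Finset.sum_eq_multiset_sum, ← Multiset.sum_coe, ← Multiset.map_coe]
  have h0 : (Finset.range M).val = ((List.range M : List ℕ) : Multiset ℕ) := rfl
  rw [h0]
  congr 1
  apply Multiset.map_congr rfl
  intro n hn
  have hn' : n < M := by simpa using hn
  simp only [Function.comp]
  rw [ww_eq_wN hn', YY_eq n a B hB]
  push_cast
  rw [pow_succ (2 : ℝ) (2 * M + 1)]
  field_simp

theorem f_approx (M a B : ℕ) (hB : 0 < B) :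
    |US.f ((a : ℝ) / B) - (fN M a B : ℝ) / (2 ^ (2 * M + 2) * B)| ≤ 1 / 2 ^ M := by
  rw [← psum_eq M a B hB]
  refine (US.f_sub_psum _ M).trans ((LL_le M).trans (le_of_eq ?_))
  rw [one_div_pow]

theorem pr_tN : Primrec (fun q : (ℕ × ℕ) × (ℕ × ℕ) => tN q.1.1 q.1.2 q.2.1 q.2.2) := by
  have hN : Primrec (fun q : (ℕ × ℕ) × (ℕ × ℕ) => q.1.1) := Primrec.fst.comp Primrec.fst
  have hv : Primrec (fun q : (ℕ × ℕ) × (ℕ × ℕ) => q.1.2) := Primrec.snd.comp Primrec.fst
  have ha : Primrec (fun q : (ℕ × ℕ) × (ℕ × ℕ) => q.2.1) := Primrec.fst.comp Primrec.snd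
  have hB : Primrec (fun q : (ℕ × ℕ) × (ℕ × ℕ) => q.2.2) := Primrec.snd.comp Primrec.snd
  have hA := pr_An.comp hN hv
  have hP : Primrec (fun q : (ℕ × ℕ) × (ℕ × ℕ) => 2 ^ (2 * q.1.1 + 1)) :=
    pr_pow2.comp (Primrec.nat_add.comp (Primrec.nat_mul.comp (Primrec.const 2) hN)
      (Primrec.const 1))
  have haP := Primrec.nat_mul.comp ha hP
  refine Primrec.nat_sub.comp (Primrec.nat_mul.comp (Primrec.const 2) hB) ?_
  refine Primrec.nat_max.comp (Primrec.nat_sub.comp (Primrec.nat_mul.comp hA hB) haP) ?_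
  refine Primrec.nat_sub.comp haP (Primrec.nat_mul.comp ?_ hB)
  exact Primrec.nat_add.comp (Primrec.nat_add.comp hA (pr_pow2.comp hN)) (Primrec.const 1)

theorem pr_nb : Primrec nb := by
  have h : Primrec (fun n => n + 1) := Primrec.succ
  exact Primrec.nat_mul.comp (Primrec.const 2) (Primrec.nat_mul.comp h h)

theorem pr_yN : Primrec (fun q : ℕ × (ℕ × ℕ) => yN q.1 q.2.1 q.2.2) := by
  have h : Primrec (fun q : ℕ × (ℕ × ℕ) => (List.range (2 ^ nb q.1)).foldr (fun v acc =>
      max (if US.F (pad v) q.1 = true then tN (nb q.1) v q.2.1 q.2.2 else 0) acc) 0) := by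
    refine Primrec.list_foldr (f := fun q : ℕ × (ℕ × ℕ) => List.range (2 ^ nb q.1))
      (g := fun _ => 0) (h := fun (q : ℕ × (ℕ × ℕ)) (r : ℕ × ℕ) =>
        max (if US.F (pad r.1) q.1 = true then tN (nb q.1) r.1 q.2.1 q.2.2 else 0) r.2)
      ?_ (Primrec.const 0) ?_
    · exact Primrec.list_range.comp (pr_pow2.comp (pr_nb.comp Primrec.fst))
    · refine Primrec.nat_max.comp ?_ (Primrec.snd.comp Primrec.snd)
      refine Primrec.ite (pr_eqtrue ?_) ?_ (Primrec.const 0)
      · exact pr_F.comp (Primrec.fst.comp Primrec.snd) (Primrec.fst.comp Primrec.fst)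
      · exact pr_tN.comp (Primrec.pair (Primrec.pair (pr_nb.comp (Primrec.fst.comp Primrec.fst))
          (Primrec.fst.comp Primrec.snd)) (Primrec.snd.comp Primrec.fst))
  exact h

theorem pr_fN : Primrec (fun q : ℕ × (ℕ × ℕ) => fN q.1 q.2.1 q.2.2) := by
  refine pr_sum.comp (Primrec.list_map (Primrec.list_range.comp Primrec.fst) ?_)
  refine Primrec.nat_mul.comp ?_ (pr_yN.comp (Primrec.pair Primrec.snd
    (Primrec.snd.comp Primrec.fst)))
  have h2M : Primrec (fun q : (ℕ × (ℕ × ℕ)) × ℕ => 2 * q.1.1) :=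
    Primrec.nat_mul.comp (Primrec.const 2) (Primrec.fst.comp Primrec.fst)
  refine Primrec.nat_add.comp ?_ (Primrec.nat_mul.comp (Primrec.const 3) ?_)
  · exact pr_pow2.comp (Primrec.nat_sub.comp (Primrec.nat_sub.comp h2M Primrec.snd)
      (Primrec.const 1))
  · exact pr_pow2.comp (Primrec.nat_sub.comp (Primrec.nat_sub.comp h2M
      (Primrec.nat_mul.comp (Primrec.const 2) Primrec.snd)) (Primrec.const 2))

end Pool.Agent.H661.Luzin
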