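import Pool.Agent.H661.Luzin.Coin

/-!
# Sets of sequences depending on finitely many bits, and counting
-/

open MeasureTheory Set
open scoped ENNReal

namespace Pool.Agent.H661.Luzin

/-- the sequence of binary digits of `v` -/
def pad (v : ℕ) : Seq := fun t => v.testBit t

/-- the number coding the first `N` bits of `z` -/
def dig (N : ℕ) (z : Seq) : ℕ := Nat.ofBits (fun i : Fin N => z i)

theorem dig_lt (N : ℕ) (z : Seq) : dig N z < 2 ^ N := Nat.ofBits_lt_two_pow _

theorem pad_dig {N t : ℕ} (z : Seq) (h : t < N) : pad (dig N z) t = z t := by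
  unfold pad dig
  rw [Nat.testBit_ofBits_lt _ _ h]

theorem mt_dig (N : ℕ) (z : Seq) : mt N (dig N z) z := fun _ ht => (pad_dig z ht).symm

theorem mt_pad {N v : ℕ} {z : Seq} : mt N v z ↔ ∀ t < N, z t = pad v t := Iff.rfl

theorem eq_of_mt {N v w : ℕ} {z : Seq} (hv : v < 2 ^ N) (hw : w < 2 ^ N) (h1 : mt N v z)
    (h2 : mt N w z) : v = w := by
  apply Nat.eq_of_testBit_eq
  intro t
  rcases lt_or_ge t N with h | h
  · rw [← h1 t h, h2 t h]
  · rw [Nat.testBit_eq_false_of_lt (lt_of_lt_of_le hv (Nat.pow_le_pow_right (by norm_num) h)),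
      Nat.testBit_eq_false_of_lt (lt_of_lt_of_le hw (Nat.pow_le_pow_right (by norm_num) h))]

/-- `A` depends only on the first `N` bits -/
def Dep (N : ℕ) (A : Set Seq) : Prop := ∀ z w : Seq, (∀ t < N, z t = w t) → z ∈ A → w ∈ A

open Classical in
/-- the codes of the cylinders of length `N` in `A` -/
noncomputable def codes (N : ℕ) (A : Set Seq) : Finset ℕ :=
  (Finset.range (2 ^ N)).filter (fun v => pad v ∈ A)

theorem mem_codes {N : ℕ} {A : Set Seq} {v : ℕ} : v ∈ codes N A ↔ v < 2 ^ N ∧ pad v ∈ A := by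
  classical
  unfold codes
  rw [Finset.mem_filter, Finset.mem_range]

theorem Dep.eq_biUnion {N : ℕ} {A : Set Seq} (h : Dep N A) :
    A = ⋃ v ∈ codes N A, {z | mt N v z} := by
  ext z
  simp only [mem_iUnion, exists_prop, mem_codes]
  constructor
  · intro hz
    exact ⟨dig N z, ⟨dig_lt N z, h z _ (fun t ht => (pad_dig z ht).symm) hz⟩, mt_dig N z⟩
  · rintro ⟨v, ⟨_, h2⟩, h3⟩
    exact h (pad v) z (fun t ht => (h3 t ht).symm) h2

theorem coin_mt (N v : ℕ) : coin {z | mt N v z} = 2⁻¹ ^ N := by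
  have := coin_box (Finset.range N) (pad v)
  rw [Finset.card_range] at this
  rw [← this]
  congr 1
  ext z
  simp [mt, pad]

theorem coin_biUnion_mt {N : ℕ} {V : Finset ℕ} (hV : ∀ v ∈ V, v < 2 ^ N) :
    coin (⋃ v ∈ V, {z | mt N v z}) = V.card * 2⁻¹ ^ N := by
  rw [measure_biUnion_finset]
  · simp [coin_mt]
  · intro v hv w hw hvw
    apply Set.disjoint_left.mpr
    intro z hz hz'
    exact hvw (eq_of_mt (hV v hv) (hV w hw) hz hz')
  · intro v _
    exact measurableSet_mt N v

theorem Dep.coin_eq {N : ℕ} {A : Set Seq} (h : Dep N A) :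
    coin A = (codes N A).card * 2⁻¹ ^ N := by
  conv_lhs => rw [h.eq_biUnion]
  exact coin_biUnion_mt (fun v hv => (mem_codes.mp hv).1)

end Pool.Agent.H661.Luzin
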