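import Pool.Agent.H661.Luzin.Digits

/-!
# A fat Cantor set
-/

open MeasureTheory Set Filter
open scoped ENNReal Topology

namespace Pool.Agent.H661.Luzin

/-- lengths of the intervals of level `n` -/
noncomputable def LL (n : ℕ) : ℝ := ((1 / 2) ^ n + (1 / 4) ^ n) / 2

/-- the weights -/
noncomputable def ww (n : ℕ) : ℝ := LL n - LL (n + 1)

theorem ww_eq (n : ℕ) : ww n = (1 / 2) ^ n / 4 + 3 / 8 * (1 / 4) ^ n := by
  unfold ww LL
  rw [pow_succ, pow_succ]
  ring

theorem gap_eq (n : ℕ) : ww n - LL (n + 1) = (1 / 4) ^ (n + 1) := by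
  unfold ww LL
  rw [pow_succ, pow_succ]
  ring

theorem ww_pos (n : ℕ) : 0 < ww n := by rw [ww_eq]; positivity

theorem LL_pos (n : ℕ) : 0 < LL n := by unfold LL; positivity

theorem LL_anti : Antitone LL := antitone_nat_of_succ_le fun n => by
  have := ww_pos n; unfold ww at this; linarith

theorem quarter_le_half (n : ℕ) : ((1 : ℝ) / 4) ^ n ≤ (1 / 2) ^ n :=
  pow_le_pow_left₀ (by norm_num) (by norm_num) n

theorem LL_le (n : ℕ) : LL n ≤ (1 / 2) ^ n := by
  have := quarter_le_half n
  unfold LL; linarith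

theorem le_LL (n : ℕ) : (1 / 2) ^ n / 2 ≤ LL n := by
  have : (0 : ℝ) < (1 / 4) ^ n := by positivity
  unfold LL; linarith

theorem tendsto_LL : Tendsto LL atTop (𝓝 0) := by
  refine squeeze_zero (fun n => (LL_pos n).le) LL_le ?_
  exact tendsto_pow_atTop_nhds_zero_of_lt_one (by norm_num) (by norm_num)

/-- left end points -/
noncomputable def lft (N : ℕ) (z : Seq) : ℝ := ∑ n ∈ Finset.range N, if z n then ww n else 0

theorem lft_congr {N : ℕ} {z w : Seq} (h : ∀ t < N, z t = w t) : lft N z = lft N w := by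
  unfold lft
  apply Finset.sum_congr rfl
  intro n hn
  rw [h n (Finset.mem_range.mp hn)]

theorem lft_succ (N : ℕ) (z : Seq) : lft (N + 1) z = lft N z + if z N then ww N else 0 := by
  unfold lft
  rw [Finset.sum_range_succ]

theorem lft_mono (z : Seq) : Monotone (fun N => lft N z) := by
  refine monotone_nat_of_le_succ fun n => ?_
  rw [lft_succ]
  have := ww_pos n
  split_ifs <;> linarith

theorem rgt_anti (z : Seq) : Antitone (fun N => lft N z + LL N) := by
  refine antitone_nat_of_succ_le fun n => ?_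
  rw [lft_succ]
  have := ww_pos n
  unfold ww at this ⊢
  split_ifs <;> linarith

theorem lft_nonneg (N : ℕ) (z : Seq) : 0 ≤ lft N z := by
  have := lft_mono z (Nat.zero_le N)
  simpa [lft] using this

/-- the embedding -/
noncomputable def E (z : Seq) : ℝ := ⨆ N, lft N z

theorem bddAbove_lft (z : Seq) : BddAbove (range (fun N => lft N z)) := by
  refine ⟨LL 0, ?_⟩
  rintro _ ⟨N, rfl⟩
  have := rgt_anti z (Nat.zero_le N)
  simp only [lft, Finset.range_zero, Finset.sum_empty, zero_add] at this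
  have h2 := LL_pos N
  simp only [lft]
  linarith

theorem lft_le_E (N : ℕ) (z : Seq) : lft N z ≤ E z := le_ciSup (bddAbove_lft z) N

theorem E_le (N : ℕ) (z : Seq) : E z ≤ lft N z + LL N := by
  refine ciSup_le fun M => ?_
  rcases le_total M N with h | h
  · have := lft_mono z h
    have h2 := LL_pos N
    simp only at this
    linarith
  · have := rgt_anti z h
    have h2 := LL_pos M
    simp only at this
    linarith

/-- the interval of level `N` around `E z` -/
noncomputable def Iv (N : ℕ) (z : Seq) : Set ℝ := Icc (lft N z) (lft N z + LL N)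

theorem Iv_congr {N : ℕ} {z w : Seq} (h : ∀ t < N, z t = w t) : Iv N z = Iv N w := by
  unfold Iv; rw [lft_congr h]

theorem E_mem_Iv (N : ℕ) (z : Seq) : E z ∈ Iv N z := ⟨lft_le_E N z, E_le N z⟩

theorem Iv_anti (z : Seq) : Antitone (fun N => Iv N z) := fun _ _ h =>
  Icc_subset_Icc (lft_mono z h) (rgt_anti z h)

theorem Iv_subset_unit (N : ℕ) (z : Seq) : Iv N z ⊆ Icc 0 1 := by
  have := Iv_anti z (Nat.zero_le N)
  refine this.trans ?_
  unfold Iv lft LL
  simp

theorem E_mem_unit (z : Seq) : E z ∈ Icc (0 : ℝ) 1 := Iv_subset_unit 0 z (E_mem_Iv 0 z)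

theorem tendsto_lft (z : Seq) : Tendsto (fun N => lft N z) atTop (𝓝 (E z)) :=
  tendsto_atTop_ciSup (lft_mono z) (bddAbove_lft z)

theorem exists_Iv_subset {O : Set ℝ} (hO : IsOpen O) {z : Seq} (hz : E z ∈ O) :
    ∃ N, ∀ M ≥ N, Iv M z ⊆ O := by
  obtain ⟨ε, hε, hb⟩ := Metric.isOpen_iff.mp hO _ hz
  obtain ⟨N, hN⟩ := (tendsto_LL.eventually (gt_mem_nhds hε)).exists
  refine ⟨N, fun M hM => (Iv_anti z hM).trans ?_⟩
  intro t ht
  apply hb
  rw [Metric.mem_ball, Real.dist_eq, abs_lt]
  have h1 := E_mem_Iv N z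
  simp only [Iv, mem_Icc] at ht h1
  constructor <;> linarith [ht.1, ht.2, h1.1, h1.2]

/-- separation -/
theorem sep_aux {N n : ℕ} {z z' : Seq} (hn : n < N) (h : ∀ t < n, z t = z' t)
    (hz : z n = false) (hz' : z' n = true) :
    lft N z + LL N + (1 / 4) ^ N ≤ lft N z' := by
  have h1 : lft N z + LL N ≤ lft n z + LL (n + 1) := by
    have := rgt_anti z (show n + 1 ≤ N by omega)
    simp only at this
    rw [lft_succ n z, hz] at this
    simpa using this
  have h2 : lft n z' + ww n ≤ lft N z' := by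
    have := lft_mono z' (show n + 1 ≤ N by omega)
    simp only at this
    rw [lft_succ n z', hz'] at this
    simpa using this
  have h3 : lft n z = lft n z' := lft_congr h
  have h4 := gap_eq n
  have h5 : ((1 : ℝ) / 4) ^ N ≤ (1 / 4) ^ (n + 1) :=
    pow_le_pow_of_le_one (by norm_num) (by norm_num) (by omega)
  linarith

theorem sep {N : ℕ} {z z' : Seq} (h : ∃ t < N, z t ≠ z' t) :
    lft N z + LL N + (1 / 4) ^ N ≤ lft N z' ∨ lft N z' + LL N + (1 / 4) ^ N ≤ lft N z := by
  classical
  obtain ⟨h1, h2⟩ := Nat.find_spec h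
  have h3 : ∀ t < Nat.find h, z t = z' t := by
    intro t ht
    by_contra hc
    exact Nat.find_min h ht ⟨by omega, hc⟩
  cases hz : z (Nat.find h)
  · cases hz' : z' (Nat.find h)
    · exact absurd (hz.trans hz'.symm) h2
    · exact Or.inl (sep_aux h1 h3 hz hz')
  · cases hz' : z' (Nat.find h)
    · exact Or.inr (sep_aux h1 (fun t ht => (h3 t ht).symm) hz' hz)
    · exact absurd (hz.trans hz'.symm) h2

theorem E_injective : Function.Injective E := by
  intro z z' h
  by_contra hne
  obtain ⟨t, ht⟩ := Function.ne_iff.mp hne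
  have h1 := E_mem_Iv (t + 1) z
  have h2 := E_mem_Iv (t + 1) z'
  have hp : (0 : ℝ) < (1 / 4) ^ (t + 1) := by positivity
  simp only [Iv, mem_Icc] at h1 h2
  rcases sep (N := t + 1) ⟨t, by omega, ht⟩ with h3 | h3 <;> linarith [h1.1, h1.2, h2.1, h2.2]

theorem Iv_disjoint {N : ℕ} {z z' : Seq} (h : ∃ t < N, z t ≠ z' t) : Disjoint (Iv N z) (Iv N z') := by
  apply Set.disjoint_left.mpr
  intro x h1 h2
  have hp : (0 : ℝ) < (1 / 4) ^ N := by positivity
  simp only [Iv, mem_Icc] at h1 h2
  rcases sep h with h3 | h3 <;> linarith [h1.1, h1.2, h2.1, h2.2]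

theorem volume_Iv (N : ℕ) (z : Seq) : volume (Iv N z) = ENNReal.ofReal (LL N) := by
  unfold Iv
  rw [Real.volume_Icc]
  congr 1; ring

theorem volume_biUnion {N : ℕ} {V : Finset ℕ} (hV : ∀ v ∈ V, v < 2 ^ N) :
    volume (⋃ v ∈ V, Iv N (pad v)) = V.card * ENNReal.ofReal (LL N) := by
  rw [measure_biUnion_finset]
  · simp [volume_Iv]
  · intro v hv w hw hvw
    apply Iv_disjoint
    by_contra hc
    push Not at hc
    exact hvw (eq_of_mt (z := pad v) (hV v hv) (hV w hw) (fun _ _ => rfl) hc)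
  · intro v _
    exact measurableSet_Icc

theorem ofReal_half_pow (N : ℕ) : ENNReal.ofReal ((1 / 2) ^ N) = 2⁻¹ ^ N := by
  rw [ENNReal.ofReal_pow (by norm_num), one_div, ENNReal.ofReal_inv_of_pos (by norm_num)]
  norm_num

theorem coin_le_volume {O : Set ℝ} (hO : IsOpen O) : coin (E ⁻¹' O) ≤ 2 * volume O := by
  let A : ℕ → Set Seq := fun N => {z | Iv N z ⊆ O}
  have hmono : Monotone A := by
    intro N M h z hz
    exact (Iv_anti z h).trans hz
  have hU : E ⁻¹' O = ⋃ N, A N := by
    ext z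
    rw [mem_iUnion]
    constructor
    · intro hz
      obtain ⟨N, hN⟩ := exists_Iv_subset hO hz
      exact ⟨N, hN N le_rfl⟩
    · rintro ⟨N, hN⟩
      exact hN (E_mem_Iv N z)
  have hdep : ∀ N, Dep N (A N) := by
    intro N z w h hz
    simp only [A, mem_ofPred_eq] at hz ⊢
    rw [← Iv_congr h]; exact hz
  rw [hU, hmono.measure_iUnion]
  refine iSup_le fun N => ?_
  rw [(hdep N).coin_eq]
  have h1 : (⋃ v ∈ codes N (A N), Iv N (pad v)) ⊆ O := by
    refine iUnion₂_subset fun v hv => ?_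
    exact (mem_codes.mp hv).2
  have h2 := measure_mono (μ := volume) h1
  rw [volume_biUnion (fun v hv => (mem_codes.mp hv).1)] at h2
  have h3 : (2⁻¹ : ℝ≥0∞) ^ N ≤ 2 * ENNReal.ofReal (LL N) := by
    rw [← ofReal_half_pow]
    have : (2 : ℝ≥0∞) = ENNReal.ofReal 2 := by norm_num
    rw [this, ← ENNReal.ofReal_mul (by norm_num)]
    apply ENNReal.ofReal_le_ofReal
    have := le_LL N
    linarith
  calc ((codes N (A N)).card : ℝ≥0∞) * 2⁻¹ ^ N
      ≤ (codes N (A N)).card * (2 * ENNReal.ofReal (LL N)) := mul_le_mul_right h3 _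
    _ = 2 * ((codes N (A N)).card * ENNReal.ofReal (LL N)) := by ring
    _ ≤ 2 * volume O := mul_le_mul_right h2 _

/-- preimages of null sets are null -/
theorem coin_preimage_null {C : Set ℝ} (hC : volume C = 0) : coin (E ⁻¹' C) = 0 := by
  by_contra hne
  have hctop : coin (E ⁻¹' C) ≠ ∞ := measure_ne_top _ _
  obtain ⟨U, hCU, hUo, hU⟩ := C.exists_isOpen_lt_of_lt (μ := volume) (coin (E ⁻¹' C) / 2 / 2)
    (by rw [hC]; exact ENNReal.div_pos (ENNReal.div_pos hne (by norm_num)).ne' (by norm_num))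
  have h1 : coin (E ⁻¹' C) ≤ 2 * volume U :=
    (measure_mono (preimage_mono hCU)).trans (coin_le_volume hUo)
  have h2 : coin (E ⁻¹' C) ≤ coin (E ⁻¹' C) / 2 := by
    refine h1.trans ?_
    calc 2 * volume U ≤ 2 * (coin (E ⁻¹' C) / 2 / 2) := mul_le_mul_right hU.le _
      _ = coin (E ⁻¹' C) / 2 := ENNReal.mul_div_cancel (by norm_num) (by norm_num)
  exact absurd h2 (not_le.mpr (ENNReal.half_lt_self hne hctop))

/-- images of null sets are null -/
theorem volume_image_null {B : Set Seq} (hB : coin B = 0) : volume (E '' B) = 0 := by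
  have key : ∀ ε : ℝ≥0∞, ε ≠ 0 → volume (E '' B) ≤ ε := by
    intro ε hε
    obtain ⟨W, hBW, hWo, hW⟩ := B.exists_isOpen_lt_of_lt (μ := coin) ε
      (by rw [hB]; exact pos_iff_ne_zero.mpr hε)
    let A : ℕ → Set Seq := fun N => {z | ∀ v : Seq, (∀ t < N, v t = z t) → v ∈ W}
    have hmono : Monotone A := by
      intro N M h z hz v hv
      exact hz v (fun t ht => hv t (by omega))
    have hdep : ∀ N, Dep N (A N) := by
      intro N z w h hz v hv
      exact hz v (fun t ht => (hv t ht).trans (h t ht).symm)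
    have hsub : E '' B ⊆ ⋃ N, E '' A N := by
      rintro _ ⟨x, hx, rfl⟩
      obtain ⟨N, hN⟩ := exists_cyl_of_isOpen hWo (hBW hx)
      exact mem_iUnion.mpr ⟨N, x, hN, rfl⟩
    have hmono' : Monotone (fun N => E '' A N) := fun N M h => image_mono (hmono h)
    refine (measure_mono hsub).trans ?_
    rw [hmono'.measure_iUnion]
    refine iSup_le fun N => ?_
    have h1 : E '' A N ⊆ ⋃ v ∈ codes N (A N), Iv N (pad v) := by
      rintro _ ⟨x, hx, rfl⟩
      rw [(hdep N).eq_biUnion] at hx
      simp only [mem_iUnion, exists_prop, mem_ofPred_eq] at hx ⊢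
      obtain ⟨v, hv, hm⟩ := hx
      refine ⟨v, hv, ?_⟩
      rw [← Iv_congr (z := x) (w := pad v) hm]
      exact E_mem_Iv N x
    calc volume (E '' A N) ≤ volume (⋃ v ∈ codes N (A N), Iv N (pad v)) := measure_mono h1
      _ = (codes N (A N)).card * ENNReal.ofReal (LL N) :=
          volume_biUnion (fun v hv => (mem_codes.mp hv).1)
      _ ≤ (codes N (A N)).card * 2⁻¹ ^ N := by
          refine mul_le_mul_right ?_ _
          rw [← ofReal_half_pow]
          exact ENNReal.ofReal_le_ofReal (LL_le N)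
      _ = coin (A N) := ((hdep N).coin_eq).symm
      _ ≤ coin W := measure_mono (fun z hz => hz z (fun _ _ => rfl))
      _ ≤ ε := hW.le
  by_contra hne
  have h1 := key (min (volume (E '' B)) 1 / 2) (by
    apply (ENNReal.div_pos _ (by norm_num)).ne'
    simp [hne])
  have h2 : min (volume (E '' B)) 1 / 2 < min (volume (E '' B)) 1 :=
    ENNReal.half_lt_self (by simp [hne]) (by simp)
  exact absurd (h1.trans_lt (h2.trans_le (min_le_left _ _))) (lt_irrefl _)

end Pool.Agent.H661.Luzin
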