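import Pool.Agent.H661.Luzin.Coin

/-!
# Measure theory of the process
-/

open MeasureTheory Set Filter
open scoped ENNReal Topology

namespace Pool.Agent.H661.Luzin

namespace Sys

variable (Y : Sys)

theorem measurable_p (k : ℕ) : Measurable (Y.p k) := by
  apply measurable_of_dep k
  intro z w h
  exact (Y.p_congr (fun t ht => h t (lt_of_lt_of_le ht (Y.p_le k z)))).symm

theorem measurable_S (k : ℕ) : Measurable (Y.S k) := by
  apply measurable_pi_lambda
  intro j
  apply measurable_of_dep (j + 2 * k + 2)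
  intro z w h
  have hp : Y.p k w = Y.p k z := by
    apply Y.p_congr
    intro t ht
    have := Y.p_le k z
    exact h t (by omega)
  unfold S
  rw [hp]
  have := ee_le (Nat.sub_le k (Y.p k z)) j
  exact h _ (by omega)

theorem mp_S (k : ℕ) : MeasurePreserving (Y.S k) coin coin := by
  refine ⟨Y.measurable_S k, ?_⟩
  ext B hB
  rw [Measure.map_apply (Y.measurable_S k) hB]
  have key : ∀ C : Set Seq, MeasurableSet C →
      coin C = ∑ m ∈ Finset.range (k + 1), coin (C ∩ Y.p k ⁻¹' {m}) := by
    intro C hC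
    rw [← measure_biUnion_finset]
    · congr 1
      ext z
      simp only [mem_iUnion, mem_inter_iff, mem_preimage, mem_singleton_iff, Finset.mem_range,
        exists_prop]
      constructor
      · intro h
        exact ⟨Y.p k z, Nat.lt_succ_of_le (Y.p_le k z), h, rfl⟩
      · rintro ⟨_, _, h, _⟩
        exact h
    · intro m _ m' _ hmm
      apply Set.disjoint_left.mpr
      rintro z ⟨_, h1⟩ ⟨_, h2⟩
      exact hmm (h1.symm.trans h2)
    · intro m _
      exact hC.inter (Y.measurable_p k (measurableSet_singleton m))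
  rw [key _ (Y.measurable_S k hB), key B hB]
  apply Finset.sum_congr rfl
  intro m hm
  have hm' : m ≤ k := Nat.lt_succ_iff.mp (Finset.mem_range.mp hm)
  have h1 : Y.S k ⁻¹' B ∩ Y.p k ⁻¹' {m} =
      (fun (z : Seq) (j : ℕ) => z (eeEquiv (Nat.sub_le k m) j)) ⁻¹' (B ∩ Y.p k ⁻¹' {m}) := by
    ext z
    simp only [mem_inter_iff, mem_preimage, mem_singleton_iff]
    have e : ∀ w : Seq, (fun j => w (eeEquiv (Nat.sub_le k m) j)) = fun j => w (ee k (k - m) j) :=
      fun w => rfl
    rw [e]
    constructor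
    · rintro ⟨h1, h2⟩
      have h3 : Y.S k z = fun j => z (ee k (k - m) j) := by
        unfold S; rw [h2]
      rw [← h3]
      exact ⟨h1, by rw [Y.p_S, h2]⟩
    · rintro ⟨h1, h2⟩
      have h3 : Y.p k z = m := by
        rw [← h2]
        symm
        -- `p` of the permuted sequence
        have h4 : Y.p k z = Y.p k (fun j => z (ee k (k - m) j)) := by
          apply Y.p_congr
          intro t ht
          show z (ee k (k - m) t) = z t
          rw [ee_of_lt (by omega)]
        exact h4.symm
      have h4 : Y.S k z = fun j => z (ee k (k - m) j) := by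
        unfold S; rw [h3]
      rw [h4]
      exact ⟨h1, h3⟩
  rw [h1]
  exact (coin_perm _).measure_preimage
    (hB.inter (Y.measurable_p k (measurableSet_singleton m))).nullMeasurableSet

theorem mp_Th (k : ℕ) : MeasurePreserving (Y.Th k) coin coin := by
  induction k with
  | zero => exact MeasurePreserving.id _
  | succ k ih => exact (Y.mp_S k).comp ih

/-- The stages where the index gets large. -/
def NN : Set Seq := {x | Tendsto (fun k => Y.P k x) atTop atTop}

/-- (F1) the process maps null sets outside `NN` to null sets. -/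
theorem null_image {A : Set Seq} (hA : coin A = 0) (hN : ∀ x ∈ A, x ∉ Y.NN) :
    coin (Y.F '' A) = 0 := by
  have hcov : Y.F '' A ⊆ ⋃ m : ℕ, Y.F '' (A ∩ {x | ∃ᶠ k in atTop, Y.P k x ≤ m}) := by
    rintro _ ⟨x, hx, rfl⟩
    have h1 := hN x hx
    simp only [NN, mem_ofPred_eq, tendsto_atTop, not_forall] at h1
    obtain ⟨m, hm⟩ := h1
    rw [mem_iUnion]
    refine ⟨m, x, ⟨hx, ?_⟩, rfl⟩
    intro h2
    apply hm
    filter_upwards [h2] with k hk
    omega
  refine measure_mono_null hcov (measure_iUnion_null fun m => ?_)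
  -- fix `m`
  have key : ∀ ε : ℝ≥0∞, ε ≠ 0 → coin (Y.F '' (A ∩ {x | ∃ᶠ k in atTop, Y.P k x ≤ m})) ≤ 2 ^ m * ε := by
    intro ε hε
    obtain ⟨U, hAU, hUo, hU⟩ := A.exists_isOpen_lt_of_lt (μ := coin) ε
      (by rw [hA]; exact pos_iff_ne_zero.mpr hε)
    let Good : ℕ → Seq → Prop := fun k x => Y.P k x ≤ m ∧ ∀ v : Seq, (∀ t < 2 * k, v t = x t) → v ∈ U
    let B : ℕ → Set Seq := fun k => {x | Good k x ∧ ∀ j < k, ¬ Good j x}
    let C : ℕ → Set Seq := fun k => {z | Y.Ps (k + 1) z ∈ B k}
    have hinv : ∀ k (z w : Seq), z ∈ C k → Ag (k * k + (k - Y.p k z)) (Y.p k z) z w → w ∈ C k := by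
      intro k z w hz hzw
      have hp : Y.P k (Y.Ps (k + 1) z) = Y.p k z := by
        unfold P
        rw [← Y.p_S, ← Y.Th_succ, Y.Th_Ps]
      have h1 := Y.trackback (k := k) (x := Y.Ps (k + 1) z) (v := Y.Ps (k + 1) w)
        (by rw [hp, Y.Th_Ps, Y.Th_Ps]; exact hzw)
      obtain ⟨h2, h3⟩ := h1
      have h4 := h3.lt
      have hg : ∀ j ≤ k, Good j (Y.Ps (k + 1) z) ↔ Good j (Y.Ps (k + 1) w) := by
        intro j hj
        have e : ∀ v : Seq, (∀ t < 2 * j, v t = Y.Ps (k + 1) z t) ↔
            (∀ t < 2 * j, v t = Y.Ps (k + 1) w t) := by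
          intro v
          constructor
          · intro h t ht; rw [h t ht]; exact h4 t (by omega)
          · intro h t ht; rw [h t ht]; exact (h4 t (by omega)).symm
        simp only [Good, h2 j hj, e]
      exact ⟨(hg k le_rfl).mp hz.1, fun j hj => fun h => hz.2 j hj ((hg j hj.le).mpr h)⟩
    have hpm : ∀ k z, z ∈ C k → Y.p k z ≤ m := by
      intro k z hz
      have hp : Y.P k (Y.Ps (k + 1) z) = Y.p k z := by
        unfold P
        rw [← Y.p_S, ← Y.Th_succ, Y.Th_Ps]
      rw [← hp]
      exact hz.1.1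
    have hCmeas : ∀ k, MeasurableSet (C k) := by
      intro k
      apply measurableSet_of_dep (2 * (k * k + k))
      intro z w hzw hz
      refine hinv k z w hz ?_
      have := Y.p_le k z
      exact (Ag.of_lt hzw).mono (by omega) (by nlinarith)
    have hBC : ∀ k, B k = Y.Th (k + 1) ⁻¹' C k := by
      intro k
      ext x
      have : Y.Ps (k + 1) (Y.Th (k + 1) x) = x := Y.Th_injective (k + 1) (by rw [Y.Th_Ps])
      simp only [C, mem_preimage, mem_ofPred_eq, this]
    have hBmeas : ∀ k, MeasurableSet (B k) := by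
      intro k
      rw [hBC]
      exact (Y.mp_Th (k + 1)).measurable (hCmeas k)
    have hcoinBC : ∀ k, coin (C k) = coin (B k) := by
      intro k
      rw [hBC, (Y.mp_Th (k + 1)).measure_preimage (hCmeas k).nullMeasurableSet]
    have hcover : Y.F '' (A ∩ {x | ∃ᶠ k in atTop, Y.P k x ≤ m}) ⊆
        ⋃ k, {y | ∃ r, mrg y r ∈ C k} := by
      rintro _ ⟨x, ⟨hx, hfr⟩, rfl⟩
      obtain ⟨N, hN⟩ := exists_cyl_of_isOpen hUo (hAU hx)
      obtain ⟨k, hk1, hk2⟩ := (hfr.and_eventually (eventually_ge_atTop N)).exists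
      have hex : ∃ k, Good k x := ⟨k, hk1, fun v hv => hN v (fun t ht => hv t (by omega))⟩
      classical
      have hxB : x ∈ B (Nat.find hex) := ⟨Nat.find_spec hex, fun j hj => Nat.find_min hex hj⟩
      rw [mem_iUnion]
      refine ⟨Nat.find hex, fun n => Y.Th (Nat.find hex + 1) x (2 * n + 1), ?_⟩
      set k := Nat.find hex with hk
      rw [hBC] at hxB
      refine hinv k _ _ hxB ⟨fun n hn => ?_, fun n hn => ?_⟩
      · rw [mrg_even]
        apply Y.Th_even
        have := Y.p_le k (Y.Th (k + 1) x)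
        have e : (k + 1) * (k + 1) = k * k + 2 * k + 1 := by ring
        omega
      · rw [mrg_odd]
    have hproj : ∀ k, coin {y | ∃ r, mrg y r ∈ C k} ≤ 2 ^ m * coin (C k) := by
      intro k
      refine proj_bound (hCmeas k) m ?_
      intro y r r' hC hr
      refine hinv k _ _ hC ⟨fun n hn => ?_, fun n hn => ?_⟩
      · rw [mrg_even, mrg_even]
      · rw [mrg_odd, mrg_odd]
        have := hpm k _ hC
        exact (hr n (by omega)).symm
    have hdisj : Pairwise (Function.onFun Disjoint B) := by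
      intro i j hij
      apply Set.disjoint_left.mpr
      intro x hi hj
      rcases lt_or_gt_of_ne hij with h | h
      · exact hj.2 i h hi.1
      · exact hi.2 j h hj.1
    calc coin (Y.F '' (A ∩ {x | ∃ᶠ k in atTop, Y.P k x ≤ m}))
        ≤ coin (⋃ k, {y | ∃ r, mrg y r ∈ C k}) := measure_mono hcover
      _ ≤ ∑' k, coin {y | ∃ r, mrg y r ∈ C k} := measure_iUnion_le _
      _ ≤ ∑' k, 2 ^ m * coin (B k) := by
          refine ENNReal.tsum_le_tsum fun k => ?_
          rw [← hcoinBC]; exact hproj k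
      _ = 2 ^ m * ∑' k, coin (B k) := ENNReal.tsum_mul_left
      _ = 2 ^ m * coin (⋃ k, B k) := by rw [measure_iUnion hdisj hBmeas]
      _ ≤ 2 ^ m * coin U := by
          refine mul_le_mul_right (measure_mono ?_) _
          intro x hx
          obtain ⟨k, hk⟩ := mem_iUnion.mp hx
          exact hk.1.2 x (fun _ _ => rfl)
      _ ≤ 2 ^ m * ε := mul_le_mul_right hU.le _
  by_contra hne
  set c := coin (Y.F '' (A ∩ {x | ∃ᶠ k in atTop, Y.P k x ≤ m})) with hc
  have hcpos : 0 < c := pos_iff_ne_zero.mpr hne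
  have hctop : c ≠ ∞ := measure_ne_top _ _
  have h1 := key (c / 2 ^ m / 2) (by
    apply (ENNReal.div_pos (ENNReal.div_pos hne (by simp)).ne' (by norm_num)).ne')
  rw [← mul_div_assoc, ENNReal.mul_div_cancel (by positivity) (by simp)] at h1
  exact absurd h1 (not_le.mpr (ENNReal.half_lt_self hne hctop))

/-- the failing events -/
def fail (i : ℕ) : Prop := ∃ᶠ k in atTop, Y.ev i k = true

/-- the set of points in the cylinder of some failing event -/
def GG : Set Seq := {z | ∃ i, Y.fail i ∧ mt (Y.len i) (Y.val i) z}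

theorem measurableSet_GG : MeasurableSet Y.GG := by
  have : Y.GG = ⋃ i, {z | Y.fail i ∧ mt (Y.len i) (Y.val i) z} := by
    ext z; simp [GG]
  rw [this]
  refine MeasurableSet.iUnion fun i => ?_
  by_cases h : Y.fail i
  · simp only [h, true_and]; exact measurableSet_mt _ _
  · simp only [h, false_and, ofPred_false]; exact MeasurableSet.empty

/-- the preimages of a point with a fixed odd part -/
def KK (r : Seq) : Set Seq := {x | ∀ m, ∀ᶠ k in atTop, ∀ n < m, Y.Th k x (2 * n + 1) = r n}

theorem coin_KK (r : Seq) : coin (Y.KK r) = 0 := by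
  have key : ∀ m : ℕ, coin (Y.KK r) ≤ (2⁻¹ : ℝ≥0∞) ^ m := by
    intro m
    let D : ℕ → Set Seq := fun k0 => {x | ∀ k ≥ k0, ∀ n < m, Y.Th k x (2 * n + 1) = r n}
    have h1 : Y.KK r ⊆ ⋃ k0, D k0 := by
      intro x hx
      obtain ⟨k0, hk0⟩ := eventually_atTop.mp (hx m)
      exact mem_iUnion.mpr ⟨k0, hk0⟩
    have hmono : Monotone D := by
      intro a b hab x hx k hk
      exact hx k (le_trans hab hk)
    have h2 : ∀ k0, coin (D k0) ≤ (2⁻¹ : ℝ≥0∞) ^ m := by
      intro k0
      have h3 : D k0 ⊆ Y.Th k0 ⁻¹' {z | ∀ t ∈ (Finset.range m).image (fun n => 2 * n + 1),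
          z t = (fun t => r (t / 2)) t} := by
        intro x hx
        simp only [mem_preimage, mem_ofPred_eq, Finset.mem_image, Finset.mem_range]
        rintro t ⟨n, hn, rfl⟩
        rw [hx k0 le_rfl n hn]
        congr 1; omega
      refine (measure_mono h3).trans ?_
      rw [(Y.mp_Th k0).measure_preimage, coin_box, Finset.card_image_of_injective,
        Finset.card_range]
      · intro a b hab
        simp only at hab; omega
      · refine MeasurableSet.nullMeasurableSet ?_
        have : {z : Seq | ∀ t ∈ (Finset.range m).image (fun n => 2 * n + 1),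
          z t = (fun t => r (t / 2)) t} = Set.pi (((Finset.range m).image (fun n => 2 * n + 1) :
            Finset ℕ) : Set ℕ) (fun t => {(fun t => r (t / 2)) t}) := by
          ext z; simp
        rw [this]
        exact MeasurableSet.pi (Finset.countable_toSet _) (fun i _ => MeasurableSet.singleton _)
    calc coin (Y.KK r) ≤ coin (⋃ k0, D k0) := measure_mono h1
      _ = ⨆ k0, coin (D k0) := hmono.measure_iUnion
      _ ≤ (2⁻¹ : ℝ≥0∞) ^ m := iSup_le h2
  have h2 : Tendsto (fun m : ℕ => (2⁻¹ : ℝ≥0∞) ^ m) atTop (𝓝 0) :=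
    ENNReal.tendsto_pow_atTop_nhds_zero_of_lt_one (by norm_num)
  exact le_antisymm (ge_of_tendsto' h2 key) (zero_le)

/-- every point outside of the failing cylinders is hit. -/
theorem mem_image_KK {y r : Seq} (h : mrg y r ∉ Y.GG) : y ∈ Y.F '' Y.KK r := by
  set z := mrg y r with hz
  obtain ⟨x, φ, hφ, hx⟩ := CompactSpace.tendsto_subseq (fun k => Y.Ps k z)
  -- convergence in finitely many bits
  have hconv : ∀ N, ∀ᶠ l in atTop, ∀ t < N, Y.Ps (φ l) z t = x t := by
    intro N
    have h1 : ∀ t < N, ∀ᶠ l in atTop, Y.Ps (φ l) z t = x t := by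
      intro t _
      have := (tendsto_pi_nhds.mp hx) t
      rw [nhds_discrete, tendsto_pure] at this
      exact this
    exact (Set.finite_lt_nat N).eventually_all.mpr h1
  -- stability
  have hstab : ∀ m, ∃ k0, ∀ k ≥ k0, Ag (k * k) m (Y.Th k x) z := by
    intro m
    have h1 : ∀ i < m, ∀ᶠ j in atTop, Y.hit i j z = false := by
      intro i _
      by_cases hm : mt (Y.len i) (Y.val i) z
      · have h2 : ¬ Y.fail i := fun h3 => h ⟨i, h3, hm⟩
        unfold fail at h2
        rw [not_frequently] at h2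
        filter_upwards [h2] with j hj
        unfold hit
        simp only [Bool.not_eq_true] at hj
        rw [hj, Bool.false_and]
      · refine Eventually.of_forall fun j => ?_
        unfold hit
        simp only [hm, decide_false, Bool.and_false]
    obtain ⟨k1, hk1⟩ := eventually_atTop.mp ((Set.finite_lt_nat m).eventually_all.mpr h1)
    refine ⟨max k1 m, fun k hk => ?_⟩
    have hk1' : k1 ≤ k := le_trans (le_max_left _ _) hk
    have hkm : m ≤ k := le_trans (le_max_right _ _) hk
    obtain ⟨l, hl1, hl2⟩ := ((hconv (2 * (k * k + m))).and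
      ((hφ.tendsto_atTop).eventually (eventually_ge_atTop k))).exists
    have h3 := Y.hold_back (q := m) (k := k) (x := Y.Ps (φ l) z) hkm (φ l) hl2
      (fun i hi j hj _ => by rw [Y.Th_Ps]; exact hk1 j (le_trans hk1' hj) i hi)
    have h4 := Y.hold (q := m) (k := k) (x := Y.Ps (φ l) z) (φ l) hl2 h3
    rw [Y.Th_Ps] at h4
    have h5 := (Y.forward k (k * k + m) m (Y.Ps (φ l) z) x (by omega) (Ag.of_lt hl1)).2
    exact ((h5.mono (by omega) (by omega)).symm).trans h4
  refine ⟨x, ?_, ?_⟩
  · intro m
    obtain ⟨k0, hk0⟩ := hstab m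
    filter_upwards [eventually_ge_atTop k0] with k hk n hn
    rw [(hk0 k hk).2 n hn, hz, mrg_odd]
  · funext n
    obtain ⟨k0, hk0⟩ := hstab 0
    set k := max k0 (n + 1)
    have h1 : n < k * k := by
      have : n + 1 ≤ k := le_max_right _ _
      nlinarith
    rw [← Y.Th_even x h1, (hk0 k (le_max_left _ _)).1 n h1, hz, mrg_even]

/-- (A2) failure of (N) on the level of sequences -/
theorem exists_null_image_pos (h : coin Y.GG < 1) :
    ∃ B : Set Seq, coin B = 0 ∧ coin (Y.F '' B) ≠ 0 := by
  by_contra hcon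
  push Not at hcon
  have h1 : ∀ r : Seq, coin {y | mrg y r ∉ Y.GG} = 0 := by
    intro r
    refine measure_mono_null ?_ (hcon (Y.KK r) (Y.coin_KK r))
    intro y hy
    exact Y.mem_image_KK hy
  have h2 : coin Y.GGᶜ = 0 := by
    have hm : MeasurableSet ((fun q : Seq × Seq => mrg q.1 q.2) ⁻¹' Y.GGᶜ) :=
      measurable_mrg Y.measurableSet_GG.compl
    rw [← coin_mrg.measure_preimage Y.measurableSet_GG.compl.nullMeasurableSet,
      Measure.prod_apply_symm hm]
    simp only [preimage_preimage]
    have : ∀ r : Seq, coin ((fun y => mrg y r) ⁻¹' Y.GGᶜ) = 0 := fun r => h1 r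
    simp only [this, lintegral_zero]
  have h3 : coin Y.GG + coin Y.GGᶜ = 1 := by
    rw [measure_add_measure_compl Y.measurableSet_GG, measure_univ]
  rw [h2, add_zero] at h3
  exact absurd h3 h.ne

end Sys

end Pool.Agent.H661.Luzin
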