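import Pool.Agent.H661.Luzin.Embed
import Pool.Agent.H661.Luzin.ProcMeas

/-!
# The function
-/

open MeasureTheory Set Filter
open scoped ENNReal Topology

namespace Pool.Agent.H661.Luzin

/-- maximum of finitely many reals and `0` -/
noncomputable def mx (l : List ℕ) (g : ℕ → ℝ) : ℝ := l.foldr (fun v acc => max (g v) acc) 0

theorem mx_cons (a : ℕ) (l : List ℕ) (g : ℕ → ℝ) : mx (a :: l) g = max (g a) (mx l g) := rfl

theorem mx_nonneg (l : List ℕ) (g : ℕ → ℝ) : 0 ≤ mx l g := by
  induction l with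
  | nil => exact le_rfl
  | cons a l ih => rw [mx_cons]; exact ih.trans (le_max_right _ _)

theorem le_mx {l : List ℕ} {g : ℕ → ℝ} {v : ℕ} (hv : v ∈ l) : g v ≤ mx l g := by
  induction l with
  | nil => simp at hv
  | cons a l ih =>
    rw [mx_cons]
    rcases List.mem_cons.mp hv with rfl | h
    · exact le_max_left _ _
    · exact (ih h).trans (le_max_right _ _)

theorem mx_le {l : List ℕ} {g : ℕ → ℝ} {c : ℝ} (hc : 0 ≤ c) (h : ∀ v ∈ l, g v ≤ c) :
    mx l g ≤ c := by
  induction l with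
  | nil => exact hc
  | cons a l ih =>
    rw [mx_cons]
    exact max_le (h a (by simp)) (ih (fun v hv => h v (by simp [hv])))

theorem mx_sub_le {l : List ℕ} {g g' : ℕ → ℝ} {c : ℝ} (hc : 0 ≤ c)
    (h : ∀ v ∈ l, |g v - g' v| ≤ c) : |mx l g - mx l g'| ≤ c := by
  induction l with
  | nil => simpa [mx] using hc
  | cons a l ih =>
    rw [mx_cons, mx_cons]
    refine (abs_max_sub_max_le_max _ _ _ _).trans (max_le (h a (by simp)) ?_)
    exact ih (fun v hv => h v (by simp [hv]))

/-- distance to an interval of level `N` -/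
noncomputable def dst (N : ℕ) (z : Seq) (t : ℝ) : ℝ :=
  max 0 (max (lft N z - t) (t - (lft N z + LL N)))

theorem dst_nonneg (N : ℕ) (z : Seq) (t : ℝ) : 0 ≤ dst N z t := le_max_left _ _

theorem dst_sub_le (N : ℕ) (z : Seq) (t t' : ℝ) : |dst N z t - dst N z t'| ≤ |t - t'| := by
  unfold dst
  refine (abs_max_sub_max_le_max _ _ _ _).trans (max_le (by simp) ?_)
  refine (abs_max_sub_max_le_max _ _ _ _).trans (max_le ?_ ?_)
  · rw [show lft N z - t - (lft N z - t') = -(t - t') by ring, abs_neg]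
  · rw [show t - (lft N z + LL N) - (t' - (lft N z + LL N)) = t - t' by ring]

/-- tent function -/
noncomputable def tent (N : ℕ) (z : Seq) (t : ℝ) : ℝ := max 0 (1 - 4 ^ N * dst N z t)

theorem tent_nonneg (N : ℕ) (z : Seq) (t : ℝ) : 0 ≤ tent N z t := le_max_left _ _

theorem tent_le_one (N : ℕ) (z : Seq) (t : ℝ) : tent N z t ≤ 1 := by
  unfold tent
  refine max_le zero_le_one ?_
  have := mul_nonneg (show (0 : ℝ) ≤ 4 ^ N by positivity) (dst_nonneg N z t)
  linarith

theorem tent_sub_le (N : ℕ) (z : Seq) (t t' : ℝ) : |tent N z t - tent N z t'| ≤ 4 ^ N * |t - t'| := by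
  unfold tent
  refine (abs_max_sub_max_le_max _ _ _ _).trans (max_le (by simp) ?_)
  rw [show 1 - 4 ^ N * dst N z t - (1 - 4 ^ N * dst N z t') = -(4 ^ N * (dst N z t - dst N z t')) by
    ring, abs_neg, abs_mul, abs_of_nonneg (show (0 : ℝ) ≤ 4 ^ N by positivity)]
  exact mul_le_mul_of_nonneg_left (dst_sub_le _ _ _ _) (by positivity)

theorem tent_congr {N : ℕ} {z w : Seq} (h : ∀ t < N, z t = w t) (t : ℝ) :
    tent N z t = tent N w t := by
  unfold tent dst
  rw [lft_congr h]

theorem tent_eq_one {N : ℕ} {z : Seq} {t : ℝ} (h : t ∈ Iv N z) : tent N z t = 1 := by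
  have : dst N z t = 0 := by
    unfold dst
    simp only [Iv, mem_Icc] at h
    apply max_eq_left
    apply max_le <;> linarith [h.1, h.2]
  unfold tent
  rw [this]; simp

theorem tent_eq_zero {N : ℕ} {z z' : Seq} {t : ℝ} (ht : t ∈ Iv N z)
    (h : ∃ j < N, z j ≠ z' j) : tent N z' t = 0 := by
  have h4 : (0 : ℝ) < 4 ^ N := by positivity
  have h1 : (1 / 4 : ℝ) ^ N ≤ dst N z' t := by
    unfold dst
    simp only [Iv, mem_Icc] at ht
    rcases sep h with h3 | h3
    · refine le_trans ?_ (le_max_right _ _)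
      refine le_trans ?_ (le_max_left _ _)
      linarith [ht.1, ht.2]
    · refine le_trans ?_ (le_max_right _ _)
      refine le_trans ?_ (le_max_right _ _)
      linarith [ht.1, ht.2]
  unfold tent
  apply max_eq_left
  have h2 := mul_le_mul_of_nonneg_left h1 h4.le
  rw [← mul_pow] at h2
  norm_num at h2
  linarith

/-- number of bits used for the `n`-th bit of the value -/
def nb (n : ℕ) : ℕ := 2 * ((n + 1) * (n + 1))

namespace Sys

variable (Y : Sys)

/-- the `n`-th bit function -/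
noncomputable def YY (n : ℕ) (t : ℝ) : ℝ :=
  mx (List.range (2 ^ nb n)) (fun v => if Y.F (pad v) n = true then tent (nb n) (pad v) t else 0)

theorem YY_nonneg (n : ℕ) (t : ℝ) : 0 ≤ Y.YY n t := mx_nonneg _ _

theorem YY_le_one (n : ℕ) (t : ℝ) : Y.YY n t ≤ 1 := by
  refine mx_le zero_le_one fun v _ => ?_
  split_ifs
  · exact tent_le_one _ _ _
  · exact zero_le_one

theorem YY_sub_le (n : ℕ) (t t' : ℝ) : |Y.YY n t - Y.YY n t'| ≤ 4 ^ nb n * |t - t'| := by
  refine mx_sub_le (by positivity) fun v _ => ?_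
  split_ifs
  · exact tent_sub_le _ _ _ _
  · simp

theorem YY_E (n : ℕ) (x : Seq) : Y.YY n (E x) = if Y.F x n = true then 1 else 0 := by
  have hx := E_mem_Iv (nb n) x
  have hd : ∀ t < nb n, pad (dig (nb n) x) t = x t := fun t ht => pad_dig x ht
  have hF : Y.F (pad (dig (nb n) x)) n = Y.F x n := Y.F_congr hd
  split_ifs with h
  · apply le_antisymm (Y.YY_le_one n _)
    have := le_mx (l := List.range (2 ^ nb n))
      (g := fun v => if Y.F (pad v) n = true then tent (nb n) (pad v) (E x) else 0)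
      (List.mem_range.mpr (dig_lt (nb n) x))
    simp only [hF, h, if_true] at this
    rwa [tent_congr hd, tent_eq_one hx] at this
  · apply le_antisymm _ (Y.YY_nonneg n _)
    refine mx_le le_rfl fun v hv => ?_
    split_ifs with hv'
    · rw [tent_eq_zero hx]
      by_contra hc
      push Not at hc
      apply h
      rw [← hv']
      exact Y.F_congr (fun t ht => hc t ht)
    · exact le_rfl

/-- the function -/
noncomputable def f (t : ℝ) : ℝ := ∑' n, ww n * Y.YY n t

theorem sum_ww (N : ℕ) : ∑ n ∈ Finset.range N, ww n = LL 0 - LL N := by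
  unfold ww
  rw [Finset.sum_range_sub']

theorem hasSum_ww : HasSum ww (LL 0) := by
  rw [hasSum_iff_tendsto_nat_of_nonneg (fun n => (ww_pos n).le)]
  simp only [sum_ww]
  simpa using (tendsto_const_nhds (x := LL 0)).sub tendsto_LL

theorem term_nonneg (n : ℕ) (t : ℝ) : 0 ≤ ww n * Y.YY n t :=
  mul_nonneg (ww_pos n).le (Y.YY_nonneg n t)

theorem term_le (n : ℕ) (t : ℝ) : ww n * Y.YY n t ≤ ww n := by
  have := mul_le_mul_of_nonneg_left (Y.YY_le_one n t) (ww_pos n).le
  simpa using this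

theorem summable_term (t : ℝ) : Summable (fun n => ww n * Y.YY n t) :=
  Summable.of_nonneg_of_le (fun n => Y.term_nonneg n t) (fun n => Y.term_le n t)
    hasSum_ww.summable

theorem hasSum_ww_add (M : ℕ) : HasSum (fun i => ww (i + M)) (LL M) := by
  have := (hasSum_nat_add_iff' M).mpr hasSum_ww
  rw [sum_ww, sub_sub_cancel] at this
  exact this

theorem tail_le (t : ℝ) (M : ℕ) : ∑' i, ww (i + M) * Y.YY (i + M) t ≤ LL M := by
  rw [← (hasSum_ww_add M).tsum_eq]
  refine Summable.tsum_le_tsum (fun i => Y.term_le _ _) ?_ (hasSum_ww_add M).summable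
  exact (summable_nat_add_iff (f := fun n => ww n * Y.YY n t) M).mpr (Y.summable_term t)

theorem f_eq_add (t : ℝ) (M : ℕ) :
    Y.f t = ∑ n ∈ Finset.range M, ww n * Y.YY n t + ∑' i, ww (i + M) * Y.YY (i + M) t :=
  ((Y.summable_term t).sum_add_tsum_nat_add M).symm

theorem f_sub_psum (t : ℝ) (M : ℕ) :
    |Y.f t - ∑ n ∈ Finset.range M, ww n * Y.YY n t| ≤ LL M := by
  have h2 : 0 ≤ ∑' i, ww (i + M) * Y.YY (i + M) t := tsum_nonneg fun i => Y.term_nonneg _ _
  have h3 := Y.tail_le t M
  rw [Y.f_eq_add t M, add_sub_cancel_left, abs_of_nonneg h2]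
  exact h3

theorem f_E (x : Seq) : Y.f (E x) = E (Y.F x) := by
  unfold f
  simp only [YY_E]
  have h1 : HasSum (fun n => ww n * if Y.F x n = true then (1 : ℝ) else 0) (E (Y.F x)) := by
    rw [hasSum_iff_tendsto_nat_of_nonneg]
    · have := tendsto_lft (Y.F x)
      unfold lft at this
      simpa only [mul_ite, mul_one, mul_zero] using this
    · intro n
      have := ww_pos n
      split_ifs <;> simp [this.le]
  exact h1.tsum_eq

theorem psum_sub_le (M : ℕ) (t t' : ℝ) :
    |(∑ n ∈ Finset.range M, ww n * Y.YY n t) - ∑ n ∈ Finset.range M, ww n * Y.YY n t'| ≤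
      4 ^ nb M * |t - t'| := by
  rw [← Finset.sum_sub_distrib]
  refine (Finset.abs_sum_le_sum_abs _ _).trans ?_
  have h1 : ∀ n ∈ Finset.range M, |ww n * Y.YY n t - ww n * Y.YY n t'| ≤
      ww n * (4 ^ nb M * |t - t'|) := by
    intro n hn
    rw [← mul_sub, abs_mul, abs_of_nonneg (ww_pos n).le]
    refine mul_le_mul_of_nonneg_left ((Y.YY_sub_le n t t').trans ?_) (ww_pos n).le
    refine mul_le_mul_of_nonneg_right ?_ (abs_nonneg _)
    refine pow_le_pow_right₀ (by norm_num) ?_
    have := Finset.mem_range.mp hn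
    unfold nb
    have : (n + 1) * (n + 1) ≤ (M + 1) * (M + 1) := Nat.mul_le_mul (by omega) (by omega)
    omega
  refine (Finset.sum_le_sum h1).trans ?_
  rw [← Finset.sum_mul, sum_ww]
  have h2 : LL 0 - LL M ≤ 1 := by
    have := LL_pos M
    have h0 : LL 0 = 1 := by unfold LL; norm_num
    linarith
  have h3 : (0 : ℝ) ≤ 4 ^ nb M * |t - t'| := by positivity
  nlinarith

/-- modulus of continuity -/
theorem f_modulus (n : ℕ) (t t' : ℝ) (h : |t - t'| ≤ 1 / 2 ^ (2 * nb (n + 3) + n + 3)) :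
    |Y.f t - Y.f t'| ≤ 1 / 2 ^ n := by
  have h1 := Y.f_sub_psum t (n + 3)
  have h2 := Y.f_sub_psum t' (n + 3)
  have h3 := Y.psum_sub_le (n + 3) t t'
  have h4 : (4 : ℝ) ^ nb (n + 3) * |t - t'| ≤ 1 / 2 ^ (n + 3) := by
    have h5 : (4 : ℝ) ^ nb (n + 3) * |t - t'| ≤
        4 ^ nb (n + 3) * (1 / 2 ^ (2 * nb (n + 3) + n + 3)) :=
      mul_le_mul_of_nonneg_left h (by positivity)
    refine h5.trans (le_of_eq ?_)
    rw [show (4 : ℝ) = 2 ^ 2 by norm_num, ← pow_mul, add_assoc, pow_add]
    field_simp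
  have h5 := LL_le (n + 3)
  have h6 : ((1 : ℝ) / 2) ^ (n + 3) = 1 / 2 ^ (n + 3) := by rw [one_div_pow]
  have h7 : (1 : ℝ) / 2 ^ (n + 3) = 1 / 2 ^ n / 8 := by rw [pow_add]; field_simp; norm_num
  have h8 : (0 : ℝ) < 1 / 2 ^ n := by positivity
  rw [abs_le] at *
  constructor <;> linarith [h1.1, h1.2, h2.1, h2.2, h3.1, h3.2]

/-- off the Cantor set only finitely many terms are non zero -/
theorem eventually_YY_zero {t : ℝ} (ht : t ∉ range E) : ∃ n, ∀ m ≥ n, Y.YY m t = 0 := by
  by_contra hcon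
  push Not at hcon
  -- the codes
  have h1 : ∀ n, ∃ m ≥ n, ∃ v, dst (nb m) (pad v) t < (1 / 4) ^ nb m := by
    intro n
    obtain ⟨m, hm, hne⟩ := hcon n
    refine ⟨m, hm, ?_⟩
    by_contra hc
    push Not at hc
    apply hne
    apply le_antisymm _ (Y.YY_nonneg m t)
    refine mx_le le_rfl fun v _ => ?_
    split_ifs
    · unfold tent
      apply max_le le_rfl
      have h4 : (0 : ℝ) < 4 ^ nb m := by positivity
      have h2 := mul_le_mul_of_nonneg_left (hc v) h4.le
      rw [← mul_pow] at h2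
      norm_num at h2
      linarith
    · exact le_rfl
  choose m hm v hv using h1
  obtain ⟨x, φ, hφ, hx⟩ := CompactSpace.tendsto_subseq (fun n => pad (v n))
  have hconv : ∀ N, ∀ᶠ l in atTop, ∀ i < N, pad (v (φ l)) i = x i := by
    intro N
    have h1 : ∀ i < N, ∀ᶠ l in atTop, pad (v (φ l)) i = x i := by
      intro i _
      have := (tendsto_pi_nhds.mp hx) i
      rw [nhds_discrete, tendsto_pure] at this
      exact this
    exact (Set.finite_lt_nat N).eventually_all.mpr h1
  apply ht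
  refine ⟨x, ?_⟩
  -- `t` is in all intervals
  have hnb : ∀ n, n ≤ nb n := by
    intro n; unfold nb; nlinarith
  have hmem : ∀ M, t ∈ Iv M x := by
    intro M
    have h2 : ∀ᶠ l in atTop, lft M x ≤ t + (1 / 4) ^ l ∧ t ≤ lft M x + LL M + (1 / 4) ^ l := by
      filter_upwards [hconv M, eventually_ge_atTop M] with l hl hlM
      have h3 := hv (φ l)
      have h4 : l ≤ nb (m (φ l)) := by
        have := hφ.id_le l
        have h5 := hm (φ l)
        have h6 := hnb (m (φ l))
        simp only [id] at this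
        omega
      have h5 : ((1 : ℝ) / 4) ^ nb (m (φ l)) ≤ (1 / 4) ^ l :=
        pow_le_pow_of_le_one (by norm_num) (by norm_num) h4
      have h6 : M ≤ nb (m (φ l)) := hlM.trans h4
      have h7 := Iv_anti (pad (v (φ l))) h6
      have h8 : lft M (pad (v (φ l))) = lft M x := lft_congr hl
      have h9 := lft_mono (pad (v (φ l))) h6
      have h10 := rgt_anti (pad (v (φ l))) h6
      simp only [h8] at h9 h10
      unfold dst at h3
      have h11 := (le_max_right (0:ℝ) _).trans_lt h3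
      have h12 := (le_max_left _ _).trans_lt h11
      have h13 := (le_max_right _ _).trans_lt h11
      constructor <;> linarith
    have h3 : Tendsto (fun l : ℕ => ((1 : ℝ) / 4) ^ l) atTop (𝓝 0) :=
      tendsto_pow_atTop_nhds_zero_of_lt_one (by norm_num) (by norm_num)
    constructor
    · have h4 : Tendsto (fun l : ℕ => t + ((1 : ℝ) / 4) ^ l) atTop (𝓝 (t + 0)) := h3.const_add t
      rw [add_zero] at h4
      exact ge_of_tendsto h4 (h2.mono fun l hl => hl.1)
    · have h4 : Tendsto (fun l : ℕ => lft M x + LL M + ((1 : ℝ) / 4) ^ l) atTop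
        (𝓝 (lft M x + LL M + 0)) := h3.const_add _
      rw [add_zero] at h4
      exact ge_of_tendsto h4 (h2.mono fun l hl => hl.2)
  have h2 : ∀ M, |E x - t| ≤ LL M := by
    intro M
    have h3 := hmem M
    have h4 := E_mem_Iv M x
    simp only [Iv, mem_Icc] at h3 h4
    rw [abs_le]
    constructor <;> linarith [h3.1, h3.2, h4.1, h4.2]
  have h3 : |E x - t| ≤ 0 := ge_of_tendsto' tendsto_LL h2
  have := abs_nonpos_iff.mp h3
  linarith

theorem null_off {A : Set ℝ} (hA : volume A = 0) (hK : ∀ t ∈ A, t ∉ range E) :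
    volume (Y.f '' A) = 0 := by
  let D : ℕ → Set ℝ := fun n => {t | t ∈ A ∧ ∀ m ≥ n, Y.YY m t = 0}
  have h1 : Y.f '' A ⊆ ⋃ n, Y.f '' D n := by
    rintro _ ⟨t, ht, rfl⟩
    obtain ⟨n, hn⟩ := Y.eventually_YY_zero (hK t ht)
    exact mem_iUnion.mpr ⟨n, t, ⟨ht, hn⟩, rfl⟩
  refine measure_mono_null h1 (measure_iUnion_null fun n => ?_)
  have h2 : Y.f '' D n = (fun t => ∑ i ∈ Finset.range n, ww i * Y.YY i t) '' D n := by
    apply image_congr
    intro t ht
    unfold f
    apply tsum_eq_sum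
    intro i hi
    rw [Finset.mem_range, not_lt] at hi
    rw [ht.2 i hi, mul_zero]
  rw [h2]
  have hlip : LipschitzWith (4 ^ nb n) (fun t => ∑ i ∈ Finset.range n, ww i * Y.YY i t) := by
    apply LipschitzWith.of_dist_le_mul
    intro t t'
    rw [Real.dist_eq, Real.dist_eq]
    have := Y.psum_sub_le n t t'
    simpa using this
  have h3 := (hlip.lipschitzOnWith (s := D n)).hausdorffMeasure_image_le (d := 1) zero_le_one
  rw [hausdorffMeasure_real] at h3
  have h4 : volume (D n) = 0 := measure_mono_null (fun t ht => ht.1) hA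
  rw [h4, mul_zero] at h3
  exact le_antisymm h3 (zero_le)

theorem null_image_f {C : Set ℝ} (hC : volume C = 0) (hN : ∀ x, E x ∈ C → x ∉ Y.NN) :
    volume (Y.f '' C) = 0 := by
  have h1 : Y.f '' C ⊆ Y.f '' (C \ range E) ∪ E '' (Y.F '' (E ⁻¹' C)) := by
    rintro _ ⟨t, ht, rfl⟩
    by_cases h : t ∈ range E
    · obtain ⟨x, rfl⟩ := h
      right
      exact ⟨Y.F x, ⟨x, ht, rfl⟩, (Y.f_E x).symm⟩
    · left
      exact ⟨t, ⟨ht, h⟩, rfl⟩
  refine measure_mono_null h1 (measure_union_null ?_ ?_)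
  · exact Y.null_off (measure_mono_null sdiff_subset hC) (fun t ht => ht.2)
  · exact volume_image_null (Y.null_image (coin_preimage_null hC) (fun x hx => hN x hx))

theorem not_luzin (h : coin Y.GG < 1) :
    ∃ A : Set ℝ, A ⊆ Icc 0 1 ∧ volume A = 0 ∧ volume (Y.f '' A) ≠ 0 := by
  obtain ⟨B, hB, hFB⟩ := Y.exists_null_image_pos h
  refine ⟨E '' B, ?_, volume_image_null hB, ?_⟩
  · rintro _ ⟨x, _, rfl⟩
    exact E_mem_unit x
  · intro h0
    apply hFB
    have h1 : Y.f '' (E '' B) = E '' (Y.F '' B) := by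
      rw [image_image, image_image]
      apply image_congr
      intro x _
      exact Y.f_E x
    rw [h1] at h0
    refine measure_mono_null ?_ (coin_preimage_null h0)
    exact subset_preimage_image _ _

end Sys

end Pool.Agent.H661.Luzin
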