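import Pool.Agent.H661.Luzin.UnivEv
import Pool.Agent.H661.Luzin.Fun

/-!
# Null classes and items
-/

open MeasureTheory Set Filter
open scoped ENNReal Topology

namespace Pool.Agent.H661.Luzin

/-- open ball with dyadic centre and radius -/
def Bl (i : ℕ) : Set ℝ := {x | |x - (i.unpair.1 : ℝ) / 2 ^ i.unpair.2| < 1 / 2 ^ i.unpair.2}

theorem isOpen_Bl (i : ℕ) : IsOpen (Bl i) := by
  unfold Bl
  exact isOpen_lt (by fun_prop) continuous_const

/-- the class determined by `S` -/
def cls (S : ℕ → ℕ → ℕ → ℕ → Bool) : Set ℝ :=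
  {x | x ∈ Icc (0 : ℝ) 1 ∧ ∀ n, ∃ i, (∃ b, ∀ c, S n i b c = true) ∧ x ∈ Bl i}

/-- numerator of the left end point over `2 ^ (2 * N + 1)` -/
def An (N v : ℕ) : ℕ :=
  ((List.range N).map (fun t =>
    if v.testBit t then 2 ^ (2 * N - t - 1) + 3 * 2 ^ (2 * N - 2 * t - 2) else 0)).sum

theorem lft_eq_An (N v : ℕ) : lft N (pad v) = (An N v : ℝ) / 2 ^ (2 * N + 1) := by
  unfold lft An
  rw [eq_div_iff (by positivity), Finset.sum_mul, Nat.cast_list_sum, List.map_map]
  rw [Finset.sum_eq_multiset_sum, ← Multiset.sum_coe, ← Multiset.map_coe]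
  have h0 : (Finset.range N).val = ((List.range N : List ℕ) : Multiset ℕ) := rfl
  rw [h0]
  congr 1
  apply Multiset.map_congr rfl
  intro t ht
  have ht' : t < N := by simpa using ht
  simp only [Function.comp]
  by_cases hb : v.testBit t = true
  · have hb' : pad v t = true := hb
    rw [if_pos hb', if_pos hb, ww_eq]
    push_cast
    rw [add_mul]
    congr 1
    · rw [show 2 * N + 1 = (2 * N - t - 1) + (t + 2) by omega, pow_add, one_div_pow, pow_add]
      field_simp
      norm_num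
    · rw [show 2 * N + 1 = (2 * N - 2 * t - 2) + (2 * t + 3) by omega, pow_add, one_div_pow,
        pow_add, pow_mul]
      field_simp
      norm_num
  · have hb' : ¬ pad v t = true := hb
    rw [if_neg hb', if_neg hb]
    simp

theorem LL_eq (N : ℕ) : LL N = ((2 ^ N + 1 : ℕ) : ℝ) / 2 ^ (2 * N + 1) := by
  unfold LL
  push_cast
  rw [eq_div_iff (by positivity), one_div_pow, one_div_pow, show (4 : ℝ) = 2 ^ 2 by norm_num,
    ← pow_mul, pow_succ, two_mul N, pow_add]
  field_simp

/-- the interval of level `N` with digits `v` is inside the ball `i` -/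
def inB (N v i : ℕ) : Bool :=
  decide (i.unpair.1 * 2 ^ (2 * N + 1) < An N v * 2 ^ i.unpair.2 + 2 ^ (2 * N + 1)) &&
  decide ((An N v + 2 ^ N + 1) * 2 ^ i.unpair.2 < (i.unpair.1 + 1) * 2 ^ (2 * N + 1))

theorem inB_iff (N v i : ℕ) : inB N v i = true ↔ Iv N (pad v) ⊆ Bl i := by
  unfold inB
  rw [Bool.and_eq_true, decide_eq_true_eq, decide_eq_true_eq]
  have hN : (0 : ℝ) < 2 ^ (2 * N + 1) := by positivity
  have hi : (0 : ℝ) < 2 ^ i.unpair.2 := by positivity
  have h1 : (i.unpair.1 * 2 ^ (2 * N + 1) < An N v * 2 ^ i.unpair.2 + 2 ^ (2 * N + 1)) ↔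
      ((i.unpair.1 : ℝ) - 1) / 2 ^ i.unpair.2 < lft N (pad v) := by
    rw [lft_eq_An, div_lt_div_iff₀ hi hN, ← @Nat.cast_lt ℝ]
    push_cast
    constructor <;> intro h <;> linarith
  have h2 : ((An N v + 2 ^ N + 1) * 2 ^ i.unpair.2 < (i.unpair.1 + 1) * 2 ^ (2 * N + 1)) ↔
      lft N (pad v) + LL N < ((i.unpair.1 : ℝ) + 1) / 2 ^ i.unpair.2 := by
    rw [lft_eq_An, LL_eq, ← add_div, div_lt_div_iff₀ hN hi, ← @Nat.cast_lt ℝ]
    push_cast
    constructor <;> intro h <;> linarith
  rw [h1, h2]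
  have h3 : ∀ x : ℝ, x ∈ Bl i ↔ ((i.unpair.1 : ℝ) - 1) / 2 ^ i.unpair.2 < x ∧
      x < ((i.unpair.1 : ℝ) + 1) / 2 ^ i.unpair.2 := by
    intro x
    unfold Bl
    rw [mem_ofPred_eq, abs_lt, sub_div, add_div]
    constructor
    · rintro ⟨h1, h2⟩; constructor <;> linarith
    · rintro ⟨h1, h2⟩; constructor <;> linarith
  constructor
  · rintro ⟨h4, h5⟩ x hx
    rw [h3]
    simp only [Iv, mem_Icc] at hx
    constructor <;> linarith [hx.1, hx.2]
  · intro h
    have hl := LL_pos N
    have h4 := (h3 _).mp (h (show lft N (pad v) ∈ Iv N (pad v) from ⟨le_rfl, by linarith⟩))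
    have h5 := (h3 _).mp (h (show lft N (pad v) + LL N ∈ Iv N (pad v) from ⟨by linarith, le_rfl⟩))
    exact ⟨h4.1, h5.2⟩

/-- components of an item -/
def ik (j : ℕ) : ℕ := j.unpair.2.unpair.2.unpair.1
/-- components of an item -/
def iv (j : ℕ) : ℕ := j.unpair.2.unpair.2.unpair.2.unpair.1
/-- components of an item -/
def iL (j : ℕ) : ℕ := j.unpair.2.unpair.2.unpair.2.unpair.2

/-- entries of the list coded by an item -/
def ient (L l : ℕ) : ℕ := (Denumerable.ofNat (List ℕ) L).getD l 0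

/-- pack an item -/
def pack (m len val k v L : ℕ) : ℕ :=
  Nat.pair m (Nat.pair (Nat.pair len val) (Nat.pair k (Nat.pair v L)))

theorem lev_pack (m len val k v L : ℕ) : lev (pack m len val k v L) = m := by
  unfold lev pack; rw [Nat.unpair_pair]
theorem ilen_pack (m len val k v L : ℕ) : ilen (pack m len val k v L) = len := by
  unfold ilen pack; rw [Nat.unpair_pair, Nat.unpair_pair, Nat.unpair_pair]
theorem ival_pack (m len val k v L : ℕ) : ival (pack m len val k v L) = val := by
  unfold ival pack; rw [Nat.unpair_pair, Nat.unpair_pair, Nat.unpair_pair]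
theorem ik_pack (m len val k v L : ℕ) : ik (pack m len val k v L) = k := by
  unfold ik pack; rw [Nat.unpair_pair, Nat.unpair_pair, Nat.unpair_pair]
theorem iv_pack (m len val k v L : ℕ) : iv (pack m len val k v L) = v := by
  unfold iv pack; rw [Nat.unpair_pair, Nat.unpair_pair, Nat.unpair_pair, Nat.unpair_pair]
theorem iL_pack (m len val k v L : ℕ) : iL (pack m len val k v L) = L := by
  unfold iL pack; rw [Nat.unpair_pair, Nat.unpair_pair, Nat.unpair_pair, Nat.unpair_pair]

theorem ik_le (j : ℕ) : ik j ≤ j :=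
  (Nat.unpair_left_le _).trans ((Nat.unpair_right_le _).trans (Nat.unpair_right_le _))

/-- the decidable part of the conditions on an item -/
def DD (j : ℕ) : Prop :=
  2 * ((ik j + 1) * (ik j + 1)) ≤ ilen j ∧
  mt (ilen j) (ival j) (US.Th (ik j + 1) (pad (iv j))) ∧
  ∀ l < lev j + 1, inB (2 * ik j) (iv j) (ient (iL j) l).unpair.1 = true

/-- the decidable matrix of the second part of the conditions on an item -/
def RR (j c : ℕ) : Prop :=
  ik j < c → ∀ i < US.P (ik j) (pad (iv j)) + 1, uev i c = true →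
    ¬ mt (ulen i) (uval i) (pad (ival j))

/-- items which are never removed, for the class `S` -/
def Alv (S : ℕ → ℕ → ℕ → ℕ → Bool) (j : ℕ) : Prop :=
  DD j ∧ (∀ l < lev j + 1, ∀ c, S l (ient (iL j) l).unpair.1 (ient (iL j) l).unpair.2 c = true) ∧
    ∀ c, RR j c

variable {S : ℕ → ℕ → ℕ → ℕ → Bool}

theorem Alv.trace {j k' : ℕ} {x : Seq} (h : Alv S j) (hk : ik j < k')
    (hm : mt (ilen j) (ival j) (US.Th k' x)) : ∀ t < 2 * ik j, x t = pad (iv j) t := by
  obtain ⟨⟨h1, h2, _⟩, _, h4⟩ := h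
  set k := ik j with hkdef
  set v := pad (iv j) with hv
  have hp := US.P_le k v
  set p := US.P k v with hpdef
  have hkk : k + 1 ≤ (k + 1) * (k + 1) := Nat.le_mul_self _
  have h5 : ∀ j', k + 1 ≤ j' → j' < k' → p + 1 ≤ US.P j' x := by
    apply US.hold_back (q := p + 1) (k := k + 1) (x := x) (by omega) k' hk
    intro i hi c hc _
    by_contra hne
    rw [Bool.not_eq_false] at hne
    unfold Sys.hit at hne
    rw [Bool.and_eq_true, decide_eq_true_eq, US_ev, US_len, US_val] at hne
    refine h4 c (by omega) i hi hne.1 ?_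
    intro t ht
    have hti := ulen_le i
    rw [← hne.2 t ht]
    exact (hm t (by omega)).symm
  have h6 := US.hold (q := p + 1) (k := k + 1) (x := x) k' hk h5
  have h7 : Ag ((k + 1) * (k + 1)) ((k + 1) * (k + 1)) (US.Th k' x) (US.Th (k + 1) v) := by
    apply Ag.of_lt
    intro t ht
    rw [hm t (by omega), h2 t (by omega)]
  have h8 : Ag (k * k + (k - p)) p (US.Th (k + 1) v) (US.Th (k + 1) x) := by
    have hsq : (k + 1) * (k + 1) = k * k + 2 * k + 1 := by ring
    refine ((h6.mono ?_ (by omega)).trans (h7.mono ?_ ?_)).symm <;> omega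
  have h9 := (US.trackback h8).2.lt
  exact fun t ht => (h9 t ht).symm

theorem exists_future_min {g : ℕ → ℕ} (hg : Tendsto g atTop atTop) (N : ℕ) :
    ∃ k ≥ N, ∀ j > k, g k < g j := by
  classical
  -- minimal value
  have h1 : ∃ c, ∃ j ≥ N, g j = c := ⟨g N, N, le_rfl, rfl⟩
  set c := Nat.find h1 with hc
  obtain ⟨j0, hj0, hgj0⟩ := Nat.find_spec h1
  have hmin : ∀ j ≥ N, c ≤ g j := fun j hj => Nat.find_min' h1 ⟨j, hj, rfl⟩
  obtain ⟨b, hb⟩ := eventually_atTop.mp (hg.eventually (eventually_gt_atTop c))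
  have h2 : ∃ k, k ≤ b ∧ N ≤ k ∧ g k = c := by
    refine ⟨j0, ?_, hj0, hgj0⟩
    by_contra hlt
    push Not at hlt
    have := hb j0 hlt.le
    omega
  set P : ℕ → Prop := fun k => N ≤ k ∧ g k = c with hP
  have h3 : P (Nat.findGreatest P b) := by
    obtain ⟨k, hk1, hk2⟩ := h2
    exact Nat.findGreatest_spec (P := P) hk1 hk2
  refine ⟨Nat.findGreatest P b, h3.1, fun j hj => ?_⟩
  rw [h3.2]
  have hNj : N ≤ j := h3.1.trans hj.le
  refine lt_of_le_of_ne (hmin j hNj) ?_
  intro heq
  rcases le_or_gt j b with hjb | hjb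
  · have := Nat.le_findGreatest (P := P) hjb ⟨hNj, heq.symm⟩
    omega
  · have := hb j hjb.le
    omega

theorem exists_item {x : Seq} (hx : x ∈ US.NN) (hcls : E x ∈ cls S) (m : ℕ) :
    ∃ j, m ≤ lev j ∧ Alv S j ∧ ∀ᶠ k in atTop, mt (ilen j) (ival j) (US.Th k x) := by
  have hx' : Tendsto (fun k => US.P k x) atTop atTop := hx
  -- choice of balls
  choose iB hiB1 hiB2 using hcls.2
  choose b hb using hiB1
  have h1 : ∀ l, ∃ N, ∀ M ≥ N, Iv M x ⊆ Bl (iB l) := fun l => exists_Iv_subset (isOpen_Bl _) (hiB2 l)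
  choose NB hNB using h1
  obtain ⟨k, hk, hmin⟩ := exists_future_min hx' ((Finset.range (m + 1)).sup NB)
  set p := US.P k x with hp
  have hpk : p ≤ k := US.P_le k x
  set M := 2 * ((k + 1) * (k + 1)) with hM
  have hkk : k + 1 ≤ (k + 1) * (k + 1) := Nat.le_mul_self _
  obtain ⟨c1, hc1⟩ := eventually_atTop.mp (hx'.eventually (eventually_ge_atTop M))
  set c0 := max c1 M with hc0
  have hc0M : M ≤ c0 := le_max_right _ _
  have hc0c : c1 ≤ c0 := le_max_left _ _
  set z := US.Th c0 x with hz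
  -- stability after `c0`
  have hstab : ∀ k' ≥ c0, ∀ t < M, US.Th k' x t = z t := by
    intro k' hk' t ht
    have h2 := US.hold (q := M) (k := c0) (x := x) k' hk'
      (fun j hj _ => hc1 j (le_trans hc0c hj))
    have : c0 ≤ c0 * c0 := Nat.le_mul_self _
    exact (h2.lt' (c := M) (by omega) (by omega) t ht).symm
  -- agreement after stage `k`
  have hafter : ∀ k' ≥ k + 1, Ag ((k + 1) * (k + 1)) (p + 1) (US.Th (k + 1) x) (US.Th k' x) := by
    intro k' hk'
    exact US.hold (q := p + 1) (k := k + 1) (x := x) k' hk' (fun j hj _ => hmin j (by omega))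
  set u := US.Ps (k + 1) z with hu
  have hThu : US.Th (k + 1) u = z := US.Th_Ps _ _
  have hsq : (k + 1) * (k + 1) = k * k + 2 * k + 1 := by ring
  have htb := US.trackback (k := k) (x := x) (v := u) (by
    rw [hThu]
    refine (hafter c0 (by omega)).mono ?_ ?_
    · omega
    · omega)
  set a := (k + 1) * (k + 1) + M with ha
  set v := dig (2 * a) u with hv
  have hvu : Ag a a u (pad v) := Ag.of_lt (fun t ht => (pad_dig u ht).symm)
  have hfw := US.forward (k + 1) a M u (pad v) (by omega) hvu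
  rw [hThu] at hfw
  have hzv : ∀ t < M, z t = US.Th (k + 1) (pad v) t := hfw.2.lt' (by omega) (by omega)
  have hxv : ∀ t < 2 * k, x t = pad v t := by
    intro t ht
    rw [htb.2.lt t ht]
    exact hvu.lt t (by omega)
  have hPv : US.P k (pad v) = p := by
    rw [hfw.1 k (by omega), htb.1 k le_rfl]
  set L := Encodable.encode ((List.range (m + 1)).map (fun l => Nat.pair (iB l) (b l))) with hL
  have hent : ∀ l < m + 1, ient L l = Nat.pair (iB l) (b l) := by
    intro l hl
    unfold ient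
    rw [hL, Denumerable.ofNat_encode]
    simp [List.getD_eq_getElem?_getD, hl]
  refine ⟨pack m M (dig M z) k v L, ?_, ⟨⟨?_, ?_, ?_⟩, ?_, ?_⟩, ?_⟩
  · rw [lev_pack]
  · rw [ik_pack, ilen_pack]
  · rw [ilen_pack, ival_pack, ik_pack, iv_pack]
    intro t ht
    rw [← hzv t ht]
    exact mt_dig M z t ht
  · rw [lev_pack, ik_pack, iv_pack, iL_pack]
    intro l hl
    rw [hent l hl, Nat.unpair_pair, inB_iff, ← Iv_congr hxv]
    apply hNB
    have := Finset.le_sup (f := NB) (Finset.mem_range.mpr hl)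
    omega
  · rw [lev_pack, iL_pack]
    intro l hl c
    rw [hent l hl, Nat.unpair_pair]
    exact hb l c
  · intro c
    unfold RR
    rw [ik_pack, iv_pack, ival_pack, hPv]
    intro hkc i hi hev hmt
    have h2 : US.p c (US.Th c x) ≤ i := by
      apply US.p_le_of_hit
      unfold Sys.hit
      rw [Bool.and_eq_true, decide_eq_true_eq, US_ev, US_len, US_val]
      refine ⟨hev, ?_⟩
      intro t ht
      rw [← hmt t ht]
      have hti := ulen_le i
      rw [pad_dig z (by omega)]
      have h3 := ((hafter c (by omega)).symm.trans (hafter c0 (by omega))).lt' (c := p)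
        (by omega) (by omega)
      exact h3 t (by omega)
    have h3 := hmin c hkc
    unfold Sys.P at h3 h2 hp
    omega
  · rw [ilen_pack, ival_pack]
    filter_upwards [eventually_ge_atTop c0] with k' hk' t ht
    rw [hstab k' hk' t ht]
    exact mt_dig M z t ht

/-- finite stages of a class -/
def clsn (S : ℕ → ℕ → ℕ → ℕ → Bool) (n : ℕ) : Set ℝ :=
  {x | x ∈ Icc (0 : ℝ) 1 ∧ ∀ l ≤ n, ∃ i, (∃ b, ∀ c, S l i b c = true) ∧ x ∈ Bl i}

theorem measurableSet_clsn (n : ℕ) : MeasurableSet (clsn S n) := by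
  have : clsn S n = Icc 0 1 ∩ ⋂ l, ⋂ (_ : l ≤ n), ⋃ i, ⋃ (_ : ∃ b, ∀ c, S l i b c = true), Bl i := by
    ext x
    simp only [clsn, mem_inter_iff, mem_ofPred_eq, mem_iInter, mem_iUnion, exists_prop]
  rw [this]
  refine measurableSet_Icc.inter (MeasurableSet.iInter fun l => MeasurableSet.iInter fun _ =>
    MeasurableSet.iUnion fun i => MeasurableSet.iUnion fun _ => (isOpen_Bl i).measurableSet)

theorem clsn_anti : Antitone (clsn S) := fun _ _ h _ hx => ⟨hx.1, fun l hl => hx.2 l (hl.trans h)⟩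

theorem iInter_clsn : ⋂ n, clsn S n = cls S := by
  ext x
  simp only [mem_iInter, clsn, cls, mem_ofPred_eq]
  constructor
  · intro h
    exact ⟨(h 0).1, fun n => (h n).2 n le_rfl⟩
  · rintro ⟨h1, h2⟩ n
    exact ⟨h1, fun l _ => h2 l⟩

theorem continuous_E : Continuous E := by
  rw [continuous_iff_continuousAt]
  intro z
  rw [ContinuousAt, Metric.tendsto_nhds]
  intro ε hε
  obtain ⟨N, hN⟩ := (tendsto_LL.eventually (gt_mem_nhds hε)).exists
  have h1 : {w : Seq | ∀ t ∈ Finset.range N, w t = z t} ∈ 𝓝 z := by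
    have h2 : {w : Seq | ∀ t ∈ Finset.range N, w t = z t} =
        Set.pi (Finset.range N : Set ℕ) (fun t => {z t}) := by
      ext w; simp
    rw [h2]
    exact set_pi_mem_nhds (Finset.finite_toSet _) (fun i _ => (isOpen_discrete _).mem_nhds rfl)
  filter_upwards [h1] with w hw
  have h2 := E_mem_Iv N w
  have h3 := E_mem_Iv N z
  rw [Iv_congr (z := w) (w := z) (fun t ht => hw t (Finset.mem_range.mpr ht))] at h2
  rw [Real.dist_eq, abs_lt]
  simp only [Iv, mem_Icc] at h2 h3
  constructor <;> linarith [h2.1, h2.2, h3.1, h3.2]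

/-- The key property of the universal system. -/
theorem not_mem_NN (hnull : volume (cls S) = 0) {e : ℕ} (he : ∀ j, Alive e j ↔ Alv S j)
    {x : Seq} (hcls : E x ∈ cls S) : x ∉ US.NN := by
  intro hx
  -- small measure
  have h1 : Tendsto (fun n => coin (E ⁻¹' clsn S n)) atTop (𝓝 (coin (⋂ n, E ⁻¹' clsn S n))) := by
    apply tendsto_measure_iInter_atTop
    · exact fun n => (continuous_E.measurable (measurableSet_clsn n)).nullMeasurableSet
    · exact fun a b h => preimage_mono (clsn_anti h)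
    · exact ⟨0, measure_ne_top _ _⟩
  rw [← preimage_iInter, iInter_clsn, coin_preimage_null hnull] at h1
  have h2 : (0 : ℝ≥0∞) < 2⁻¹ ^ (e + 2) := by
    apply ENNReal.pow_pos; simp
  obtain ⟨n, hn⟩ := (h1.eventually (gt_mem_nhds h2)).exists
  have h3 : coin (Wt e n) ≤ 2⁻¹ ^ (e + 2) := by
    rw [coin_Wt_le_iff]
    intro J
    have hmeas : MeasurableSet (Wf e n J) := by
      apply measurableSet_of_dep J
      rintro z w hzw ⟨j, h4, h5, h6, h7⟩
      refine ⟨j, h4, h5, h6, (mt_congr (fun t ht => hzw t ?_)).mp h7⟩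
      have := ilen_le j
      omega
    rw [← (US.mp_Th (J + 1)).measure_preimage hmeas.nullMeasurableSet]
    refine (measure_mono ?_).trans hn.le
    rintro w ⟨j, h4, h5, h6, h7⟩
    rw [he] at h6
    have h8 := h6.trace (k' := J + 1) (x := w) (by have := ik_le j; omega) h7
    have h9 := E_mem_Iv (2 * ik j) w
    rw [Iv_congr h8] at h9
    refine ⟨E_mem_unit w, fun l hl => ?_⟩
    obtain ⟨⟨_, _, h10⟩, h11, _⟩ := h6
    refine ⟨(ient (iL j) l).unpair.1, ⟨(ient (iL j) l).unpair.2, h11 l (by omega)⟩, ?_⟩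
    have := h10 l (by omega)
    rw [inB_iff] at this
    exact this h9
  obtain ⟨j, h4, h5, h6⟩ := exists_item hx hcls n
  have h7 : US.fail (Nat.pair e (Nat.pair n j)) := by
    rw [fail_iff]
    exact ⟨h4, (he j).mpr h5, h3⟩
  have hx' : Tendsto (fun k => US.P k x) atTop atTop := hx
  set i := Nat.pair e (Nat.pair n j) with hi
  obtain ⟨k, h8, h9, h10⟩ := (h7.and_eventually (h6.and
    (hx'.eventually (eventually_gt_atTop i)))).exists
  have h11 : US.p k (US.Th k x) ≤ i := by
    apply US.p_le_of_hit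
    unfold Sys.hit
    rw [Bool.and_eq_true, decide_eq_true_eq]
    refine ⟨h8, ?_⟩
    rw [US_len, US_val, hi, ulen_pair, uval_pair]
    exact h9
  unfold Sys.P at h10
  omega

end Pool.Agent.H661.Luzin
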