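import Mathlib

/-!
# Post's theorem: domains of functions recursive in the halting problem are `Σ⁰₂`
-/

open Nat.Partrec (Code)
open Nat.Partrec.Code

namespace Pool.Agent.H661.Luzin

open Classical in
/-- The characteristic function of the halting problem. -/
noncomputable def haltChar : ℕ →. ℕ := fun n =>
  Part.some (if ((Denumerable.ofNat Code n.unpair.1).eval n.unpair.2).Dom then 1 else 0)

/-- `Σ⁰₂` predicates -/
def Sig2 (A : ℕ → Prop) : Prop :=
  ∃ R : ℕ → ℕ → ℕ → Bool, Computable (fun q : (ℕ × ℕ) × ℕ => R q.1.1 q.1.2 q.2) ∧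
    ∀ x, A x ↔ ∃ b, ∀ c, R x b c = true

theorem cx : Computable (fun q : (ℕ × ℕ) × ℕ => q.1.1) := Computable.fst.comp Computable.fst
theorem cb1 : Computable (fun q : (ℕ × ℕ) × ℕ => q.1.2.unpair.1) :=
  Computable.fst.comp (Computable.unpair.comp (Computable.snd.comp Computable.fst))
theorem cb2 : Computable (fun q : (ℕ × ℕ) × ℕ => q.1.2.unpair.2) :=
  Computable.snd.comp (Computable.unpair.comp (Computable.snd.comp Computable.fst))
theorem cc1 : Computable (fun q : (ℕ × ℕ) × ℕ => q.2.unpair.1) :=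
  Computable.fst.comp (Computable.unpair.comp Computable.snd)
theorem cc2 : Computable (fun q : (ℕ × ℕ) × ℕ => q.2.unpair.2) :=
  Computable.snd.comp (Computable.unpair.comp Computable.snd)

namespace Sig2

theorem of_iff {A B : ℕ → Prop} (h : Sig2 A) (hAB : ∀ x, B x ↔ A x) : Sig2 B := by
  obtain ⟨R, hR, h⟩ := h
  exact ⟨R, hR, fun x => (hAB x).trans (h x)⟩

theorem comp {A : ℕ → Prop} (h : Sig2 A) {f : ℕ → ℕ} (hf : Computable f) :
    Sig2 (fun x => A (f x)) := by
  obtain ⟨R, hR, h⟩ := h
  refine ⟨fun x b c => R (f x) b c, ?_, fun x => h (f x)⟩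
  exact hR.comp (Computable.pair (Computable.pair (hf.comp (Computable.fst.comp Computable.fst))
    (Computable.snd.comp Computable.fst)) Computable.snd)

theorem of_dec {f : ℕ → Bool} (hf : Computable f) : Sig2 (fun x => f x = true) := by
  refine ⟨fun x _ _ => f x, hf.comp (Computable.fst.comp Computable.fst), fun x => ?_⟩
  constructor
  · intro h; exact ⟨0, fun _ => h⟩
  · rintro ⟨_, h⟩; exact h 0

theorem of_pi {f : ℕ → ℕ → Bool} (hf : Computable₂ f) : Sig2 (fun x => ∀ c, f x c = true) := by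
  refine ⟨fun x _ c => f x c, hf.comp (Computable.fst.comp Computable.fst) Computable.snd,
    fun x => ?_⟩
  constructor
  · intro h; exact ⟨0, h⟩
  · rintro ⟨_, h⟩; exact h

theorem of_sig {f : ℕ → ℕ → Bool} (hf : Computable₂ f) : Sig2 (fun x => ∃ b, f x b = true) := by
  refine ⟨fun x b _ => f x b, hf.comp (Computable.fst.comp Computable.fst)
    (Computable.snd.comp Computable.fst), fun x => ?_⟩
  constructor
  · rintro ⟨b, h⟩; exact ⟨b, fun _ => h⟩
  · rintro ⟨b, h⟩; exact ⟨b, h 0⟩

theorem and {A B : ℕ → Prop} (hA : Sig2 A) (hB : Sig2 B) : Sig2 (fun x => A x ∧ B x) := by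
  obtain ⟨R, hR, hA⟩ := hA
  obtain ⟨T, hT, hB⟩ := hB
  refine ⟨fun x b c => R x b.unpair.1 c && T x b.unpair.2 c, ?_, fun x => ?_⟩
  · have hx : Computable (fun q : (ℕ × ℕ) × ℕ => q.1.1) := Computable.fst.comp Computable.fst
    have hb : Computable (fun q : (ℕ × ℕ) × ℕ => q.1.2.unpair) :=
      Computable.unpair.comp (Computable.snd.comp Computable.fst)
    have h1 := hR.comp (Computable.pair (Computable.pair hx (Computable.fst.comp hb))
      Computable.snd)
    have h2 := hT.comp (Computable.pair (Computable.pair hx (Computable.snd.comp hb))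
      Computable.snd)
    exact (Primrec.and.to_comp).comp h1 h2
  · refine (and_congr (hA x) (hB x)).trans ?_
    constructor
    · rintro ⟨⟨b, hb⟩, ⟨b', hb'⟩⟩
      refine ⟨Nat.pair b b', fun c => ?_⟩
      simp [hb c, hb' c]
    · rintro ⟨b, hb⟩
      simp only [Bool.and_eq_true] at hb
      exact ⟨⟨b.unpair.1, fun c => (hb c).1⟩, ⟨b.unpair.2, fun c => (hb c).2⟩⟩

theorem ex {A : ℕ → ℕ → Prop} (hA : Sig2 (fun q => A q.unpair.1 q.unpair.2)) :
    Sig2 (fun x => ∃ y, A x y) := by
  obtain ⟨R, hR, hA⟩ := hA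
  refine ⟨fun x b c => R (Nat.pair x b.unpair.1) b.unpair.2 c, ?_, fun x => ?_⟩
  · have h1 : Computable (fun q : (ℕ × ℕ) × ℕ =>
        ((Nat.pair q.1.1 q.1.2.unpair.1, q.1.2.unpair.2), q.2)) :=
      Computable.pair (Computable.pair ((Primrec₂.natPair.to_comp).comp cx cb1) cb2) Computable.snd
    have h2 := hR.comp h1
    exact h2
  · constructor
    · rintro ⟨y, hy⟩
      have := (hA (Nat.pair x y)).mp (by simpa using hy)
      obtain ⟨b, hb⟩ := this
      exact ⟨Nat.pair y b, fun c => by simpa using hb c⟩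
    · rintro ⟨b, hb⟩
      have := (hA (Nat.pair x b.unpair.1)).mpr ⟨b.unpair.2, hb⟩
      exact ⟨b.unpair.1, by simpa using this⟩

theorem or {A B : ℕ → Prop} (hA : Sig2 A) (hB : Sig2 B) : Sig2 (fun x => A x ∨ B x) := by
  obtain ⟨R, hR, hA⟩ := hA
  obtain ⟨T, hT, hB⟩ := hB
  refine ⟨fun x b c => bif decide (b.unpair.1 = 0) then R x b.unpair.2 c else T x b.unpair.2 c,
    ?_, fun x => ?_⟩
  · have h0 : Computable (fun q : (ℕ × ℕ) × ℕ => decide (q.1.2.unpair.1 = 0)) :=
      (Primrec.eq.decide.to_comp).comp cb1 (Computable.const 0)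
    have h1 : Computable (fun q : (ℕ × ℕ) × ℕ => ((q.1.1, q.1.2.unpair.2), q.2)) :=
      Computable.pair (Computable.pair cx cb2) Computable.snd
    have h2 := hR.comp h1
    have h3 := hT.comp h1
    exact Computable.cond h0 h2 h3
  · refine (or_congr (hA x) (hB x)).trans ?_
    constructor
    · rintro (⟨b, hb⟩ | ⟨b, hb⟩)
      · exact ⟨Nat.pair 0 b, fun c => by simp [hb c]⟩
      · exact ⟨Nat.pair 1 b, fun c => by simp [hb c]⟩
    · rintro ⟨b, hb⟩
      by_cases h : b.unpair.1 = 0
      · left; exact ⟨b.unpair.2, fun c => by simpa [h] using hb c⟩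
      · right; exact ⟨b.unpair.2, fun c => by simpa [h] using hb c⟩

theorem all_lt {A : ℕ → ℕ → Prop} (hA : Sig2 (fun q => A q.unpair.1 q.unpair.2)) {n : ℕ → ℕ}
    (hn : Computable n) : Sig2 (fun x => ∀ i < n x, A x i) := by
  obtain ⟨R, hR, hA⟩ := hA
  refine ⟨fun x b c => decide (n x ≤ c.unpair.1) ||
    R (Nat.pair x c.unpair.1) ((Denumerable.ofNat (List ℕ) b).getD c.unpair.1 0) c.unpair.2,
    ?_, fun x => ?_⟩
  · have hb : Computable (fun q : (ℕ × ℕ) × ℕ => q.1.2) := Computable.snd.comp Computable.fst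
    have h1 : Computable (fun q : (ℕ × ℕ) × ℕ => decide (n q.1.1 ≤ q.2.unpair.1)) :=
      (Primrec.nat_le.decide.to_comp).comp (hn.comp cx) cc1
    have h2 : Computable (fun q : (ℕ × ℕ) × ℕ =>
        (Denumerable.ofNat (List ℕ) q.1.2).getD q.2.unpair.1 0) :=
      ((Primrec.list_getD 0).to_comp).comp ((Computable.ofNat (List ℕ)).comp hb) cc1
    have h3 : Computable (fun q : (ℕ × ℕ) × ℕ =>
        ((Nat.pair q.1.1 q.2.unpair.1, (Denumerable.ofNat (List ℕ) q.1.2).getD q.2.unpair.1 0),
          q.2.unpair.2)) :=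
      Computable.pair (Computable.pair ((Primrec₂.natPair.to_comp).comp cx cc1) h2) cc2
    have h4 := hR.comp h3
    exact (Primrec.or.to_comp).comp h1 h4
  · constructor
    · intro h
      have h1 : ∀ i, ∃ b, i < n x → ∀ c, R (Nat.pair x i) b c = true := by
        intro i
        by_cases hi : i < n x
        · obtain ⟨b, hb⟩ := (hA (Nat.pair x i)).mp (by simpa using h i hi)
          exact ⟨b, fun _ => hb⟩
        · exact ⟨0, fun h => absurd h hi⟩
      choose b hb using h1
      refine ⟨Encodable.encode ((List.range (n x)).map b), fun c => ?_⟩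
      rw [Bool.or_eq_true, decide_eq_true_eq]
      rcases le_or_gt (n x) c.unpair.1 with hi | hi
      · exact Or.inl hi
      · right
        rw [Denumerable.ofNat_encode]
        have h2 : ((List.range (n x)).map b).getD c.unpair.1 0 = b c.unpair.1 := by
          simp [List.getD_eq_getElem?_getD, hi]
        rw [h2]
        exact hb _ hi _
    · rintro ⟨b, hb⟩ i hi
      have := (hA (Nat.pair x i)).mpr ⟨(Denumerable.ofNat (List ℕ) b).getD i 0, fun c => by
        have := hb (Nat.pair i c)
        simp only [Nat.unpair_pair, Bool.or_eq_true, decide_eq_true_eq] at this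
        rcases this with h | h
        · omega
        · exact h⟩
      simpa using this

end Sig2

theorem sig2_dom (f : ℕ → ℕ) (g : ℕ → ℕ) (hf : Computable f) (hg : Computable g) :
    Sig2 (fun x => ((Denumerable.ofNat Code (f x)).eval (g x)).Dom) := by
  have h1 : Computable₂ (fun x k : ℕ =>
      (evaln k (Denumerable.ofNat Code (f x)) (g x)).isSome) := by
    have h2 : Computable (fun q : ℕ × ℕ => evaln q.2 (Denumerable.ofNat Code (f q.1)) (g q.1)) :=
      primrec_evaln.to_comp.comp (Computable.pair (Computable.pair Computable.snd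
        ((Computable.ofNat Code).comp (hf.comp Computable.fst))) (hg.comp Computable.fst))
    exact (Primrec.option_isSome.to_comp).comp h2
  refine (Sig2.of_sig h1).of_iff fun x => ?_
  rw [Part.dom_iff_mem]
  constructor
  · rintro ⟨y, hy⟩
    obtain ⟨k, hk⟩ := evaln_complete.mp hy
    exact ⟨k, by rw [Option.mem_def.mp hk]; rfl⟩
  · rintro ⟨k, hk⟩
    obtain ⟨y, hy⟩ := Option.isSome_iff_exists.mp hk
    exact ⟨y, evaln_sound (Option.mem_def.mpr hy)⟩

theorem sig2_not_dom (f : ℕ → ℕ) (g : ℕ → ℕ) (hf : Computable f) (hg : Computable g) :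
    Sig2 (fun x => ¬ ((Denumerable.ofNat Code (f x)).eval (g x)).Dom) := by
  have h1 : Computable₂ (fun x k : ℕ =>
      !(evaln k (Denumerable.ofNat Code (f x)) (g x)).isSome) := by
    have h2 : Computable (fun q : ℕ × ℕ => evaln q.2 (Denumerable.ofNat Code (f q.1)) (g q.1)) :=
      primrec_evaln.to_comp.comp (Computable.pair (Computable.pair Computable.snd
        ((Computable.ofNat Code).comp (hf.comp Computable.fst))) (hg.comp Computable.fst))
    exact (Primrec.not.to_comp).comp ((Primrec.option_isSome.to_comp).comp h2)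
  refine (Sig2.of_pi h1).of_iff fun x => ?_
  rw [Part.dom_iff_mem]
  constructor
  · intro h k
    by_contra hne
    simp only [Bool.not_eq_true', Bool.not_eq_false] at hne
    obtain ⟨y, hy⟩ := Option.isSome_iff_exists.mp hne
    exact h ⟨y, evaln_sound (Option.mem_def.mpr hy)⟩
  · rintro h ⟨y, hy⟩
    obtain ⟨k, hk⟩ := evaln_complete.mp hy
    have := h k
    rw [Option.mem_def.mp hk] at this
    exact absurd this (by simp)

/-- the graph of a partial function -/
def Gr (g : ℕ →. ℕ) (q : ℕ) : Prop := q.unpair.2 ∈ g q.unpair.1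

theorem cu1 : Computable (fun q : ℕ => q.unpair.1) := Computable.fst.comp Computable.unpair
theorem cu2 : Computable (fun q : ℕ => q.unpair.2) := Computable.snd.comp Computable.unpair

theorem sig2_graph_of_fun {f : ℕ → ℕ} (hf : Computable f) : Sig2 (Gr (f : ℕ →. ℕ)) := by
  have h1 : Computable (fun q : ℕ => decide (q.unpair.2 = f q.unpair.1)) :=
    (Primrec.eq.decide.to_comp).comp cu2 (hf.comp cu1)
  refine (Sig2.of_dec h1).of_iff fun q => ?_
  unfold Gr
  rw [decide_eq_true_eq]
  exact Part.mem_some_iff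

theorem mem_rec_iff (f h : ℕ →. ℕ) (a : ℕ) : ∀ n y, y ∈ (Nat.rec (f a) (fun y IH => do
      let i ← IH
      h (Nat.pair a (Nat.pair y i))) n : Part ℕ) ↔
    ∃ L, (Denumerable.ofNat (List ℕ) L).getD 0 0 ∈ f a ∧
      (∀ i < n, (Denumerable.ofNat (List ℕ) L).getD (i + 1) 0 ∈
        h (Nat.pair a (Nat.pair i ((Denumerable.ofNat (List ℕ) L).getD i 0)))) ∧
      (Denumerable.ofNat (List ℕ) L).getD n 0 = y := by
  intro n
  -- first with functions
  have key : ∀ n y, y ∈ (Nat.rec (f a) (fun y IH => do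
      let i ← IH
      h (Nat.pair a (Nat.pair y i))) n : Part ℕ) ↔
      ∃ v : ℕ → ℕ, v 0 ∈ f a ∧ (∀ i < n, v (i + 1) ∈ h (Nat.pair a (Nat.pair i (v i)))) ∧
        v n = y := by
    intro n
    induction n with
    | zero =>
      intro y
      constructor
      · intro hy
        exact ⟨fun _ => y, hy, fun i hi => absurd hi (by omega), rfl⟩
      · rintro ⟨v, h1, _, h3⟩
        rw [← h3]; exact h1
    | succ n ih =>
      intro y
      constructor
      · intro hy
        obtain ⟨i, hi, hy⟩ := Part.mem_bind_iff.mp hy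
        obtain ⟨v, h1, h2, h3⟩ := (ih i).mp hi
        refine ⟨fun m => if m ≤ n then v m else y, ?_, ?_, ?_⟩
        · simpa using h1
        · intro j hj
          rcases Nat.lt_succ_iff_lt_or_eq.mp hj with hj | rfl
          · have e1 : j + 1 ≤ n := hj
            have e2 : j ≤ n := by omega
            simp only [e1, e2, if_true]
            exact h2 j hj
          · have e1 : ¬ (j + 1 ≤ j) := by omega
            simp only [e1, le_refl, if_true, if_false, h3]
            exact hy
        · have e1 : ¬ (n + 1 ≤ n) := by omega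
          simp [e1]
      · rintro ⟨v, h1, h2, h3⟩
        refine Part.mem_bind_iff.mpr ⟨v n, (ih (v n)).mpr ⟨v, h1, fun i hi => h2 i (by omega), rfl⟩,
          ?_⟩
        rw [← h3]
        exact h2 n (by omega)
  intro y
  rw [key]
  constructor
  · rintro ⟨v, h1, h2, h3⟩
    have hg : ∀ i ≤ n, (((List.range (n + 1)).map v).getD i 0) = v i := by
      intro i hi
      have : i < n + 1 := by omega
      simp [List.getD_eq_getElem?_getD, this]
    refine ⟨Encodable.encode ((List.range (n + 1)).map v), ?_, ?_, ?_⟩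
    · rw [Denumerable.ofNat_encode, hg 0 (by omega)]; exact h1
    · intro i hi
      rw [Denumerable.ofNat_encode, hg i (by omega), hg (i + 1) (by omega)]
      exact h2 i hi
    · rw [Denumerable.ofNat_encode, hg n le_rfl]; exact h3
  · rintro ⟨L, h1, h2, h3⟩
    exact ⟨fun i => (Denumerable.ofNat (List ℕ) L).getD i 0, h1, h2, h3⟩

theorem mem_rfind_iff (f : ℕ →. ℕ) (a y : ℕ) :
    y ∈ (Nat.rfind fun n => (fun m => decide (m = 0)) <$> f (Nat.pair a n)) ↔
      0 ∈ f (Nat.pair a y) ∧ ∀ m < y, ∃ r, r ≠ 0 ∧ r ∈ f (Nat.pair a m) := by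
  refine Nat.mem_rfind.trans (and_congr ?_ ?_)
  · constructor
    · intro h
      obtain ⟨m, h1, h2⟩ := (Part.mem_map_iff _).mp h
      rw [decide_eq_true_eq] at h2
      rwa [h2] at h1
    · intro h
      exact (Part.mem_map_iff _).mpr ⟨0, h, by simp⟩
  · constructor
    · intro h m hm
      obtain ⟨r, h1, h2⟩ := (Part.mem_map_iff _).mp (h hm)
      exact ⟨r, by simpa using h2, h1⟩
    · intro h m hm
      obtain ⟨r, h1, h2⟩ := h m hm
      exact (Part.mem_map_iff _).mpr ⟨r, h2, by simpa using h1⟩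

theorem sig2_graph {g : ℕ →. ℕ} (hg : Nat.RecursiveIn {haltChar} g) : Sig2 (Gr g) := by
  induction hg with
  | zero => exact sig2_graph_of_fun (Computable.const 0)
  | succ => exact sig2_graph_of_fun Computable.succ
  | left => exact sig2_graph_of_fun cu1
  | right => exact sig2_graph_of_fun cu2
  | oracle g hg =>
    rw [Set.mem_singleton_iff] at hg
    subst hg
    have h1 : Computable (fun q : ℕ => decide (q.unpair.2 = 1)) :=
      (Primrec.eq.decide.to_comp).comp cu2 (Computable.const 1)
    have h0 : Computable (fun q : ℕ => decide (q.unpair.2 = 0)) :=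
      (Primrec.eq.decide.to_comp).comp cu2 (Computable.const 0)
    refine (((Sig2.of_dec h1).and (sig2_dom (fun q => q.unpair.1.unpair.1)
      (fun q => q.unpair.1.unpair.2) (cu1.comp cu1) (cu2.comp cu1))).or
      ((Sig2.of_dec h0).and (sig2_not_dom (fun q => q.unpair.1.unpair.1)
      (fun q => q.unpair.1.unpair.2) (cu1.comp cu1) (cu2.comp cu1)))).of_iff fun q => ?_
    unfold Gr haltChar
    rw [Part.mem_some_iff, decide_eq_true_eq, decide_eq_true_eq]
    split_ifs with h
    · simp [h]
    · simp [h]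
  | pair hf hh ihf ihh =>
    rename_i f h
    refine ((ihf.comp (f := fun q => Nat.pair q.unpair.1 q.unpair.2.unpair.1)
      ((Primrec₂.natPair.to_comp).comp cu1 (cu1.comp cu2))).and
      (ihh.comp (f := fun q => Nat.pair q.unpair.1 q.unpair.2.unpair.2)
      ((Primrec₂.natPair.to_comp).comp cu1 (cu2.comp cu2)))).of_iff fun q => ?_
    unfold Gr
    simp only [Nat.unpair_pair]
    constructor
    · intro hq
      simp only [Seq.seq, Part.map_eq_map, Part.mem_bind_iff, Part.mem_map_iff] at hq
      obtain ⟨_, ⟨a, ha, rfl⟩, b, hb, hab⟩ := hq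
      rw [← hab, Nat.unpair_pair]
      exact ⟨ha, hb⟩
    · rintro ⟨h1, h2⟩
      simp only [Seq.seq, Part.map_eq_map, Part.mem_bind_iff, Part.mem_map_iff]
      exact ⟨_, ⟨_, h1, rfl⟩, _, h2, Nat.pair_unpair _⟩
  | comp hf hh ihf ihh =>
    rename_i f h
    refine Sig2.of_iff (A := fun q => ∃ m, m ∈ h q.unpair.1 ∧ q.unpair.2 ∈ f m) ?_ ?_
    · apply Sig2.ex
      refine ((ihh.comp (f := fun r => Nat.pair r.unpair.1.unpair.1 r.unpair.2)
        ((Primrec₂.natPair.to_comp).comp (cu1.comp cu1) cu2)).and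
        (ihf.comp (f := fun r => Nat.pair r.unpair.2 r.unpair.1.unpair.2)
        ((Primrec₂.natPair.to_comp).comp cu2 (cu2.comp cu1)))).of_iff fun r => ?_
      unfold Gr
      simp only [Nat.unpair_pair]
    · intro q
      unfold Gr
      exact Part.mem_bind_iff
  | prec hf hh ihf ihh =>
    rename_i f h
    have hL : Computable₂ (fun L i : ℕ => (Denumerable.ofNat (List ℕ) L).getD i 0) :=
      ((Primrec.list_getD 0).to_comp).comp ((Computable.ofNat (List ℕ)).comp Computable.fst)
        Computable.snd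
    -- `q = ⟨⟨a, n⟩, y⟩`
    refine Sig2.of_iff (A := fun q => ∃ L, (Denumerable.ofNat (List ℕ) L).getD 0 0 ∈
      f q.unpair.1.unpair.1 ∧
      (∀ i < q.unpair.1.unpair.2, (Denumerable.ofNat (List ℕ) L).getD (i + 1) 0 ∈
        h (Nat.pair q.unpair.1.unpair.1
          (Nat.pair i ((Denumerable.ofNat (List ℕ) L).getD i 0)))) ∧
      (Denumerable.ofNat (List ℕ) L).getD q.unpair.1.unpair.2 0 = q.unpair.2) ?_ ?_
    · apply Sig2.ex
      -- `r = ⟨q, L⟩`
      have ha : Computable (fun r : ℕ => r.unpair.1.unpair.1.unpair.1) := cu1.comp (cu1.comp cu1)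
      have hn : Computable (fun r : ℕ => r.unpair.1.unpair.1.unpair.2) := cu2.comp (cu1.comp cu1)
      have hy : Computable (fun r : ℕ => r.unpair.1.unpair.2) := cu2.comp cu1
      refine Sig2.and ?_ (Sig2.and ?_ ?_)
      · refine (ihf.comp (f := fun r => Nat.pair r.unpair.1.unpair.1.unpair.1
          ((Denumerable.ofNat (List ℕ) r.unpair.2).getD 0 0))
          ((Primrec₂.natPair.to_comp).comp ha (hL.comp cu2 (Computable.const 0)))).of_iff
          fun r => ?_
        unfold Gr
        simp only [Nat.unpair_pair]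
      · refine Sig2.all_lt (A := fun r i => (Denumerable.ofNat (List ℕ) r.unpair.2).getD (i + 1) 0 ∈
          h (Nat.pair r.unpair.1.unpair.1.unpair.1
          (Nat.pair i ((Denumerable.ofNat (List ℕ) r.unpair.2).getD i 0)))) ?_ hn
        -- `s = ⟨r, i⟩`
        refine (ihh.comp (f := fun s => Nat.pair
          (Nat.pair s.unpair.1.unpair.1.unpair.1.unpair.1 (Nat.pair s.unpair.2
            ((Denumerable.ofNat (List ℕ) s.unpair.1.unpair.2).getD s.unpair.2 0)))
          ((Denumerable.ofNat (List ℕ) s.unpair.1.unpair.2).getD (s.unpair.2 + 1) 0)) ?_).of_iff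
          fun s => ?_
        · refine (Primrec₂.natPair.to_comp).comp ((Primrec₂.natPair.to_comp).comp (ha.comp cu1)
            ((Primrec₂.natPair.to_comp).comp cu2 (hL.comp (cu2.comp cu1) cu2))) ?_
          exact hL.comp (cu2.comp cu1) (Computable.succ.comp cu2)
        · unfold Gr
          simp only [Nat.unpair_pair]
      · have h1 : Computable (fun r : ℕ => decide ((Denumerable.ofNat (List ℕ) r.unpair.2).getD
            r.unpair.1.unpair.1.unpair.2 0 = r.unpair.1.unpair.2)) :=
          (Primrec.eq.decide.to_comp).comp (hL.comp cu2 hn) hy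
        exact (Sig2.of_dec h1).of_iff fun r => by rw [decide_eq_true_eq]
    · intro q
      unfold Gr
      exact mem_rec_iff f h q.unpair.1.unpair.1 q.unpair.1.unpair.2 q.unpair.2
  | rfind hf ihf =>
    rename_i f
    refine Sig2.of_iff (A := fun q => 0 ∈ f (Nat.pair q.unpair.1 q.unpair.2) ∧
      ∀ m < q.unpair.2, ∃ r, r ≠ 0 ∧ r ∈ f (Nat.pair q.unpair.1 m)) ?_ ?_
    · refine Sig2.and ?_ ?_
      · refine (ihf.comp (f := fun q => Nat.pair q 0)
          ((Primrec₂.natPair.to_comp).comp Computable.id (Computable.const 0))).of_iff fun q => ?_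
        unfold Gr
        simp only [Nat.unpair_pair, Nat.pair_unpair]
      · refine Sig2.all_lt (A := fun q m => ∃ r, r ≠ 0 ∧ r ∈ f (Nat.pair q.unpair.1 m)) ?_ cu2
        -- `s = ⟨q, m⟩`
        apply Sig2.ex (A := fun s r => r ≠ 0 ∧ r ∈ f (Nat.pair s.unpair.1.unpair.1 s.unpair.2))
        -- `t = ⟨s, r⟩`
        have h1 : Computable (fun t : ℕ => !decide (t.unpair.2 = 0)) :=
          (Primrec.not.to_comp).comp ((Primrec.eq.decide.to_comp).comp cu2 (Computable.const 0))
        refine ((Sig2.of_dec h1).and (ihf.comp (f := fun t => Nat.pair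
          (Nat.pair t.unpair.1.unpair.1.unpair.1 t.unpair.1.unpair.2) t.unpair.2)
          ((Primrec₂.natPair.to_comp).comp ((Primrec₂.natPair.to_comp).comp
            (cu1.comp (cu1.comp cu1)) (cu2.comp cu1)) cu2))).of_iff fun t => ?_
        unfold Gr
        simp only [Nat.unpair_pair, Bool.not_eq_true', decide_eq_false_iff_not, ne_eq]
    · intro q
      unfold Gr
      exact mem_rfind_iff f q.unpair.1 q.unpair.2

/-- Post's theorem (one direction): a set which is c.e. in the halting problem is `Σ⁰₂`. -/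
theorem sig2_of_recursiveIn {g : ℕ →. ℕ} (hg : Nat.RecursiveIn {haltChar} g) :
    Sig2 (fun x => (g x).Dom) := by
  refine Sig2.of_iff (A := fun x => ∃ y, y ∈ g x) ?_ (fun x => Part.dom_iff_mem)
  exact Sig2.ex (sig2_graph hg)

end Pool.Agent.H661.Luzin
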