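import Pool.Agent.H661.Luzin.Comp
import Pool.Agent.H661.Luzin.Post

/-!
# Assembling the main theorem
-/

open MeasureTheory Set
open Nat.Partrec (Code)

namespace Pool.Agent.H661.Luzin

/-- a class given by a uniform enumeration recursive in the halting problem is of the form
`cls S` -/
theorem exists_cls {g : ℕ →. ℕ} (hg : Nat.RecursiveIn {haltChar} g) :
    ∃ S : ℕ → ℕ → ℕ → ℕ → Bool,
      Computable (fun q : (ℕ × ℕ) × (ℕ × ℕ) => S q.1.1 q.1.2 q.2.1 q.2.2) ∧
      {x | x ∈ Icc (0 : ℝ) 1 ∧ ∀ n, ∃ i, (g (Nat.pair n i)).Dom ∧ x ∈ Bl i} = cls S := by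
  obtain ⟨R, hR, h⟩ := sig2_of_recursiveIn hg
  refine ⟨fun n i b c => R (Nat.pair n i) b c, ?_, ?_⟩
  · have h1 : Computable (fun q : (ℕ × ℕ) × (ℕ × ℕ) => ((Nat.pair q.1.1 q.1.2, q.2.1), q.2.2)) :=
      Computable.pair (Computable.pair ((Primrec₂.natPair.to_comp).comp
        (Computable.fst.comp Computable.fst) (Computable.snd.comp Computable.fst))
        (Computable.fst.comp Computable.snd)) (Computable.snd.comp Computable.snd)
    have h2 := hR.comp h1
    exact h2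
  · ext x
    simp only [cls, mem_ofPred_eq]
    refine and_congr Iff.rfl (forall_congr' fun n => exists_congr fun i => ?_)
    exact and_congr (h (Nat.pair n i)) Iff.rfl

theorem exists_code_S {S : ℕ → ℕ → ℕ → ℕ → Bool}
    (hS : Computable (fun q : (ℕ × ℕ) × (ℕ × ℕ) => S q.1.1 q.1.2 q.2.1 q.2.2)) :
    ∃ d : Code, ∀ n i b c,
      (1 ∈ d.eval (Nat.pair (Nat.pair n i) (Nat.pair b c)) ↔ S n i b c = true) := by
  have h : Nat.Partrec _ := hS.partrec
  obtain ⟨d, hd⟩ := Nat.Partrec.Code.exists_code.mp h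
  refine ⟨d, fun n i b c => ?_⟩
  have h1 : d.eval (Nat.pair (Nat.pair n i) (Nat.pair b c)) =
      Part.some (Encodable.encode (S n i b c)) := by
    have h2 : Encodable.decode (α := (ℕ × ℕ) × (ℕ × ℕ)) (Nat.pair (Nat.pair n i) (Nat.pair b c)) =
        some ((n, i), (b, c)) := by
      simp
    have h3 := congrFun hd (Nat.pair (Nat.pair n i) (Nat.pair b c))
    refine h3.trans ?_
    simp only [h2]
    refine (Part.bind_some _ _).trans ?_
    exact Part.map_some _ _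
  rw [h1, Part.mem_some_iff]
  cases S n i b c <;> simp

open Classical in
/-- the class enumerated by a program -/
noncomputable def Sc (d : Code) (n i b c : ℕ) : Bool :=
  decide (1 ∈ d.eval (Nat.pair (Nat.pair n i) (Nat.pair b c)))

/-- main theorem with the internal definitions -/
theorem main_null : volume (US.f '' {x | x ∈ Icc (0 : ℝ) 1 ∧ ∃ g : ℕ →. ℕ,
    Nat.RecursiveIn {haltChar} g ∧
    volume {x | x ∈ Icc (0 : ℝ) 1 ∧ ∀ n, ∃ i, (g (Nat.pair n i)).Dom ∧ x ∈ Bl i} = 0 ∧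
    ∀ n, ∃ i, (g (Nat.pair n i)).Dom ∧ x ∈ Bl i}) = 0 := by
  have hCnull : volume {x | x ∈ Icc (0 : ℝ) 1 ∧ ∃ g : ℕ →. ℕ,
      Nat.RecursiveIn {haltChar} g ∧
      volume {x | x ∈ Icc (0 : ℝ) 1 ∧ ∀ n, ∃ i, (g (Nat.pair n i)).Dom ∧ x ∈ Bl i} = 0 ∧
      ∀ n, ∃ i, (g (Nat.pair n i)).Dom ∧ x ∈ Bl i} = 0 := by
    have h1 : {x | x ∈ Icc (0 : ℝ) 1 ∧ ∃ g : ℕ →. ℕ,
        Nat.RecursiveIn {haltChar} g ∧
        volume {x | x ∈ Icc (0 : ℝ) 1 ∧ ∀ n, ∃ i, (g (Nat.pair n i)).Dom ∧ x ∈ Bl i} = 0 ∧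
        ∀ n, ∃ i, (g (Nat.pair n i)).Dom ∧ x ∈ Bl i} ⊆
        ⋃ d : Code, {x | volume (cls (Sc d)) = 0 ∧ x ∈ cls (Sc d)} := by
      rintro x ⟨hx, g, h2, h3, h4⟩
      obtain ⟨S, hS, hcls⟩ := exists_cls h2
      obtain ⟨d, hd⟩ := exists_code_S hS
      have h5 : Sc d = S := by
        funext n i b c
        unfold Sc
        have := hd n i b c
        cases hb : S n i b c
        · rw [hb] at this
          simpa using this
        · rw [hb] at this
          simpa using this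
      rw [mem_iUnion]
      refine ⟨d, ?_, ?_⟩
      · rw [h5, ← hcls]; exact h3
      · rw [h5, ← hcls]; exact ⟨hx, h4⟩
    refine measure_mono_null h1 (measure_iUnion_null fun d => ?_)
    by_cases h : volume (cls (Sc d)) = 0
    · exact measure_mono_null (fun x hx => hx.2) h
    · refine measure_mono_null (fun x hx => absurd hx.1 h) (measure_empty (μ := volume))
  apply US.null_image_f hCnull
  rintro x ⟨hx, g, h2, h3, h4⟩
  obtain ⟨S, hS, hcls⟩ := exists_cls h2
  obtain ⟨e, he⟩ := exists_code_Alv hS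
  rw [hcls] at h3
  refine not_mem_NN h3 he ?_
  rw [← hcls]
  exact ⟨hx, h4⟩

end Pool.Agent.H661.Luzin
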