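import Pool.Agent.H661.Luzin.Items

/-!
# Primitive recursiveness
-/

open Nat.Partrec (Code)
open Nat.Partrec.Code

namespace Pool.Agent.H661.Luzin

section Tools

variable {α : Type*} [Primcodable α]

theorem pr_all_lt {f : α → ℕ} {R : α → ℕ → Prop} (hf : Primrec f)
    (hR : PrimrecPred (fun q : α × ℕ => R q.1 q.2)) : PrimrecPred (fun a => ∀ x < f a, R a x) := by
  have h1 : PrimrecRel (fun (x : ℕ) (a : α) => R a x) :=
    hR.comp (Primrec.pair Primrec.snd Primrec.fst)
  exact ((h1.forall_mem_list).comp (Primrec.list_range.comp hf) Primrec.id).of_eq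
    (fun a => by simp)

theorem pr_ex_lt {f : α → ℕ} {R : α → ℕ → Prop} (hf : Primrec f)
    (hR : PrimrecPred (fun q : α × ℕ => R q.1 q.2)) : PrimrecPred (fun a => ∃ x < f a, R a x) := by
  have h1 : PrimrecRel (fun (x : ℕ) (a : α) => R a x) :=
    hR.comp (Primrec.pair Primrec.snd Primrec.fst)
  exact ((h1.exists_mem_list).comp (Primrec.list_range.comp hf) Primrec.id).of_eq
    (fun a => by simp)

theorem pr_eqtrue {f : α → Bool} (hf : Primrec f) : PrimrecPred (fun a => f a = true) :=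
  Primrec.eq.comp hf (Primrec.const true)

theorem pr_imp {p q : α → Prop} (hp : PrimrecPred p) (hq : PrimrecPred q) :
    PrimrecPred (fun a => p a → q a) := by
  classical
  exact (hp.not.or hq).of_eq (fun a => by tauto)

end Tools

theorem pr_pow : Primrec₂ ((· ^ ·) : ℕ → ℕ → ℕ) := Primrec₂.unpaired'.1 Nat.Primrec.pow

theorem pr_pow2 : Primrec (fun n : ℕ => 2 ^ n) := pr_pow.comp (Primrec.const 2) Primrec.id

theorem pr_testBit : Primrec₂ (fun v t : ℕ => v.testBit t) := by
  have h : PrimrecRel (fun v t : ℕ => v / 2 ^ t % 2 = 1) :=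
    Primrec.eq.comp (Primrec.nat_mod.comp (Primrec.nat_div.comp Primrec.fst
      (pr_pow2.comp Primrec.snd)) (Primrec.const 2)) (Primrec.const 1)
  exact h.decide.of_eq (fun v t => by rw [Nat.testBit_eq_decide_div_mod_eq])

theorem pr_up1 : Primrec (fun n : ℕ => n.unpair.1) := Primrec.fst.comp Primrec.unpair
theorem pr_up2 : Primrec (fun n : ℕ => n.unpair.2) := Primrec.snd.comp Primrec.unpair

theorem pr_lev : Primrec lev := pr_up1
theorem pr_ilen : Primrec ilen := pr_up1.comp (pr_up1.comp pr_up2)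
theorem pr_ival : Primrec ival := pr_up2.comp (pr_up1.comp pr_up2)
theorem pr_ik : Primrec ik := pr_up1.comp (pr_up2.comp pr_up2)
theorem pr_iv : Primrec iv := pr_up1.comp (pr_up2.comp (pr_up2.comp pr_up2))
theorem pr_iL : Primrec iL := pr_up2.comp (pr_up2.comp (pr_up2.comp pr_up2))
theorem pr_ulen : Primrec ulen :=
  (pr_ilen.comp (pr_up2.comp pr_up2)).of_eq (fun i => by unfold ulen; rfl)
theorem pr_uval : Primrec uval :=
  (pr_ival.comp (pr_up2.comp pr_up2)).of_eq (fun i => by unfold uval; rfl)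

theorem pr_ient : Primrec₂ ient :=
  (Primrec.list_getD 0).comp ((Primrec.ofNat (List ℕ)).comp Primrec.fst) Primrec.snd

theorem pr_alive : Primrec (fun q : (ℕ × ℕ) × ℕ => alive q.1.1 q.1.2 q.2) := by
  have h1 : Primrec (fun q : (ℕ × ℕ) × ℕ => evaln q.1.1 (Denumerable.ofNat Code q.1.2) q.2) :=
    primrec_evaln.comp (Primrec.pair (Primrec.pair (Primrec.fst.comp Primrec.fst)
      ((Primrec.ofNat Code).comp (Primrec.snd.comp Primrec.fst))) Primrec.snd)
  have h2 := Primrec.not.comp (Primrec.option_isSome.comp h1)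
  exact h2.of_eq (fun q => by unfold alive; cases evaln _ _ _ <;> rfl)

attribute [local irreducible] alive lev ilen ival ik iv iL

theorem pr_mt_pad : PrimrecPred (fun q : (ℕ × ℕ) × ℕ => mt q.1.1 q.1.2 (pad q.2)) := by
  unfold mt pad
  refine pr_all_lt (α := (ℕ × ℕ) × ℕ) (f := fun q => q.1.1)
    (R := fun q t => q.2.testBit t = q.1.2.testBit t) (Primrec.fst.comp Primrec.fst) ?_
  exact Primrec.eq.comp (pr_testBit.comp (Primrec.snd.comp Primrec.fst) Primrec.snd)
    (pr_testBit.comp (Primrec.snd.comp (Primrec.fst.comp Primrec.fst)) Primrec.snd)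

/-- parameters `((e, n), (J, k))` -/
abbrev Par := (ℕ × ℕ) × (ℕ × ℕ)

theorem pr_Ws : PrimrecPred (fun q : ℕ × Par => pad q.1 ∈ Ws q.2.1.1 q.2.1.2 q.2.2.1 q.2.2.2) := by
  have h : PrimrecPred (fun q : ℕ × Par => ∃ j < q.2.2.1, q.2.1.2 ≤ lev j ∧
      alive q.2.2.2 q.2.1.1 j = true ∧ mt (ilen j) (ival j) (pad q.1)) := by
    refine pr_ex_lt (α := ℕ × Par) (f := fun q => q.2.2.1)
      (R := fun q j => q.2.1.2 ≤ lev j ∧
        alive q.2.2.2 q.2.1.1 j = true ∧ mt (ilen j) (ival j) (pad q.1)) ?_ ?_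
    · exact Primrec.fst.comp (Primrec.snd.comp Primrec.snd)
    · refine PrimrecPred.and ?_ (PrimrecPred.and ?_ ?_)
      · exact Primrec.nat_le.comp (Primrec.snd.comp (Primrec.fst.comp (Primrec.snd.comp Primrec.fst)))
          (pr_lev.comp Primrec.snd)
      · refine pr_eqtrue ?_
        exact pr_alive.comp (Primrec.pair (Primrec.pair
          (Primrec.snd.comp (Primrec.snd.comp (Primrec.snd.comp Primrec.fst)))
          (Primrec.fst.comp (Primrec.fst.comp (Primrec.snd.comp Primrec.fst)))) Primrec.snd)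
      · exact pr_mt_pad.comp (Primrec.pair (Primrec.pair (pr_ilen.comp Primrec.snd)
          (pr_ival.comp Primrec.snd)) (Primrec.fst.comp Primrec.fst))
  exact h

theorem pr_cnt : Primrec (fun q : Par => cnt q.1.1 q.1.2 q.2.1 q.2.2) := by
  have h1 : PrimrecRel (fun (w : ℕ) (q : Par) => pad w ∈ Ws q.1.1 q.1.2 q.2.1 q.2.2) := pr_Ws
  have h2 : Primrec (fun q : Par => List.filter
      (fun w => decide (pad w ∈ Ws q.1.1 q.1.2 q.2.1 q.2.2)) (List.range (2 ^ q.2.1))) :=
    (PrimrecRel.listFilter h1).comp (Primrec.list_range.comp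
      (pr_pow2.comp (Primrec.fst.comp Primrec.snd))) Primrec.id
  exact Primrec.list_length.comp h2

theorem pr_good : Primrec (fun q : Par => good q.1.1 q.1.2 q.2.1 q.2.2) := by
  have h1 : PrimrecPred (fun q : Par => cnt q.1.1 q.1.2 q.2.1 q.2.2 * 2 ^ (q.1.1 + 2) ≤
      2 ^ q.2.1) := by
    refine Primrec.nat_le.comp (Primrec.nat_mul.comp pr_cnt (pr_pow2.comp
      (Primrec.nat_add.comp (Primrec.fst.comp Primrec.fst) (Primrec.const 2)))) ?_
    exact pr_pow2.comp (Primrec.fst.comp Primrec.snd)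
  exact h1.decide

attribute [local irreducible] good

theorem pr_uev : Primrec₂ uev := by
  have he : Primrec (fun q : ℕ × ℕ => q.1.unpair.1) := pr_up1.comp Primrec.fst
  have hn : Primrec (fun q : ℕ × ℕ => q.1.unpair.2.unpair.1) :=
    pr_up1.comp (pr_up2.comp Primrec.fst)
  have hj : Primrec (fun q : ℕ × ℕ => q.1.unpair.2.unpair.2) :=
    pr_up2.comp (pr_up2.comp Primrec.fst)
  have hJ : Primrec (fun q : ℕ × ℕ => q.2.unpair.1) := pr_up1.comp Primrec.snd
  have hk : Primrec (fun q : ℕ × ℕ => q.2.unpair.2) := pr_up2.comp Primrec.snd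
  refine Primrec.and.comp ?_ (Primrec.and.comp ?_ (Primrec.and.comp ?_ (Primrec.or.comp ?_ ?_)))
  · exact (Primrec.nat_le.comp hn (pr_lev.comp hj)).decide
  · exact pr_alive.comp (Primrec.pair (Primrec.pair Primrec.snd he) hj)
  · exact pr_good.comp (Primrec.pair (Primrec.pair he hn) (Primrec.pair hJ hk))
  · exact (Primrec.eq.comp hk (Primrec.const 0)).decide
  · exact Primrec.not.comp (pr_good.comp (Primrec.pair (Primrec.pair he hn) (Primrec.pair hJ
      (Primrec.nat_sub.comp hk (Primrec.const 1)))))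

attribute [local irreducible] uev

theorem pr_ee : Primrec (fun q : (ℕ × ℕ) × ℕ => ee q.1.1 q.1.2 q.2) := by
  have hk : Primrec (fun q : (ℕ × ℕ) × ℕ => q.1.1) := Primrec.fst.comp Primrec.fst
  have hd : Primrec (fun q : (ℕ × ℕ) × ℕ => q.1.2) := Primrec.snd.comp Primrec.fst
  have hj : Primrec (fun q : (ℕ × ℕ) × ℕ => q.2) := Primrec.snd
  have hkk := Primrec.nat_mul.comp hk hk
  have hj2 := Primrec.nat_div.comp hj (Primrec.const 2)
  have h2 : Primrec (fun _ : (ℕ × ℕ) × ℕ => 2) := Primrec.const 2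
  have h1 : Primrec (fun _ : (ℕ × ℕ) × ℕ => 1) := Primrec.const 1
  unfold ee
  refine Primrec.ite (Primrec.eq.comp (Primrec.nat_mod.comp hj h2) (Primrec.const 0)) ?_ ?_
  · refine Primrec.ite (Primrec.nat_lt.comp hj2 hkk) hj ?_
    refine Primrec.ite (Primrec.nat_lt.comp hj2 (Primrec.nat_add.comp hkk hd)) ?_ ?_
    · exact Primrec.nat_add.comp (Primrec.nat_mul.comp h2 (Primrec.nat_add.comp
        (Primrec.nat_sub.comp hk hd) (Primrec.nat_sub.comp hj2 hkk))) h1
    · exact Primrec.nat_mul.comp h2 (Primrec.nat_sub.comp hj2 hd)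
  · refine Primrec.ite (Primrec.nat_lt.comp hj2 (Primrec.nat_sub.comp hk hd)) hj ?_
    exact Primrec.nat_add.comp (Primrec.nat_mul.comp h2 (Primrec.nat_add.comp hj2 hd)) h1

/-- composition of the permutations, last stage first -/
def perm (ds : List ℕ) (t : ℕ) : ℕ :=
  (ds.foldl (fun (s : ℕ × ℕ) d => (s.1 - 1, ee (s.1 - 1) d s.2)) (ds.length, t)).2

theorem perm_nil (t : ℕ) : perm [] t = t := rfl

theorem perm_cons (d : ℕ) (ds : List ℕ) (t : ℕ) :
    perm (d :: ds) t = perm ds (ee ds.length d t) := by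
  unfold perm
  rw [List.foldl_cons, List.length_cons, Nat.add_sub_cancel]

theorem pr_perm : Primrec₂ perm := by
  have h : Primrec (fun q : List ℕ × ℕ =>
      (q.1.foldl (fun (s : ℕ × ℕ) d => (s.1 - 1, ee (s.1 - 1) d s.2)) (q.1.length, q.2)).2) := by
    refine Primrec.snd.comp (Primrec.list_foldl (h := fun _ (r : (ℕ × ℕ) × ℕ) =>
      (r.1.1 - 1, ee (r.1.1 - 1) r.2 r.1.2)) Primrec.fst
      (Primrec.pair (Primrec.list_length.comp Primrec.fst) Primrec.snd) ?_)
    have hs : Primrec (fun q : (List ℕ × ℕ) × ((ℕ × ℕ) × ℕ) => q.2.1.1 - 1) :=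
      Primrec.nat_sub.comp (Primrec.fst.comp (Primrec.fst.comp Primrec.snd)) (Primrec.const 1)
    exact Primrec.pair hs (pr_ee.comp (Primrec.pair (Primrec.pair hs
      (Primrec.snd.comp Primrec.snd)) (Primrec.snd.comp (Primrec.fst.comp Primrec.snd))))
  exact h

/-- the computed index -/
def pk (k : ℕ) (ds : List ℕ) (v : ℕ) : ℕ :=
  (List.range k).findIdx (fun i => uev i k &&
    decide (∀ t < ulen i, v.testBit (perm ds t) = (uval i).testBit t))

theorem pr_pk : Primrec (fun q : (ℕ × List ℕ) × ℕ => pk q.1.1 q.1.2 q.2) := by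
  refine Primrec.list_findIdx (f := fun q : (ℕ × List ℕ) × ℕ => List.range q.1.1)
    (p := fun (q : (ℕ × List ℕ) × ℕ) i => uev i q.1.1 &&
    decide (∀ t < ulen i, q.2.testBit (perm q.1.2 t) = (uval i).testBit t)) ?_ ?_
  · exact Primrec.list_range.comp (Primrec.fst.comp Primrec.fst)
  · refine Primrec.and.comp ?_ ?_
    · exact pr_uev.comp Primrec.snd (Primrec.fst.comp (Primrec.fst.comp Primrec.fst))
    · refine PrimrecPred.decide ?_
      refine pr_all_lt (α := ((ℕ × List ℕ) × ℕ) × ℕ) (f := fun q => ulen q.2)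
        (R := fun q t => q.1.2.testBit (perm q.1.1.2 t) = (uval q.2).testBit t)
        (pr_ulen.comp Primrec.snd) ?_
      refine Primrec.eq.comp ?_ ?_
      · refine pr_testBit.comp (Primrec.snd.comp (Primrec.fst.comp Primrec.fst)) ?_
        exact pr_perm.comp (Primrec.snd.comp (Primrec.fst.comp (Primrec.fst.comp Primrec.fst)))
          Primrec.snd
      · exact pr_testBit.comp (pr_uval.comp (Primrec.snd.comp Primrec.fst)) Primrec.snd

/-- the list of moves, last first -/
def dsl (v : ℕ) (k : ℕ) : List ℕ :=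
  Nat.rec [] (fun k ds => (k - pk k ds v) :: ds) k

theorem dsl_succ (v k : ℕ) : dsl v (k + 1) = (k - pk k (dsl v k) v) :: dsl v k := rfl

theorem dsl_length (v k : ℕ) : (dsl v k).length = k := by
  induction k with
  | zero => rfl
  | succ k ih => rw [dsl_succ, List.length_cons, ih]

theorem pr_dsl : Primrec₂ dsl := by
  have h : Primrec (fun q : ℕ × ℕ =>
      (Nat.rec [] (fun k ds => (k - pk k ds q.1) :: ds) q.2 : List ℕ)) := by
    refine Primrec.nat_rec' (f := fun q : ℕ × ℕ => q.2) (g := fun _ => ([] : List ℕ))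
      (h := fun (q : ℕ × ℕ) (r : ℕ × List ℕ) => (r.1 - pk r.1 r.2 q.1) :: r.2)
      Primrec.snd (Primrec.const []) ?_
    refine Primrec.list_cons.comp ?_ (Primrec.snd.comp Primrec.snd)
    refine Primrec.nat_sub.comp (Primrec.fst.comp Primrec.snd) ?_
    exact pr_pk.comp (Primrec.pair Primrec.snd (Primrec.fst.comp Primrec.fst))
  exact h

theorem Th_pad (v k : ℕ) : ∀ t, US.Th k (pad v) t = v.testBit (perm (dsl v k) t) := by
  induction k with
  | zero => intro t; rfl
  | succ k ih =>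
    intro t
    have hp : US.p k (US.Th k (pad v)) = pk k (dsl v k) v := by
      unfold Sys.p pk
      congr 1
      funext i
      unfold Sys.hit
      rw [US_ev, US_len, US_val]
      congr 1
      apply decide_eq_decide.mpr
      unfold mt
      simp only [ih]
    rw [Sys.Th_succ, Sys.S, hp, ih, dsl_succ, perm_cons, dsl_length]

theorem P_pad (v k : ℕ) : US.P k (pad v) = pk k (dsl v k) v := by
  unfold Sys.P Sys.p pk
  congr 1
  funext i
  unfold Sys.hit
  rw [US_ev, US_len, US_val]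
  congr 1
  apply decide_eq_decide.mpr
  unfold mt
  simp only [Th_pad]

theorem pr_Th : Primrec (fun q : (ℕ × ℕ) × ℕ => US.Th q.1.1 (pad q.1.2) q.2) := by
  have h : Primrec (fun q : (ℕ × ℕ) × ℕ => q.1.2.testBit (perm (dsl q.1.2 q.1.1) q.2)) :=
    pr_testBit.comp (Primrec.snd.comp Primrec.fst) (pr_perm.comp
      (pr_dsl.comp (Primrec.snd.comp Primrec.fst) (Primrec.fst.comp Primrec.fst)) Primrec.snd)
  exact h.of_eq (fun q => (Th_pad _ _ _).symm)

theorem pr_P : Primrec₂ (fun k v : ℕ => US.P k (pad v)) := by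
  have h : Primrec (fun q : ℕ × ℕ => pk q.1 (dsl q.2 q.1) q.2) :=
    pr_pk.comp (Primrec.pair (Primrec.pair Primrec.fst (pr_dsl.comp Primrec.snd Primrec.fst))
      Primrec.snd)
  exact h.of_eq (fun q => (P_pad _ _).symm)

theorem pr_F : Primrec₂ (fun v n : ℕ => US.F (pad v) n) := by
  have h : Primrec (fun q : ℕ × ℕ => US.Th (q.2 + 1) (pad q.1) (2 * q.2)) :=
    pr_Th.comp (Primrec.pair (Primrec.pair (Primrec.succ.comp Primrec.snd) Primrec.fst)
      (Primrec.nat_mul.comp (Primrec.const 2) Primrec.snd))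
  exact h

theorem pr_sum : Primrec (List.sum : List ℕ → ℕ) := by
  have h : Primrec (fun l : List ℕ => l.foldr (fun b s => b + s) 0) :=
    Primrec.list_foldr (h := fun _ (r : ℕ × ℕ) => r.1 + r.2) Primrec.id (Primrec.const 0)
      (Primrec.nat_add.comp (Primrec.fst.comp Primrec.snd) (Primrec.snd.comp Primrec.snd))
  exact h.of_eq (fun l => rfl)

theorem pr_An : Primrec₂ An := by
  have h : Primrec (fun q : ℕ × ℕ => ((List.range q.1).map (fun t =>
    if q.2.testBit t then 2 ^ (2 * q.1 - t - 1) + 3 * 2 ^ (2 * q.1 - 2 * t - 2) else 0)).sum) := by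
    refine pr_sum.comp (Primrec.list_map (Primrec.list_range.comp Primrec.fst) ?_)
    have h2N : Primrec (fun q : (ℕ × ℕ) × ℕ => 2 * q.1.1) :=
      Primrec.nat_mul.comp (Primrec.const 2) (Primrec.fst.comp Primrec.fst)
    have ht : Primrec (fun q : (ℕ × ℕ) × ℕ => q.2) := Primrec.snd
    refine Primrec.ite (pr_eqtrue (pr_testBit.comp (Primrec.snd.comp Primrec.fst) ht)) ?_
      (Primrec.const 0)
    refine Primrec.nat_add.comp ?_ ?_
    · exact pr_pow2.comp (Primrec.nat_sub.comp (Primrec.nat_sub.comp h2N ht) (Primrec.const 1))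
    · refine Primrec.nat_mul.comp (Primrec.const 3) ?_
      exact pr_pow2.comp (Primrec.nat_sub.comp (Primrec.nat_sub.comp h2N
        (Primrec.nat_mul.comp (Primrec.const 2) ht)) (Primrec.const 2))
  exact h

theorem pr_inB : Primrec (fun q : (ℕ × ℕ) × ℕ => inB q.1.1 q.1.2 q.2) := by
  have hN : Primrec (fun q : (ℕ × ℕ) × ℕ => q.1.1) := Primrec.fst.comp Primrec.fst
  have hA : Primrec (fun q : (ℕ × ℕ) × ℕ => An q.1.1 q.1.2) :=
    pr_An.comp hN (Primrec.snd.comp Primrec.fst)
  have hP : Primrec (fun q : (ℕ × ℕ) × ℕ => 2 ^ (2 * q.1.1 + 1)) :=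
    pr_pow2.comp (Primrec.nat_add.comp (Primrec.nat_mul.comp (Primrec.const 2) hN)
      (Primrec.const 1))
  have hi1 : Primrec (fun q : (ℕ × ℕ) × ℕ => q.2.unpair.1) := pr_up1.comp Primrec.snd
  have hi2 : Primrec (fun q : (ℕ × ℕ) × ℕ => 2 ^ q.2.unpair.2) :=
    pr_pow2.comp (pr_up2.comp Primrec.snd)
  refine Primrec.and.comp (PrimrecPred.decide ?_) (PrimrecPred.decide ?_)
  · exact Primrec.nat_lt.comp (Primrec.nat_mul.comp hi1 hP)
      (Primrec.nat_add.comp (Primrec.nat_mul.comp hA hi2) hP)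
  · exact Primrec.nat_lt.comp (Primrec.nat_mul.comp (Primrec.nat_add.comp (Primrec.nat_add.comp hA
      (pr_pow2.comp hN)) (Primrec.const 1)) hi2)
      (Primrec.nat_mul.comp (Primrec.nat_add.comp hi1 (Primrec.const 1)) hP)

attribute [local irreducible] inB ient

theorem pr_DD : PrimrecPred DD := by
  unfold DD
  have hk1 : Primrec (fun j => ik j + 1) := Primrec.nat_add.comp pr_ik (Primrec.const 1)
  refine PrimrecPred.and ?_ (PrimrecPred.and ?_ ?_)
  · exact Primrec.nat_le.comp (Primrec.nat_mul.comp (Primrec.const 2)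
      (Primrec.nat_mul.comp hk1 hk1)) pr_ilen
  · unfold mt
    refine pr_all_lt (f := ilen) (R := fun j t => US.Th (ik j + 1) (pad (iv j)) t =
      (ival j).testBit t) pr_ilen ?_
    refine Primrec.eq.comp ?_ (pr_testBit.comp (pr_ival.comp Primrec.fst) Primrec.snd)
    exact pr_Th.comp (Primrec.pair (Primrec.pair (hk1.comp Primrec.fst)
      (pr_iv.comp Primrec.fst)) Primrec.snd)
  · refine pr_all_lt (f := fun j => lev j + 1)
      (R := fun j l => inB (2 * ik j) (iv j) (ient (iL j) l).unpair.1 = true)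
      (Primrec.nat_add.comp pr_lev (Primrec.const 1)) (pr_eqtrue ?_)
    refine pr_inB.comp (Primrec.pair (Primrec.pair ?_ (pr_iv.comp Primrec.fst)) ?_)
    · exact Primrec.nat_mul.comp (Primrec.const 2) (pr_ik.comp Primrec.fst)
    · exact pr_up1.comp (pr_ient.comp (pr_iL.comp Primrec.fst) Primrec.snd)

theorem pr_RR : PrimrecRel RR := by
  have h : PrimrecPred (fun q : ℕ × ℕ => ik q.1 < q.2 → ∀ i < US.P (ik q.1) (pad (iv q.1)) + 1,
      uev i q.2 = true → ¬ mt (ulen i) (uval i) (pad (ival q.1))) := by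
    refine pr_imp (Primrec.nat_lt.comp (pr_ik.comp Primrec.fst) Primrec.snd) ?_
    refine pr_all_lt (f := fun q : ℕ × ℕ => US.P (ik q.1) (pad (iv q.1)) + 1)
      (R := fun q i => uev i q.2 = true → ¬ mt (ulen i) (uval i) (pad (ival q.1))) ?_ ?_
    · exact Primrec.nat_add.comp (pr_P.comp (pr_ik.comp Primrec.fst) (pr_iv.comp Primrec.fst))
        (Primrec.const 1)
    · refine pr_imp (pr_eqtrue (pr_uev.comp Primrec.snd (Primrec.snd.comp Primrec.fst))) ?_
      exact (pr_mt_pad.comp (Primrec.pair (Primrec.pair (pr_ulen.comp Primrec.snd)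
        (pr_uval.comp Primrec.snd)) (pr_ival.comp (Primrec.fst.comp Primrec.fst)))).not
  exact h

/-- a program that removes exactly the bad items -/
theorem exists_code_Alv {S : ℕ → ℕ → ℕ → ℕ → Bool}
    (hS : Computable (fun q : (ℕ × ℕ) × (ℕ × ℕ) => S q.1.1 q.1.2 q.2.1 q.2.2)) :
    ∃ e, ∀ j, Alive e j ↔ Alv S j := by
  classical
  -- the matrix
  let T : ℕ → ℕ → Bool := fun j c =>
    decide (DD j) && ((decide (lev j + 1 ≤ c.unpair.1) ||
      S c.unpair.1 (ient (iL j) c.unpair.1).unpair.1 (ient (iL j) c.unpair.1).unpair.2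
        c.unpair.2) && decide (RR j c))
  have hT : Computable₂ T := by
    have h1 : Computable (fun q : ℕ × ℕ => decide (DD q.1)) :=
      (pr_DD.decide.comp Primrec.fst).to_comp
    have h2 : Computable (fun q : ℕ × ℕ => decide (lev q.1 + 1 ≤ q.2.unpair.1)) :=
      (Primrec.nat_le.comp (Primrec.nat_add.comp (pr_lev.comp Primrec.fst) (Primrec.const 1))
        (pr_up1.comp Primrec.snd)).decide.to_comp
    have h3 : Primrec (fun q : ℕ × ℕ => ient (iL q.1) q.2.unpair.1) :=
      pr_ient.comp (pr_iL.comp Primrec.fst) (pr_up1.comp Primrec.snd)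
    have h4 : Computable (fun q : ℕ × ℕ => S q.2.unpair.1 (ient (iL q.1) q.2.unpair.1).unpair.1
        (ient (iL q.1) q.2.unpair.1).unpair.2 q.2.unpair.2) :=
      hS.comp ((Primrec.pair (Primrec.pair (pr_up1.comp Primrec.snd) (pr_up1.comp h3))
        (Primrec.pair (pr_up2.comp h3) (pr_up2.comp Primrec.snd))).to_comp)
    have h5 : Computable (fun q : ℕ × ℕ => decide (RR q.1 q.2)) := pr_RR.decide.to_comp
    exact (Primrec.and.to_comp).comp h1 ((Primrec.and.to_comp).comp
      ((Primrec.or.to_comp).comp h2 h4) h5)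
  have hTA : ∀ j, Alv S j ↔ ∀ c, T j c = true := by
    intro j
    simp only [T, Bool.and_eq_true, Bool.or_eq_true, decide_eq_true_eq]
    constructor
    · rintro ⟨h1, h2, h3⟩ c
      refine ⟨h1, ?_, h3 c⟩
      rcases lt_or_ge c.unpair.1 (lev j + 1) with h | h
      · exact Or.inr (h2 _ h _)
      · exact Or.inl h
    · intro h
      refine ⟨(h 0).1, fun l hl c => ?_, fun c => (h c).2.2⟩
      have := (h (Nat.pair l c)).2.1
      rw [Nat.unpair_pair] at this
      rcases this with h1 | h1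
      · simp only at h1; omega
      · exact h1
  have hpart : Partrec (fun j : ℕ => Nat.rfind (fun c => Part.some (!(T j c)))) := by
    refine Partrec.rfind ?_
    exact ((Primrec.not.to_comp).comp₂ hT).partrec₂
  obtain ⟨c, hc⟩ := Nat.Partrec.Code.exists_code.mp (Partrec.nat_iff.mp hpart)
  refine ⟨Encodable.encode c, fun j => ?_⟩
  unfold Alive
  rw [Denumerable.ofNat_encode, hc, hTA]
  have hdom : (Nat.rfind (fun c => Part.some (!(T j c)) : ℕ →. Bool)).Dom ↔ ∃ c, T j c = false := by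
    refine Nat.rfind_dom'.trans ?_
    constructor
    · rintro ⟨c, hc, _⟩
      have hc' := Part.mem_some_iff.mp hc
      exact ⟨c, by simpa using hc'.symm⟩
    · rintro ⟨c, hc⟩
      refine ⟨c, Part.mem_some_iff.mpr (by simp [hc]), fun _ => trivial⟩
  refine (not_congr hdom).trans ?_
  push Not
  simp only [Bool.not_eq_false, ne_eq]

end Pool.Agent.H661.Luzin
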