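import Mathlib

/-!
# The finite-injury process behind a computable function that fails Luzin's (N)
(combinatorial part)

A point of `Seq = ℕ → Bool` is split in its even part (`y`-part) and its odd part (`r`-part).
At stage `k` we compute an index `p = p k z ≤ k` and insert the `r`-bits `p, …, k-1` in the
`y`-part at position `k * k`.
-/

namespace Pool.Agent.H661.Luzin

/-- Infinite binary sequences. -/
abbrev Seq := ℕ → Bool

/-- `mt N v z`: the first `N` bits of `z` are the first `N` binary digits of `v`. -/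
def mt (N v : ℕ) (z : Seq) : Prop := ∀ t < N, z t = v.testBit t

instance (N v : ℕ) (z : Seq) : Decidable (mt N v z) := by unfold mt; infer_instance

/-- A list of timed events, each with a cylinder `(len i, val i)`. -/
structure Sys where
  /-- event `i` fires at stage `k` -/
  ev : ℕ → ℕ → Bool
  /-- length of the `i`-th cylinder -/
  len : ℕ → ℕ
  /-- digits of the `i`-th cylinder -/
  val : ℕ → ℕ
  /-- the `i`-th cylinder has length at most `i` -/
  len_le : ∀ i, len i ≤ i

/-- The coordinate permutation used at stage `k` with `d = k - p` moved bits. -/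
def ee (k d j : ℕ) : ℕ :=
  if j % 2 = 0 then
    (if j / 2 < k * k then j
      else if j / 2 < k * k + d then 2 * (k - d + (j / 2 - k * k)) + 1
      else 2 * (j / 2 - d))
  else (if j / 2 < k - d then j else 2 * (j / 2 + d) + 1)

/-- The inverse permutation. -/
def eei (k d j : ℕ) : ℕ :=
  if j % 2 = 0 then (if j / 2 < k * k then j else 2 * (j / 2 + d))
  else (if j / 2 < k - d then j
    else if j / 2 < k then 2 * (k * k + j / 2 - (k - d)) else 2 * (j / 2 - d) + 1)

theorem ee_even (k d n : ℕ) : ee k d (2 * n) = if n < k * k then 2 * n else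
    if n < k * k + d then 2 * (k - d + (n - k * k)) + 1 else 2 * (n - d) := by
  have h1 : 2 * n % 2 = 0 := by omega
  have h2 : 2 * n / 2 = n := by omega
  simp only [ee, h1, h2, if_true]

theorem ee_odd (k d n : ℕ) : ee k d (2 * n + 1) =
    if n < k - d then 2 * n + 1 else 2 * (n + d) + 1 := by
  have h1 : (2 * n + 1) % 2 ≠ 0 := by omega
  have h2 : (2 * n + 1) / 2 = n := by omega
  simp only [ee, h1, h2, if_false]

theorem eei_even (k d n : ℕ) : eei k d (2 * n) =
    if n < k * k then 2 * n else 2 * (n + d) := by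
  have h1 : 2 * n % 2 = 0 := by omega
  have h2 : 2 * n / 2 = n := by omega
  simp only [eei, h1, h2, if_true]

theorem eei_odd (k d n : ℕ) : eei k d (2 * n + 1) =
    if n < k - d then 2 * n + 1 else if n < k then 2 * (k * k + n - (k - d))
      else 2 * (n - d) + 1 := by
  have h1 : (2 * n + 1) % 2 ≠ 0 := by omega
  have h2 : (2 * n + 1) / 2 = n := by omega
  simp only [eei, h1, h2, if_false]

theorem ee_eei {k d : ℕ} (h : d ≤ k) (j : ℕ) : ee k d (eei k d j) = j := by
  rcases Nat.even_or_odd' j with ⟨n, rfl | rfl⟩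
  · rw [eei_even]
    by_cases h1 : n < k * k
    · rw [if_pos h1, ee_even, if_pos h1]
    · rw [if_neg h1, ee_even, if_neg (by omega), if_neg (by omega)]; congr 1; omega
  · rw [eei_odd]
    by_cases h1 : n < k - d
    · rw [if_pos h1, ee_odd, if_pos h1]
    · rw [if_neg h1]
      by_cases h2 : n < k
      · rw [if_pos h2, ee_even, if_neg (by omega), if_pos (by omega)]; congr 2; omega
      · rw [if_neg h2, ee_odd, if_neg (by omega)]; congr 2; omega

theorem eei_ee {k d : ℕ} (h : d ≤ k) (j : ℕ) : eei k d (ee k d j) = j := by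
  rcases Nat.even_or_odd' j with ⟨n, rfl | rfl⟩
  · rw [ee_even]
    by_cases h1 : n < k * k
    · rw [if_pos h1, eei_even, if_pos h1]
    · rw [if_neg h1]
      by_cases h2 : n < k * k + d
      · rw [if_pos h2, eei_odd, if_neg (by omega), if_pos (by omega)]; congr 1; omega
      · rw [if_neg h2, eei_even, if_neg (by omega)]; congr 1; omega
  · rw [ee_odd]
    by_cases h1 : n < k - d
    · rw [if_pos h1, eei_odd, if_pos h1]
    · rw [if_neg h1, eei_odd, if_neg (by omega), if_neg (by omega)]; congr 2; omega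

theorem ee_of_lt {k d j : ℕ} (h : j < k - d) : ee k d j = j := by
  rcases Nat.even_or_odd' j with ⟨n, rfl | rfl⟩
  · rw [ee_even, if_pos]
    have : k ≤ k * k := Nat.le_mul_self k
    omega
  · rw [ee_odd, if_pos (by omega)]

theorem eei_of_lt {k d j : ℕ} (h : j < k - d) : eei k d j = j := by
  rcases Nat.even_or_odd' j with ⟨n, rfl | rfl⟩
  · rw [eei_even, if_pos]
    have : k ≤ k * k := Nat.le_mul_self k
    omega
  · rw [eei_odd, if_pos (by omega)]

theorem ee_le {k d : ℕ} (h : d ≤ k) (j : ℕ) : ee k d j ≤ j + 2 * k + 1 := by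
  rcases Nat.even_or_odd' j with ⟨n, rfl | rfl⟩
  · rw [ee_even]; split_ifs <;> omega
  · rw [ee_odd]; split_ifs <;> omega

/-- `ee k d` as a permutation of `ℕ`. -/
def eeEquiv {k d : ℕ} (h : d ≤ k) : ℕ ≃ ℕ where
  toFun := ee k d
  invFun := eei k d
  left_inv := eei_ee h
  right_inv := ee_eei h

/-- Agreement on the first `a` even and the first `b` odd coordinates. -/
def Ag (a b : ℕ) (z w : Seq) : Prop :=
  (∀ n < a, z (2 * n) = w (2 * n)) ∧ (∀ n < b, z (2 * n + 1) = w (2 * n + 1))

theorem Ag.refl (a b : ℕ) (z : Seq) : Ag a b z z := ⟨fun _ _ => rfl, fun _ _ => rfl⟩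

theorem Ag.symm {a b : ℕ} {z w : Seq} (h : Ag a b z w) : Ag a b w z :=
  ⟨fun n hn => (h.1 n hn).symm, fun n hn => (h.2 n hn).symm⟩

theorem Ag.trans {a b : ℕ} {z w u : Seq} (h : Ag a b z w) (h' : Ag a b w u) : Ag a b z u :=
  ⟨fun n hn => (h.1 n hn).trans (h'.1 n hn), fun n hn => (h.2 n hn).trans (h'.2 n hn)⟩

theorem Ag.mono {a b a' b' : ℕ} {z w : Seq} (h : Ag a b z w) (ha : a' ≤ a) (hb : b' ≤ b) :
    Ag a' b' z w :=
  ⟨fun n hn => h.1 n (by omega), fun n hn => h.2 n (by omega)⟩

theorem Ag.lt {a : ℕ} {z w : Seq} (h : Ag a a z w) : ∀ t < 2 * a, z t = w t := by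
  intro t ht
  rcases Nat.even_or_odd' t with ⟨n, rfl | rfl⟩
  · exact h.1 n (by omega)
  · exact h.2 n (by omega)

theorem Ag.lt' {a b c : ℕ} {z w : Seq} (h : Ag a b z w) (ha : c ≤ 2 * a) (hb : c ≤ 2 * b) :
    ∀ t < c, z t = w t := by
  intro t ht
  rcases Nat.even_or_odd' t with ⟨n, rfl | rfl⟩
  · exact h.1 n (by omega)
  · exact h.2 n (by omega)

theorem Ag.of_lt {a : ℕ} {z w : Seq} (h : ∀ t < 2 * a, z t = w t) : Ag a a z w :=
  ⟨fun n hn => h _ (by omega), fun n hn => h _ (by omega)⟩

theorem mt_congr {N v : ℕ} {z w : Seq} (h : ∀ t < N, z t = w t) : mt N v z ↔ mt N v w := by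
  constructor
  · intro h1 t ht; rw [← h t ht]; exact h1 t ht
  · intro h1 t ht; rw [h t ht]; exact h1 t ht

namespace Sys

variable (Y : Sys)

/-- event `i` fires at stage `k` and the point is in its cylinder -/
def hit (i k : ℕ) (z : Seq) : Bool := Y.ev i k && decide (mt (Y.len i) (Y.val i) z)

/-- the least `i < k` such that event `i` fires at stage `k` with `z` in its cylinder
(`k` if there is none) -/
def p (k : ℕ) (z : Seq) : ℕ := (List.range k).findIdx (fun i => Y.hit i k z)

theorem p_le (k : ℕ) (z : Seq) : Y.p k z ≤ k := by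
  have := List.findIdx_le_length (p := fun i => Y.hit i k z) (xs := List.range k)
  rwa [List.length_range] at this

theorem hit_p {k : ℕ} {z : Seq} (h : Y.p k z < k) : Y.hit (Y.p k z) k z = true := by
  have h' : (List.range k).findIdx (fun i => Y.hit i k z) < (List.range k).length := by
    rw [List.length_range]; exact h
  have := List.findIdx_getElem (w := h')
  rw [List.getElem_range] at this
  exact this

theorem not_hit_of_lt {k i : ℕ} {z : Seq} (h : i < Y.p k z) : Y.hit i k z = false := by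
  have := List.not_of_lt_findIdx (p := fun i => Y.hit i k z) (xs := List.range k) h
  rw [List.getElem_range] at this
  simpa using this

theorem p_le_of_hit {k i : ℕ} {z : Seq} (h : Y.hit i k z = true) : Y.p k z ≤ i := by
  by_contra hc
  push Not at hc
  rw [Y.not_hit_of_lt hc] at h
  exact absurd h (by simp)

theorem le_p {k q : ℕ} {z : Seq} (hq : q ≤ k) (h : ∀ i < q, Y.hit i k z = false) :
    q ≤ Y.p k z := by
  by_contra hc
  push Not at hc
  have := Y.hit_p (k := k) (z := z) (by omega)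
  rw [h _ hc] at this
  exact absurd this (by simp)

theorem hit_congr {i k : ℕ} {z w : Seq} (h : ∀ t < i, z t = w t) : Y.hit i k z = Y.hit i k w := by
  unfold hit
  congr 1
  have := mt_congr (N := Y.len i) (v := Y.val i) (z := z) (w := w)
    (fun t ht => h t (lt_of_lt_of_le ht (Y.len_le i)))
  simp only [this]

theorem p_congr {k : ℕ} {z w : Seq} (h : ∀ t < Y.p k z, z t = w t) : Y.p k w = Y.p k z := by
  apply le_antisymm
  · rcases (Y.p_le k z).lt_or_eq with h1 | h1
    · apply Y.p_le_of_hit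
      rw [← Y.hit_congr h]
      exact Y.hit_p h1
    · rw [h1]; exact Y.p_le k w
  · apply Y.le_p (Y.p_le k z)
    intro i hi
    rw [← Y.hit_congr (fun t ht => h t (ht.trans hi))]
    exact Y.not_hit_of_lt hi

/-- one step of the process -/
def S (k : ℕ) (z : Seq) : Seq := fun j => z (ee k (k - Y.p k z) j)

/-- the inverse of a step -/
def Si (k : ℕ) (z : Seq) : Seq := fun j => z (eei k (k - Y.p k z) j)

theorem p_S (k : ℕ) (z : Seq) : Y.p k (Y.S k z) = Y.p k z := by
  apply Y.p_congr
  intro t ht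
  have h1 := Y.p_le k z
  unfold S
  rw [ee_of_lt (by omega)]

theorem p_Si (k : ℕ) (z : Seq) : Y.p k (Y.Si k z) = Y.p k z := by
  apply Y.p_congr
  intro t ht
  have h1 := Y.p_le k z
  unfold Si
  rw [eei_of_lt (by omega)]

theorem S_Si (k : ℕ) (z : Seq) : Y.S k (Y.Si k z) = z := by
  funext j
  rw [S, p_Si, Si, eei_ee (Nat.sub_le _ _)]

theorem Si_S (k : ℕ) (z : Seq) : Y.Si k (Y.S k z) = z := by
  funext j
  rw [Si, p_S, S, ee_eei (Nat.sub_le _ _)]

/-- one step keeps the first `k * k` even bits and the first `p` odd bits -/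
theorem S_keep (k : ℕ) (z : Seq) : Ag (k * k) (Y.p k z) z (Y.S k z) := by
  have h1 := Y.p_le k z
  refine ⟨fun n hn => ?_, fun n hn => ?_⟩
  · rw [S, ee_even, if_pos hn]
  · rw [S, ee_odd, if_pos (by omega)]

theorem fwd_step {k a b : ℕ} {z w : Seq} (h : Ag a b z w) (ha : k * k ≤ a) (hb : k ≤ b) :
    Y.p k w = Y.p k z ∧
      Ag (a + (k - Y.p k z)) (b - (k - Y.p k z)) (Y.S k z) (Y.S k w) := by
  have hk : k ≤ k * k := Nat.le_mul_self k
  have hp := Y.p_le k z
  have hpw : Y.p k w = Y.p k z :=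
    Y.p_congr (h.lt' (by omega) (by omega))
  refine ⟨hpw, fun n hn => ?_, fun n hn => ?_⟩
  · simp only [S, hpw]
    rw [ee_even]
    split_ifs with h1 h2
    · exact h.1 _ (by omega)
    · exact h.2 _ (by omega)
    · exact h.1 _ (by omega)
  · simp only [S, hpw]
    rw [ee_odd]
    split_ifs with h1
    · exact h.2 _ (by omega)
    · exact h.2 _ (by omega)

theorem bwd_step {k a b : ℕ} {x v : Seq} (h : Ag a b (Y.S k x) (Y.S k v))
    (ha : k * k + (k - Y.p k x) ≤ a) (hb : Y.p k x ≤ b) :
    Y.p k v = Y.p k x ∧ Ag (a - (k - Y.p k x)) (b + (k - Y.p k x)) x v := by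
  have hk : k ≤ k * k := Nat.le_mul_self k
  have hp := Y.p_le k x
  have hpv : Y.p k v = Y.p k x := by
    rw [← Y.p_S k v, ← Y.p_S k x]
    apply Y.p_congr
    rw [Y.p_S k x]
    exact h.lt' (by omega) (by omega)
  have hx : ∀ j, x j = Y.S k x (eei k (k - Y.p k x) j) := by
    intro j
    rw [S, ee_eei (Nat.sub_le _ _)]
  have hv : ∀ j, v j = Y.S k v (eei k (k - Y.p k x) j) := by
    intro j
    rw [S, hpv, ee_eei (Nat.sub_le _ _)]
  refine ⟨hpv, fun n hn => ?_, fun n hn => ?_⟩
  · rw [hx, hv, eei_even]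
    split_ifs with h1
    · exact h.1 _ (by omega)
    · exact h.1 _ (by omega)
  · rw [hx, hv, eei_odd]
    split_ifs with h1 h2
    · exact h.2 _ (by omega)
    · exact h.1 _ (by omega)
    · exact h.2 _ (by omega)

/-- The state after the stages `0, …, k-1`. -/
def Th : ℕ → Seq → Seq
  | 0, x => x
  | k + 1, x => Y.S k (Th k x)

@[simp] theorem Th_zero (x : Seq) : Y.Th 0 x = x := rfl

theorem Th_succ (k : ℕ) (x : Seq) : Y.Th (k + 1) x = Y.S k (Y.Th k x) := rfl

/-- The inverse of `Th k`. -/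
def Ps : ℕ → Seq → Seq
  | 0, z => z
  | k + 1, z => Ps k (Y.Si k z)

theorem Th_Ps (k : ℕ) (z : Seq) : Y.Th k (Y.Ps k z) = z := by
  induction k generalizing z with
  | zero => rfl
  | succ k ih => rw [Th_succ, Ps, ih, S_Si]

theorem Th_injective (k : ℕ) : Function.Injective (Y.Th k) := by
  induction k with
  | zero => exact fun _ _ h => h
  | succ k ih =>
    intro x y h
    rw [Th_succ, Th_succ] at h
    apply ih
    rw [← Y.Si_S k (Y.Th k x), h, Si_S]

/-- `P k x`: the index computed at stage `k` from input `x` -/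
def P (k : ℕ) (x : Seq) : ℕ := Y.p k (Y.Th k x)

theorem P_le (k : ℕ) (x : Seq) : Y.P k x ≤ k := Y.p_le _ _

theorem forward (k : ℕ) : ∀ (a c : ℕ) (x v : Seq), k * k ≤ a → Ag a (k * k + c) x v →
    (∀ j < k, Y.P j v = Y.P j x) ∧ Ag a (k + c) (Y.Th k x) (Y.Th k v) := by
  induction k with
  | zero =>
    intro a c x v _ h
    exact ⟨fun j hj => absurd hj (by omega), h.mono le_rfl (by omega)⟩
  | succ k ih =>
    intro a c x v ha h
    have e1 : (k + 1) * (k + 1) = k * k + 2 * k + 1 := by ring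
    obtain ⟨h1, h2⟩ := ih a (2 * k + 1 + c) x v (by omega) (h.mono le_rfl (by omega))
    obtain ⟨h3, h4⟩ := Y.fwd_step (k := k) h2 (by omega) (by omega)
    refine ⟨fun j hj => ?_, ?_⟩
    · rcases Nat.lt_succ_iff_lt_or_eq.mp hj with hj | rfl
      · exact h1 j hj
      · exact h3
    · rw [Th_succ, Th_succ]
      exact h4.mono (by omega) (by omega)

theorem back (k : ℕ) : ∀ (b c : ℕ) (x v : Seq), k ≤ b →
    Ag (k * k + c) b (Y.Th k x) (Y.Th k v) →
    (∀ j < k, Y.P j v = Y.P j x) ∧ Ag (k + c) b x v := by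
  induction k with
  | zero =>
    intro b c x v _ h
    exact ⟨fun j hj => absurd hj (by omega), h.mono (by omega) le_rfl⟩
  | succ k ih =>
    intro b c x v hb h
    have e1 : (k + 1) * (k + 1) = k * k + 2 * k + 1 := by ring
    have hp := Y.p_le k (Y.Th k x)
    rw [Th_succ, Th_succ] at h
    obtain ⟨h1, h2⟩ := Y.bwd_step h (by omega) (by omega)
    obtain ⟨h3, h4⟩ := ih (b + (k - Y.p k (Y.Th k x))) (k + 1 + c) x v (by omega)
      (h2.mono (by omega) le_rfl)
    refine ⟨fun j hj => ?_, h4.mono (by omega) (by omega)⟩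
    rcases Nat.lt_succ_iff_lt_or_eq.mp hj with hj | rfl
    · exact h3 j hj
    · exact h1

theorem trackback {k : ℕ} {x v : Seq}
    (h : Ag (k * k + (k - Y.P k x)) (Y.P k x) (Y.Th (k + 1) x) (Y.Th (k + 1) v)) :
    (∀ j ≤ k, Y.P j v = Y.P j x) ∧ Ag k k x v := by
  have hp := Y.P_le k x
  rw [Th_succ, Th_succ] at h
  unfold P at h hp
  obtain ⟨h1, h2⟩ := Y.bwd_step h le_rfl le_rfl
  obtain ⟨h3, h4⟩ := Y.back k k 0 x v le_rfl (h2.mono (by omega) (by omega))
  refine ⟨fun j hj => ?_, h4⟩
  rcases hj.lt_or_eq with hj | rfl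
  · exact h3 j hj
  · exact h1

theorem hold {k q : ℕ} {x : Seq} : ∀ k', k ≤ k' → (∀ j, k ≤ j → j < k' → q ≤ Y.P j x) →
    Ag (k * k) q (Y.Th k x) (Y.Th k' x) := by
  intro k' hk
  induction k', hk using Nat.le_induction with
  | base => intro _; exact Ag.refl _ _ _
  | succ k' hk ih =>
    intro h
    refine (ih (fun j h1 h2 => h j h1 (by omega))).trans ?_
    rw [Th_succ]
    refine (Y.S_keep k' (Y.Th k' x)).mono (Nat.mul_le_mul hk hk) ?_
    exact h k' hk (by omega)

theorem hold_back {k q : ℕ} {x : Seq} (hq : q ≤ k) : ∀ k', k ≤ k' →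
    (∀ i < q, ∀ j, k ≤ j → j < k' → Y.hit i j (Y.Th k' x) = false) →
    ∀ j, k ≤ j → j < k' → q ≤ Y.P j x := by
  intro k' hk
  induction k', hk using Nat.le_induction with
  | base => intro _ j h1 h2; omega
  | succ k' hk ih =>
    intro h j h1 h2
    have hp : q ≤ Y.P k' x := by
      unfold P
      rw [← Y.p_S, ← Th_succ]
      exact Y.le_p (hq.trans hk) (fun i hi => h i hi k' hk (by omega))
    rcases Nat.lt_succ_iff_lt_or_eq.mp h2 with h2 | rfl
    · refine ih (fun i hi j' h3 h4 => ?_) j h1 h2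
      rw [← h i hi j' h3 (by omega)]
      apply Y.hit_congr
      have := Y.S_keep k' (Y.Th k' x)
      rw [← Th_succ] at this
      have hkk : k' ≤ k' * k' := Nat.le_mul_self k'
      exact this.lt' (by omega) (by unfold P at hp; omega)
    · exact hp

/-- The limit of the even parts. -/
def F (x : Seq) : Seq := fun n => Y.Th (n + 1) x (2 * n)

theorem Th_even {k n : ℕ} (x : Seq) (h : n < k * k) : Y.Th k x (2 * n) = Y.F x n := by
  unfold F
  have e : n < (n + 1) * (n + 1) := by nlinarith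
  rcases le_total k (n + 1) with h1 | h1
  · exact (Y.hold (q := 0) (x := x) (n + 1) h1 (fun _ _ _ => Nat.zero_le _)).1 n h
  · exact ((Y.hold (q := 0) (x := x) k h1 (fun _ _ _ => Nat.zero_le _)).1 n e).symm

theorem F_congr {n : ℕ} {x v : Seq} (h : ∀ t < 2 * ((n + 1) * (n + 1)), x t = v t) :
    Y.F x n = Y.F v n := by
  have := (Y.forward (n + 1) _ 0 x v le_rfl (Ag.of_lt h)).2.1 n (by nlinarith)
  exact this

end Sys

end Pool.Agent.H661.Luzin
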