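import Pool.Agent.H661.Luzin.ProcMeas
import Pool.Agent.H661.Luzin.Digits

/-!
# The universal system of events
-/

open MeasureTheory Set Filter
open scoped ENNReal Topology
open Nat.Partrec (Code)
open Nat.Partrec.Code

namespace Pool.Agent.H661.Luzin

/-- item `j` has not yet been removed at stage `k` by the program `e` -/
def alive (k e j : ℕ) : Bool := (evaln k (Denumerable.ofNat Code e) j).isNone

/-- item `j` is never removed by the program `e` -/
def Alive (e j : ℕ) : Prop := ¬ (eval (Denumerable.ofNat Code e) j).Dom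

theorem alive_anti {k k' e j : ℕ} (h : k ≤ k') (h' : alive k' e j = true) :
    alive k e j = true := by
  unfold alive at *
  rw [Option.isNone_iff_eq_none] at *
  by_contra hc
  obtain ⟨x, hx⟩ := Option.ne_none_iff_exists'.mp hc
  have := evaln_mono h (Option.mem_def.mpr hx)
  rw [h'] at this
  exact absurd this (by simp)

theorem Alive_iff {e j : ℕ} : Alive e j ↔ ∀ k, alive k e j = true := by
  unfold Alive alive
  constructor
  · intro h k
    rw [Option.isNone_iff_eq_none]
    by_contra hc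
    obtain ⟨x, hx⟩ := Option.ne_none_iff_exists'.mp hc
    exact h (Part.dom_iff_mem.mpr ⟨x, evaln_sound (Option.mem_def.mpr hx)⟩)
  · intro h hd
    obtain ⟨x, hx⟩ := Part.dom_iff_mem.mp hd
    obtain ⟨k, hk⟩ := evaln_complete.mp hx
    have := h k
    rw [Option.isNone_iff_eq_none] at this
    rw [this] at hk
    exact absurd hk (by simp)

/-- level of an item -/
def lev (j : ℕ) : ℕ := j.unpair.1
/-- length of the cylinder of an item -/
def ilen (j : ℕ) : ℕ := j.unpair.2.unpair.1.unpair.1
/-- digits of the cylinder of an item -/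
def ival (j : ℕ) : ℕ := j.unpair.2.unpair.1.unpair.2

theorem ilen_le (j : ℕ) : ilen j ≤ j :=
  (Nat.unpair_left_le _).trans ((Nat.unpair_left_le _).trans (Nat.unpair_right_le _))

/-- points in the cylinder of some item `j < J` of level `≥ n` which is alive at stage `k` -/
def Ws (e n J k : ℕ) : Set Seq :=
  {z | ∃ j < J, n ≤ lev j ∧ alive k e j = true ∧ mt (ilen j) (ival j) z}

instance (e n J k : ℕ) : DecidablePred (fun z : Seq => z ∈ Ws e n J k) := fun z =>
  inferInstanceAs (Decidable (∃ j < J, n ≤ lev j ∧ alive k e j = true ∧ mt (ilen j) (ival j) z))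

/-- number of strings of length `J` in `Ws` -/
def cnt (e n J k : ℕ) : ℕ :=
  ((List.range (2 ^ J)).filter (fun w => decide (pad w ∈ Ws e n J k))).length

/-- test whether the measure of `Ws` is at most `2 ^ (- e - 2)` -/
def good (e n J k : ℕ) : Bool := decide (cnt e n J k * 2 ^ (e + 2) ≤ 2 ^ J)

theorem Ws_dep (e n J k : ℕ) : Dep J (Ws e n J k) := by
  rintro z w h ⟨j, h1, h2, h3, h4⟩
  exact ⟨j, h1, h2, h3, (mt_congr (fun t ht => h t (by have := ilen_le j; omega))).mp h4⟩

theorem card_codes_Ws (e n J k : ℕ) : (codes J (Ws e n J k)).card = cnt e n J k := by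
  have h : codes J (Ws e n J k) =
      ((List.range (2 ^ J)).filter (fun w => decide (pad w ∈ Ws e n J k))).toFinset := by
    ext v
    rw [mem_codes, List.mem_toFinset, List.mem_filter, List.mem_range, decide_eq_true_iff]
  rw [h, List.toFinset_card_of_nodup, cnt]
  exact List.Nodup.filter _ (List.nodup_range)

theorem ennreal_aux (a J m : ℕ) :
    (a : ℝ≥0∞) * 2⁻¹ ^ J ≤ 2⁻¹ ^ m ↔ a * 2 ^ m ≤ 2 ^ J := by
  rw [← ENNReal.inv_pow, ← ENNReal.inv_pow, ← div_eq_mul_inv,
    ENNReal.div_le_iff (by simp) (by simp), mul_comm (2 ^ m)⁻¹, ← div_eq_mul_inv,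
    ENNReal.le_div_iff_mul_le (by simp) (by simp)]
  norm_cast

theorem good_iff (e n J k : ℕ) : good e n J k = true ↔ coin (Ws e n J k) ≤ 2⁻¹ ^ (e + 2) := by
  rw [(Ws_dep e n J k).coin_eq, card_codes_Ws, ennreal_aux]
  unfold good
  rw [decide_eq_true_iff]

theorem good_mono {e n J k k' : ℕ} (h : k ≤ k') (hg : good e n J k = true) :
    good e n J k' = true := by
  rw [good_iff] at *
  refine (measure_mono ?_).trans hg
  rintro z ⟨j, h1, h2, h3, h4⟩
  exact ⟨j, h1, h2, alive_anti h h3, h4⟩

/-- the event predicate -/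
def uev (i k : ℕ) : Bool :=
  decide (i.unpair.2.unpair.1 ≤ lev i.unpair.2.unpair.2) &&
  (alive k i.unpair.1 i.unpair.2.unpair.2 &&
  (good i.unpair.1 i.unpair.2.unpair.1 k.unpair.1 k.unpair.2 &&
  (decide (k.unpair.2 = 0) ||
    !(good i.unpair.1 i.unpair.2.unpair.1 k.unpair.1 (k.unpair.2 - 1)))))

/-- lengths of the cylinders of the universal system -/
def ulen (i : ℕ) : ℕ := ilen i.unpair.2.unpair.2

/-- digits of the cylinders of the universal system -/
def uval (i : ℕ) : ℕ := ival i.unpair.2.unpair.2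

theorem ulen_le (i : ℕ) : ulen i ≤ i :=
  (ilen_le _).trans ((Nat.unpair_right_le _).trans (Nat.unpair_right_le _))

theorem ulen_pair (e n j : ℕ) : ulen (Nat.pair e (Nat.pair n j)) = ilen j := by
  unfold ulen
  rw [Nat.unpair_pair, Nat.unpair_pair]

theorem uval_pair (e n j : ℕ) : uval (Nat.pair e (Nat.pair n j)) = ival j := by
  unfold uval
  rw [Nat.unpair_pair, Nat.unpair_pair]

attribute [irreducible] ulen uval

/-- the universal system -/
def US : Sys where
  ev := uev
  len := ulen
  val := uval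
  len_le := ulen_le

theorem US_len : US.len = ulen := rfl

theorem US_val : US.val = uval := rfl

theorem US_ev : US.ev = uev := rfl

theorem uev_iff (e n j k : ℕ) : uev (Nat.pair e (Nat.pair n j)) k = true ↔
    n ≤ lev j ∧ alive k e j = true ∧ good e n k.unpair.1 k.unpair.2 = true ∧
      (k.unpair.2 = 0 ∨ good e n k.unpair.1 (k.unpair.2 - 1) = false) := by
  unfold uev
  simp only [Nat.unpair_pair, Bool.and_eq_true, decide_eq_true_eq, Bool.or_eq_true,
    Bool.not_eq_true']

/-- the union of the cylinders of the items of level at least `n` which are never removed -/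
def Wt (e n : ℕ) : Set Seq := {z | ∃ j, n ≤ lev j ∧ Alive e j ∧ mt (ilen j) (ival j) z}

/-- finite part of `Wt` -/
def Wf (e n J : ℕ) : Set Seq := {z | ∃ j < J, n ≤ lev j ∧ Alive e j ∧ mt (ilen j) (ival j) z}

theorem Wt_eq (e n : ℕ) : Wt e n = ⋃ J, Wf e n J := by
  ext z
  simp only [Wt, Wf, mem_iUnion, mem_ofPred_eq]
  constructor
  · rintro ⟨j, h⟩
    exact ⟨j + 1, j, by omega, h⟩
  · rintro ⟨J, j, _, h⟩
    exact ⟨j, h⟩

theorem Wf_mono (e n : ℕ) : Monotone (Wf e n) := by
  rintro J J' h z ⟨j, h1, h2⟩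
  exact ⟨j, by omega, h2⟩

theorem coin_Wt_le_iff (e n : ℕ) (c : ℝ≥0∞) : coin (Wt e n) ≤ c ↔ ∀ J, coin (Wf e n J) ≤ c := by
  rw [Wt_eq, (Wf_mono e n).measure_iUnion, iSup_le_iff]

theorem exists_stage (e J : ℕ) : ∃ k, ∀ j < J, alive k e j = true → Alive e j := by
  have h : ∀ j < J, ∃ k, alive k e j = true → Alive e j := by
    intro j _
    by_cases hj : Alive e j
    · exact ⟨0, fun _ => hj⟩
    · rw [Alive_iff] at hj
      push Not at hj
      obtain ⟨k, hk⟩ := hj
      exact ⟨k, fun h => absurd h hk⟩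
  choose! g hg using h
  refine ⟨(Finset.range J).sup g, fun j hj h => hg j hj (alive_anti ?_ h)⟩
  exact Finset.le_sup (Finset.mem_range.mpr hj)

theorem fail_iff (e n j : ℕ) : US.fail (Nat.pair e (Nat.pair n j)) ↔
    n ≤ lev j ∧ Alive e j ∧ coin (Wt e n) ≤ 2⁻¹ ^ (e + 2) := by
  unfold Sys.fail
  change (∃ᶠ k in atTop, uev (Nat.pair e (Nat.pair n j)) k = true) ↔ _
  simp only [uev_iff]
  constructor
  · intro h
    refine ⟨(h.exists).choose_spec.1, ?_, ?_⟩
    · rw [Alive_iff]
      intro k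
      obtain ⟨k', h1, h2⟩ := (h.and_eventually (eventually_ge_atTop k)).exists
      exact alive_anti h2 h1.2.1
    · rw [coin_Wt_le_iff]
      intro J
      -- find an event with first component at least `J`
      have h1 : ∃ k : ℕ, J ≤ k.unpair.1 ∧ good e n k.unpair.1 k.unpair.2 = true := by
        by_contra hc
        push Not at hc
        -- the unique time for each `J' < J`
        have h2 : ∀ J', ∃ b, ∀ k, (good e n J' k = true ∧ (k = 0 ∨ good e n J' (k - 1) = false)) →
            k ≤ b := by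
          intro J'
          by_cases hg : ∃ k, good e n J' k = true
          · obtain ⟨k0, hk0⟩ := hg
            refine ⟨k0, ?_⟩
            rintro k ⟨_, h3⟩
            by_contra hlt
            push Not at hlt
            rcases h3 with h3 | h3
            · omega
            · have := good_mono (show k0 ≤ k - 1 by omega) hk0
              rw [h3] at this
              exact absurd this (by simp)
          · push Not at hg
            refine ⟨0, ?_⟩
            rintro k ⟨h3, _⟩
            exact absurd h3 (hg k)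
        choose b hb using h2
        obtain ⟨k, h3, h4⟩ := (h.and_eventually (eventually_ge_atTop
          ((Finset.range J).sup (fun J' => (J' + b J' + 1) ^ 2) + 1))).exists
        obtain ⟨_, _, h5, h6⟩ := h3
        have h7 : k.unpair.1 < J := by
          by_contra h8
          push Not at h8
          exact hc k h8 h5
        have h8 := hb k.unpair.1 k.unpair.2 ⟨h5, h6⟩
        have h9 : (k.unpair.1 + b k.unpair.1 + 1) ^ 2 ≤
            (Finset.range J).sup (fun J' => (J' + b J' + 1) ^ 2) :=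
          Finset.le_sup (f := fun J' => (J' + b J' + 1) ^ 2) (Finset.mem_range.mpr h7)
        have h10 : k < (max k.unpair.1 k.unpair.2 + 1) ^ 2 := by
          have := Nat.pair_lt_max_add_one_sq k.unpair.1 k.unpair.2
          rwa [Nat.pair_unpair] at this
        have h11 : max k.unpair.1 k.unpair.2 + 1 ≤ k.unpair.1 + b k.unpair.1 + 1 := by
          rcases max_cases k.unpair.1 k.unpair.2 with ⟨h, _⟩ | ⟨h, _⟩ <;> omega
        have h12 := Nat.pow_le_pow_left h11 2
        omega
      obtain ⟨k, h2, h3⟩ := h1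
      rw [good_iff] at h3
      refine (measure_mono ?_).trans h3
      rintro z ⟨j, h4, h5, h6, h7⟩
      exact ⟨j, by omega, h5, Alive_iff.mp h6 _, h7⟩
  · rintro ⟨h1, h2, h3⟩
    rw [coin_Wt_le_iff] at h3
    rw [frequently_atTop]
    intro J
    classical
    have h4 : ∃ k, good e n J k = true := by
      obtain ⟨k, hk⟩ := exists_stage e J
      refine ⟨k, ?_⟩
      rw [good_iff]
      refine (measure_mono ?_).trans (h3 J)
      rintro z ⟨j, h5, h6, h7, h8⟩
      exact ⟨j, h5, h6, hk j h5 h7, h8⟩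
    refine ⟨Nat.pair J (Nat.find h4), Nat.left_le_pair _ _, h1, Alive_iff.mp h2 _, ?_⟩
    rw [Nat.unpair_pair]
    refine ⟨Nat.find_spec h4, ?_⟩
    rcases Nat.eq_zero_or_pos (Nat.find h4) with h5 | h5
    · exact Or.inl h5
    · right
      have := Nat.find_min h4 (m := Nat.find h4 - 1) (by omega)
      simpa using this

theorem coin_GG : coin US.GG < 1 := by
  have hsub : US.GG ⊆ ⋃ e, ⋃ n, ⋃ (_ : coin (Wt e n) ≤ 2⁻¹ ^ (e + 2)), Wt e n := by
    rintro z ⟨i, hi, hz⟩
    obtain ⟨e, n, j, rfl⟩ : ∃ e n j : ℕ, i = Nat.pair e (Nat.pair n j) :=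
      ⟨i.unpair.1, i.unpair.2.unpair.1, i.unpair.2.unpair.2, by
        rw [Nat.pair_unpair, Nat.pair_unpair]⟩
    rw [fail_iff] at hi
    simp only [mem_iUnion]
    refine ⟨e, n, hi.2.2, j, hi.1, hi.2.1, ?_⟩
    rw [US_len, US_val, ulen_pair, uval_pair] at hz
    exact hz
  have hG : ∀ e, coin (⋃ n, ⋃ (_ : coin (Wt e n) ≤ 2⁻¹ ^ (e + 2)), Wt e n) ≤ 2⁻¹ ^ (e + 2) := by
    intro e
    classical
    by_cases h : ∃ n, coin (Wt e n) ≤ 2⁻¹ ^ (e + 2)
    · refine (measure_mono (t := Wt e (Nat.find h)) ?_).trans (Nat.find_spec h)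
      refine iUnion_subset fun n => iUnion_subset fun hn => ?_
      rintro z ⟨j, h1, h2⟩
      exact ⟨j, (Nat.find_min' h hn).trans h1, h2⟩
    · push Not at h
      refine measure_iUnion_null (fun n => measure_iUnion_null fun hn => ?_) |>.trans_le (zero_le)
      exact absurd hn (not_le.mpr (h n))
  have hsum : ∑' e : ℕ, (2⁻¹ : ℝ≥0∞) ^ (e + 2) = 2⁻¹ := by
    have h1 : ∀ e : ℕ, (2⁻¹ : ℝ≥0∞) ^ (e + 2) = 2⁻¹ ^ 2 * 2⁻¹ ^ e := by
      intro e; rw [pow_add, mul_comm]
    rw [tsum_congr h1, ENNReal.tsum_mul_left, ENNReal.tsum_geometric, ENNReal.one_sub_inv_two, inv_inv, sq,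
      mul_assoc, ENNReal.inv_mul_cancel (by norm_num) (by norm_num), mul_one]
  calc coin US.GG ≤ _ := measure_mono hsub
    _ ≤ ∑' e, coin (⋃ n, ⋃ (_ : coin (Wt e n) ≤ 2⁻¹ ^ (e + 2)), Wt e n) := measure_iUnion_le _
    _ ≤ ∑' e : ℕ, (2⁻¹ : ℝ≥0∞) ^ (e + 2) := ENNReal.tsum_le_tsum hG
    _ = 2⁻¹ := hsum
    _ < 1 := ENNReal.inv_lt_one.mpr (by norm_num)

end Pool.Agent.H661.Luzin
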